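import Pool.Agent.Helper607.Tutte.Defs

/-!
# Reduction to indecomposable codes
-/

namespace Pool.Agent.Helper607.Tutte.Decomp

open Finset Polynomial

section Decomp

variable {E : Type} [Fintype E] [DecidableEq E]

/-- extension by zero -/
def extp (p : E → Prop) [DecidablePred p] : ({e // p e} → ZMod 2) →ₗ[ZMod 2] (E → ZMod 2) where
  toFun x := fun e => if h : p e then x ⟨e, h⟩ else 0
  map_add' := by
    intro x y; funext e; by_cases h : p e <;> simp [h]
  map_smul' := by
    intro r x; funext e; by_cases h : p e <;> simp [h]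

/-- restriction -/
def rstp (p : E → Prop) : (E → ZMod 2) →ₗ[ZMod 2] ({e // p e} → ZMod 2) where
  toFun x := fun e => x e.1
  map_add' := by intro x y; rfl
  map_smul' := by intro r x; rfl

/-- restriction to a predicate followed by extension -/
def resp (p : E → Prop) [DecidablePred p] (x : E → ZMod 2) : E → ZMod 2 :=
  fun e => if p e then x e else 0

lemma extp_apply_pos (p : E → Prop) [DecidablePred p] (x : {e // p e} → ZMod 2) (e : E) (h : p e) :
    extp p x e = x ⟨e, h⟩ := by simp [extp, h]

lemma extp_apply_neg (p : E → Prop) [DecidablePred p] (x : {e // p e} → ZMod 2) (e : E)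
    (h : ¬ p e) : extp p x e = 0 := by simp [extp, h]

lemma rstp_extp (p : E → Prop) [DecidablePred p] (x : {e // p e} → ZMod 2) :
    rstp p (extp p x) = x := by
  funext e
  simp [rstp, extp, e.2]

lemma extp_rstp (p : E → Prop) [DecidablePred p] (x : E → ZMod 2) :
    extp p (rstp p x) = resp p x := by
  funext e
  by_cases h : p e <;> simp [rstp, extp, resp, h]

/-- the restricted code -/
def Cp (p : E → Prop) [DecidablePred p] (D : Submodule (ZMod 2) (E → ZMod 2)) :
    Submodule (ZMod 2) ({e // p e} → ZMod 2) := D.comap (extp p)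

/-- stability under restriction -/
def Stab (p : E → Prop) [DecidablePred p] (D : Submodule (ZMod 2) (E → ZMod 2)) : Prop :=
  ∀ x ∈ D, resp p x ∈ D

lemma Stab.compl {p : E → Prop} [DecidablePred p] {D : Submodule (ZMod 2) (E → ZMod 2)}
    (h : Stab p D) : Stab (fun e => ¬ p e) D := by
  intro x hx
  have : resp (fun e => ¬ p e) x = x - resp p x := by
    funext e
    by_cases he : p e <;> simp [resp, he]
  rw [this]
  exact D.sub_mem hx (h x hx)

lemma Cp_eq_map {p : E → Prop} [DecidablePred p] {D : Submodule (ZMod 2) (E → ZMod 2)}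
    (h : Stab p D) : Cp p D = D.map (rstp p) := by
  ext x
  constructor
  · intro hx
    exact ⟨extp p x, hx, rstp_extp p x⟩
  · rintro ⟨y, hy, rfl⟩
    change extp p (rstp p y) ∈ D
    rw [extp_rstp]
    exact h y hy

lemma sum_extp (p : E → Prop) [DecidablePred p] (f : E → ZMod 2) (x : {e // p e} → ZMod 2) :
    ∑ e, f e * extp p x e = ∑ e : {e // p e}, f e.1 * x e := by
  have h1 : ∑ e, f e * extp p x e = ∑ e ∈ Finset.univ.filter p, f e * extp p x e := by
    symm
    apply Finset.sum_subset (Finset.subset_univ _)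
    intro e _ he
    have : ¬ p e := by simpa using he
    rw [extp_apply_neg p x e this, mul_zero]
  rw [h1]
  rw [Finset.sum_subtype (Finset.univ.filter p) (p := p) (by simp)]
  apply Finset.sum_congr rfl
  intro e _
  rw [extp_apply_pos p x e.1 e.2]

lemma Cp_cyc (p : E → Prop) [DecidablePred p] {V : Type} [DecidableEq V] (s t : E → V) :
    Cp p (cyc s t) = cyc (fun e : {e // p e} => s e.1) (fun e => t e.1) := by
  ext x
  constructor
  · intro hx v
    have := hx v
    rw [sum_extp] at this
    exact this
  · intro hx v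
    have := hx v
    rw [sum_extp]
    exact this

lemma map_cut (p : E → Prop) [DecidablePred p] {V : Type} [DecidableEq V] (s t : E → V) :
    (cut s t).map (rstp p) = cut (fun e : {e // p e} => s e.1) (fun e => t e.1) := by
  unfold cut
  rw [Submodule.map_span]
  congr 1
  rw [← Set.range_comp]
  rfl

lemma Planar.Cp {p : E → Prop} [DecidablePred p] {D : Submodule (ZMod 2) (E → ZMod 2)}
    (h : Stab p D) (hD : Planar D) : Planar (Cp p D) := by
  obtain ⟨n, n', s, t, s', t', h1, h2⟩ := hD
  refine ⟨n, n', fun e => s e.1, fun e => t e.1, fun e => s' e.1, fun e => t' e.1, ?_, ?_⟩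
  · rw [h1, Cp_cyc]
  · rw [Cp_eq_map h, h2, map_cut]

lemma sum_resp (p : E → Prop) [DecidablePred p] (x c : E → ZMod 2) :
    ∑ e, resp p x e * c e = ∑ e, x e * resp p c e := by
  apply Finset.sum_congr rfl
  intro e _
  by_cases h : p e <;> simp [resp, h]

lemma Stab.perp {p : E → Prop} [DecidablePred p] {D : Submodule (ZMod 2) (E → ZMod 2)}
    (h : Stab p D) : Stab p (perp D) := by
  intro x hx c hc
  rw [sum_resp]
  exact hx _ (h c hc)

lemma Cp_perp {p : E → Prop} [DecidablePred p] {D : Submodule (ZMod 2) (E → ZMod 2)}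
    (h : Stab p D) : Cp p (perp D) = perp (Cp p D) := by
  ext x
  constructor
  · intro hx c hc
    have := hx (extp p c) hc
    have h2 : ∑ e, extp p x e * extp p c e = ∑ e : {e // p e}, extp p x e.1 * c e :=
      sum_extp p (extp p x) c
    rw [h2] at this
    rw [← this]
    apply Finset.sum_congr rfl
    intro e _
    rw [extp_apply_pos p x e.1 e.2]
  · intro hx c hc
    have hc' : rstp p c ∈ Cp p D := by
      rw [Cp_eq_map h]
      exact ⟨c, hc, rfl⟩
    have := hx _ hc'
    have h2 : ∑ e, c e * extp p x e = ∑ e : {e // p e}, c e.1 * x e := sum_extp p c x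
    have h3 : ∑ e, extp p x e * c e = ∑ e, c e * extp p x e :=
      Finset.sum_congr rfl fun e _ => mul_comm _ _
    rw [h3, h2, ← this]
    apply Finset.sum_congr rfl
    intro e _
    rw [mul_comm]
    rfl

lemma Cp_inf (p : E → Prop) [DecidablePred p] (D D' : Submodule (ZMod 2) (E → ZMod 2)) :
    Cp p (D ⊓ D') = Cp p D ⊓ Cp p D' := rfl

lemma Cp_supp (p : E → Prop) [DecidablePred p] (A : Finset E) :
    Cp p (supp A) = supp (A.subtype p) := by
  ext x
  constructor
  · intro hx e he
    have := hx e.1 (by simpa using he)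
    rwa [extp_apply_pos p x e.1 e.2] at this
  · intro hx e he
    by_cases h : p e
    · rw [extp_apply_pos p x e h]
      exact hx ⟨e, h⟩ (by simpa using he)
    · exact extp_apply_neg p x e h

lemma Stab.supp (p : E → Prop) [DecidablePred p] (A : Finset E) : Stab p (supp A) := by
  intro x hx e he
  simp only [resp]
  rw [hx e he]
  simp

lemma Stab.inf {p : E → Prop} [DecidablePred p] {D D' : Submodule (ZMod 2) (E → ZMod 2)}
    (h : Stab p D) (h' : Stab p D') : Stab p (D ⊓ D') :=
  fun x hx => ⟨h x hx.1, h' x hx.2⟩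

/-- a stable code is the product of its two parts -/
def splitEquiv {p : E → Prop} [DecidablePred p] {D : Submodule (ZMod 2) (E → ZMod 2)}
    (h : Stab p D) : D ≃ₗ[ZMod 2] (Cp p D × Cp (fun e => ¬ p e) D) where
  toFun x := (⟨rstp p x.1, by
      change extp p (rstp p x.1) ∈ D
      rw [extp_rstp]; exact h _ x.2⟩,
    ⟨rstp (fun e => ¬ p e) x.1, by
      change extp (fun e => ¬ p e) (rstp (fun e => ¬ p e) x.1) ∈ D
      rw [extp_rstp]; exact h.compl _ x.2⟩)
  map_add' := by
    intro x y
    rfl
  map_smul' := by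
    intro r x
    rfl
  invFun q := ⟨extp p q.1.1 + extp (fun e => ¬ p e) q.2.1, D.add_mem q.1.2 q.2.2⟩
  left_inv := by
    intro x
    apply Subtype.ext
    change extp p (rstp p x.1) + extp (fun e => ¬ p e) (rstp (fun e => ¬ p e) x.1) = x.1
    rw [extp_rstp, extp_rstp]
    funext e
    by_cases he : p e <;> simp [resp, he]
  right_inv := by
    rintro ⟨⟨a, ha⟩, ⟨b, hb⟩⟩
    apply Prod.ext
    · apply Subtype.ext
      funext e
      change extp p a e.1 + extp (fun e => ¬ p e) b e.1 = a e
      rw [extp_apply_pos p a e.1 e.2, extp_apply_neg (fun e => ¬ p e) b e.1 (not_not.mpr e.2)]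
      simp
    · apply Subtype.ext
      funext e
      change extp p a e.1 + extp (fun e => ¬ p e) b e.1 = b e
      rw [extp_apply_neg p a e.1 e.2, extp_apply_pos (fun e => ¬ p e) b e.1 e.2]
      simp

lemma finrank_split {p : E → Prop} [DecidablePred p] {D : Submodule (ZMod 2) (E → ZMod 2)}
    (h : Stab p D) : Module.finrank (ZMod 2) D =
      Module.finrank (ZMod 2) (Cp p D) + Module.finrank (ZMod 2) (Cp (fun e => ¬ p e) D) := by
  rw [(splitEquiv h).finrank_eq, Module.finrank_prod]

/-- finsets of `E` are pairs of finsets of the two parts -/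
def finsetSplit (p : E → Prop) [DecidablePred p] :
    Finset E ≃ Finset {e // p e} × Finset {e // ¬ p e} where
  toFun A := (A.subtype p, A.subtype (fun e => ¬ p e))
  invFun q := q.1.map (Function.Embedding.subtype _) ∪ q.2.map (Function.Embedding.subtype _)
  left_inv := by
    intro A
    ext e
    by_cases he : p e <;> simp [he]
  right_inv := by
    rintro ⟨A, B⟩
    apply Prod.ext
    · ext e
      simp [e.2]
    · ext e
      simp [e.2]

lemma pC_split {p : E → Prop} [DecidablePred p] {D : Submodule (ZMod 2) (E → ZMod 2)}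
    (h : Stab p D) : pC D = pC (Cp p D) * pC (Cp (fun e => ¬ p e) D) := by
  unfold pC
  rw [Finset.sum_mul_sum, ← Fintype.sum_prod_type'
    (f := fun (A : Finset {e // p e}) (B : Finset {e // ¬ p e}) =>
      (X : ℤ[X]) ^ (Module.finrank (ZMod 2) ↥(Cp p D ⊓ supp A) +
        Module.finrank (ZMod 2) ↥(perp (Cp p D) ⊓ supp Aᶜ)) *
      X ^ (Module.finrank (ZMod 2) ↥(Cp (fun e => ¬ p e) D ⊓ supp B) +
        Module.finrank (ZMod 2) ↥(perp (Cp (fun e => ¬ p e) D) ⊓ supp Bᶜ)))]
  rw [← Equiv.sum_comp (finsetSplit p)]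
  apply Finset.sum_congr rfl
  intro A _
  rw [← pow_add]
  congr 1
  have hA : Stab p (D ⊓ supp A) := h.inf (Stab.supp p A)
  have hA' : Stab p (perp D ⊓ supp Aᶜ) := h.perp.inf (Stab.supp p Aᶜ)
  rw [finrank_split hA, finrank_split hA', Cp_inf, Cp_inf, Cp_inf, Cp_inf, Cp_supp, Cp_supp,
    Cp_supp, Cp_supp, Cp_perp h, Cp_perp h.compl]
  have e1 : (Aᶜ).subtype p = (A.subtype p)ᶜ := by ext e; simp
  have e2 : (Aᶜ).subtype (fun e => ¬ p e) = (A.subtype (fun e => ¬ p e))ᶜ := by ext e; simp
  rw [e1, e2]
  change _ = Module.finrank (ZMod 2) ↥(Cp p D ⊓ supp (A.subtype p)) +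
        Module.finrank (ZMod 2) ↥(perp (Cp p D) ⊓ supp (A.subtype p)ᶜ) +
      (Module.finrank (ZMod 2) ↥(Cp (fun e => ¬ p e) D ⊓ supp (A.subtype fun e => ¬ p e)) +
        Module.finrank (ZMod 2) ↥(perp (Cp (fun e => ¬ p e) D) ⊓
          supp (A.subtype fun e => ¬ p e)ᶜ))
  ring

lemma finrank_hull_split {p : E → Prop} [DecidablePred p]
    {D : Submodule (ZMod 2) (E → ZMod 2)} (h : Stab p D) :
    Module.finrank (ZMod 2) ↥(D ⊓ perp D) =
      Module.finrank (ZMod 2) ↥(Cp p D ⊓ perp (Cp p D)) +
      Module.finrank (ZMod 2) ↥(Cp (fun e => ¬ p e) D ⊓ perp (Cp (fun e => ¬ p e) D)) := by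
  rw [finrank_split (h.inf h.perp), Cp_inf, Cp_inf, Cp_perp h, Cp_perp h.compl]

end Decomp

/-- TARGET 1: reduction to indecomposable codes. -/
theorem decomp
    (H : ∀ (E : Type) [Fintype E] [DecidableEq E] (C : Submodule (ZMod 2) (E → ZMod 2)),
      Planar C → Indec C → 2 ≤ Fintype.card E →
      pC C ∈ (Ideal.span {Polynomial.C 2, X} : Ideal ℤ[X]) ^
        Module.finrank (ZMod 2) ↥(C ⊓ perp C))
    (E : Type) [Fintype E] [DecidableEq E] (C : Submodule (ZMod 2) (E → ZMod 2))
    (hC : Planar C) :
    pC C ∈ (Ideal.span {Polynomial.C 2, X} : Ideal ℤ[X]) ^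
      Module.finrank (ZMod 2) ↥(C ⊓ perp C) := by
  suffices hmain : ∀ (m : ℕ) (E : Type) [Fintype E] [DecidableEq E]
      (C : Submodule (ZMod 2) (E → ZMod 2)), Fintype.card E = m → Planar C →
      pC C ∈ (Ideal.span {Polynomial.C 2, X} : Ideal ℤ[X]) ^
        Module.finrank (ZMod 2) ↥(C ⊓ perp C) from hmain _ E C rfl hC
  intro m
  induction m using Nat.strong_induction_on with
  | _ m ih =>
    intro E _ _ C hm hC
    by_cases hle : Fintype.card E ≤ 1
    · have hsub : Subsingleton E := Fintype.card_le_one_iff_subsingleton.mp hle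
      have hbot : C ⊓ perp C = ⊥ := by
        rw [eq_bot_iff]
        rintro x ⟨hx, hx'⟩
        rw [Submodule.mem_bot]
        funext e
        have h1 := hx' x hx
        have h2 : (Finset.univ : Finset E) = {e} := by
          ext e'
          simp [Subsingleton.elim e' e]
        rw [h2, Finset.sum_singleton] at h1
        have h3 : ∀ a : ZMod 2, a * a = 0 → a = 0 := by decide
        exact h3 _ h1
      rw [hbot, finrank_bot, pow_zero, Ideal.one_eq_top]
      exact Submodule.mem_top
    · by_cases hI : Indec C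
      · exact H E C hC hI (by omega)
      · unfold Indec at hI
        push Not at hI
        obtain ⟨A, hA, hA1, hA2⟩ := hI
        obtain ⟨p, hpd, hp⟩ : ∃ (p : E → Prop) (_ : DecidablePred p), ∀ e, p e ↔ e ∈ A :=
          ⟨fun e => e ∈ A, inferInstance, fun _ => Iff.rfl⟩
        have hst : Stab p C := by
          intro x hx
          have h1 : resp p x = res A x := by
            funext e
            by_cases he : p e
            · have he' := (hp e).mp he
              simp [resp, res, he, he']
            · have he' : e ∉ A := fun h => he ((hp e).mpr h)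
              simp [resp, res, he, he']
          rw [h1]
          exact hA x hx
        have hlt1 : Fintype.card {e // p e} < m := by
          rw [← hm]
          have h1 : ∃ x, x ∉ A := by
            by_contra hcon
            push Not at hcon
            exact hA2 (Finset.eq_univ_iff_forall.mpr hcon)
          obtain ⟨x, hx⟩ := h1
          exact Fintype.card_subtype_lt (x := x) (fun h => hx ((hp x).mp h))
        have hlt2 : Fintype.card {e // ¬ p e} < m := by
          rw [← hm]
          obtain ⟨a, ha⟩ := hA1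
          exact Fintype.card_subtype_lt (x := a) (fun h => h ((hp a).mpr ha))
        have r1 := ih _ hlt1 {e // p e} (Cp p C) rfl (Planar.Cp hst hC)
        have r2 := ih _ hlt2 {e // ¬ p e} (Cp (fun e => ¬ p e) C) rfl (Planar.Cp hst.compl hC)
        rw [pC_split hst, finrank_hull_split hst, pow_add]
        exact Ideal.mul_mem_mul r1 r2

end Pool.Agent.Helper607.Tutte.Decomp
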