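import Mathlib

namespace Pool.Agent.Helper607.Tutte

open Finset Polynomial

/-- Letters of words describing plane diagrams built from left to right in time: `cup i` creates a
new pair of strands at the positions `i`, `i + 1`; `cap i` joins the strands at the positions
`i`, `i + 1`; `y i` is a crossing of the strands at these positions. -/
inductive Lt where
  | cup (i : ℕ)
  | cap (i : ℕ)
  | y (i : ℕ)

section Ops

variable {Q : Type}

/-- insert two entries `x` at the positions `i`, `i + 1` -/
def ins (i : ℕ) (x : Q) (L : ℕ → Q) : ℕ → Q :=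
  fun n => if n < i then L n else if n < i + 2 then x else L (n - 2)

/-- delete the entries at the positions `i`, `i + 1` -/
def del (i : ℕ) (L : ℕ → Q) : ℕ → Q := fun n => if n < i then L n else L (n + 2)

/-- replace the entries at the positions `i`, `i + 1` by `x` -/
def st (i : ℕ) (x : Q) (L : ℕ → Q) : ℕ → Q := fun n => if n = i ∨ n = i + 1 then x else L n

/-- exchange the entries at the positions `i`, `i + 1` -/
def sw (i : ℕ) (L : ℕ → Q) : ℕ → Q :=
  fun n => if n = i then L (i + 1) else if n = i + 1 then L i else L n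

variable [Fintype Q] [DecidableEq Q]

/-- sum over the label of a new pair of strands -/
def opCup (i : ℕ) (F : (ℕ → Q) → ℤ) : (ℕ → Q) → ℤ := fun L => ∑ x, F (ins i x L)

/-- joining two strands: the labels must agree -/
def opCap (i : ℕ) (F : (ℕ → Q) → ℤ) : (ℕ → Q) → ℤ :=
  fun L => if L i = L (i + 1) then F (del i L) else 0

/-- a cap followed by a cup at the same place -/
def opE (i : ℕ) (F : (ℕ → Q) → ℤ) : (ℕ → Q) → ℤ :=
  fun L => if L i = L (i + 1) then ∑ x, F (st i x L) else 0

/-- the weighted number of labelings of the smoothings of a word (crossing = identity + `opE`) -/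
def ev : List Lt → ((ℕ → Q) → ℤ) → ((ℕ → Q) → ℤ)
  | [], F => F
  | Lt.cup i :: W, F => opCup i (ev W F)
  | Lt.cap i :: W, F => opCap i (ev W F)
  | Lt.y i :: W, F => fun L => ev W F L + opE i (ev W F) L

/-- the number of labelings when all crossings are passed straight -/
def sv : List Lt → ((ℕ → Q) → ℤ) → ((ℕ → Q) → ℤ)
  | [], F => F
  | Lt.cup i :: W, F => opCup i (sv W F)
  | Lt.cap i :: W, F => opCap i (sv W F)
  | Lt.y i :: W, F => fun L => sv W F (sw i L)

end Ops

/-- the word is a closed diagram when started with `N` strands -/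
def valid : ℕ → List Lt → Prop
  | N, [] => N = 0
  | N, Lt.cup i :: W => i ≤ N ∧ valid (N + 2) W
  | N, Lt.cap i :: W => i + 2 ≤ N ∧ valid (N - 2) W
  | N, Lt.y i :: W => i + 2 ≤ N ∧ valid N W

/-- state sum of a word with `q + 1` labels -/
def ZZ (W : List Lt) (q : ℕ) : ℤ := ev (Q := Fin (q + 1)) W (fun _ => 1) (fun _ => 0)

/-- number of straight labelings of a word with two labels -/
def sc (W : List Lt) : ℤ := sv (Q := ZMod 2) W (fun _ => 1) (fun _ => 0)

/-- families of integers which are the values at `1, 2, 3, ...` of a polynomial in `(2, X)^c` -/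
def Mem (F : ℕ → ℤ) (c : ℕ) : Prop :=
  ∃ P ∈ (Ideal.span {C 2, X} : Ideal ℤ[X]) ^ c, ∀ q : ℕ, F q = P.eval ((q : ℤ) + 1)

/-- initial block of `k` cups -/
def cups (k : ℕ) : List Lt := (List.range k).map fun j => Lt.cup (2 * j)

/-- final block of `k` caps -/
def caps (k : ℕ) : List Lt := ((List.range k).reverse).map fun j => Lt.cap (2 * j)

/-- plat closure of a word in crossings -/
def plat (k : ℕ) (w : List ℕ) : List Lt := cups k ++ w.map Lt.y ++ caps k

/-- local condition at an edge: labels `p, q` in and out at the first visit, `r, s` at the second -/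
def okc (o : Fin 3) {Q : Type} (p q r s : Q) : Prop :=
  if o = 0 then p = q ∧ r = s else if o = 1 then p = s ∧ r = q else p = r ∧ q = s

/-- the transition at an edge -/
def tau {E : Type} (χ : E → Fin 3) (x : E × Bool × Bool) : E × Bool × Bool :=
  if χ x.1 = 0 then (x.1, !x.2.1, x.2.2) else if χ x.1 = 1 then (x.1, x.2.1, !x.2.2)
  else (x.1, !x.2.1, !x.2.2)

/-- transitions relative to a set `T` of edges -/
def rel {E : Type} (T : E → Bool) (χ : E → Fin 3) (e : E) : Fin 3 :=
  if χ e = 2 then 2 else if (χ e = 0 ∧ T e = true) ∨ (χ e = 1 ∧ T e = false) then 0 else 1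

/-- labelings of the medial structure with transitions `χ` -/
def Lab {E : Type} (α : E × Bool × Bool → E × Bool × Bool) (χ : E → Fin 3) (Q : Type) : Type :=
  {y : E × Bool × Bool → Q // (∀ x, y (α x) = y x) ∧ ∀ x, y (tau χ x) = y x}

/-- labelings of a chord structure with options `χ` -/
def ChLab {E : Type} {n : ℕ} (a b : E → Fin n) (χ : E → Fin 3) (Q : Type) : Type :=
  {y : Fin (n + 1) → Q // y 0 = y (Fin.last n) ∧
    ∀ e, okc (χ e) (y (a e).castSucc) (y (a e).succ) (y (b e).castSucc) (y (b e).succ)}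

section Codes

variable {E : Type} [Fintype E] [DecidableEq E]

/-- cycle space of a graph with edge set `E` and end points `s e`, `t e` -/
def cyc {V : Type} [DecidableEq V] (s t : E → V) : Submodule (ZMod 2) (E → ZMod 2) where
  carrier := {x | ∀ v, ∑ e, ((if s e = v then (1 : ZMod 2) else 0) + (if t e = v then 1 else 0)) * x e = 0}
  add_mem' := by
    intro a b ha hb v
    simp only [Set.mem_ofPred_eq, Pi.add_apply, mul_add, Finset.sum_add_distrib] at *
    rw [ha v, hb v, add_zero]
  zero_mem' := by intro v; simp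
  smul_mem' := by
    intro c x hx v
    have h := congrArg (fun z => c * z) (hx v)
    simp only [mul_zero, Finset.mul_sum] at h
    exact Eq.trans (Finset.sum_congr rfl fun e _ => by rw [Pi.smul_apply, smul_eq_mul]; ring) h

/-- cut space of a graph -/
def cut {V : Type} [DecidableEq V] (s t : E → V) : Submodule (ZMod 2) (E → ZMod 2) :=
  Submodule.span (ZMod 2) (Set.range fun (v : V) (e : E) =>
    (if s e = v then (1 : ZMod 2) else 0) + (if t e = v then 1 else 0))

/-- orthogonal complement -/
def perp (C : Submodule (ZMod 2) (E → ZMod 2)) : Submodule (ZMod 2) (E → ZMod 2) where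
  carrier := {x | ∀ c ∈ C, ∑ e, x e * c e = 0}
  add_mem' := by
    intro a b ha hb c hc
    simp only [Set.mem_ofPred_eq, Pi.add_apply, add_mul, Finset.sum_add_distrib] at *
    rw [ha c hc, hb c hc, add_zero]
  zero_mem' := by intro c _; simp
  smul_mem' := by
    intro r x hx c hc
    have h := congrArg (fun z => r * z) (hx c hc)
    simp only [mul_zero, Finset.mul_sum] at h
    exact Eq.trans (Finset.sum_congr rfl fun e _ => by rw [Pi.smul_apply, smul_eq_mul]; ring) h

/-- vectors supported on `A` -/
def supp (A : Finset E) : Submodule (ZMod 2) (E → ZMod 2) where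
  carrier := {x | ∀ e ∉ A, x e = 0}
  add_mem' := by
    intro a b ha hb e he
    rw [Pi.add_apply, ha e he, hb e he, add_zero]
  zero_mem' := fun _ _ => rfl
  smul_mem' := by
    intro r x hx e he
    rw [Pi.smul_apply, hx e he, smul_zero]

/-- restriction of a vector to `A` -/
def res (A : Finset E) (x : E → ZMod 2) : E → ZMod 2 := fun e => if e ∈ A then x e else 0

/-- the code does not decompose as a direct sum -/
def Indec (C : Submodule (ZMod 2) (E → ZMod 2)) : Prop :=
  ∀ A : Finset E, (∀ x ∈ C, res A x ∈ C) → A = ∅ ∨ A = univ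

/-- the cycle space of a graph is the cut space of another graph -/
def Planar (C : Submodule (ZMod 2) (E → ZMod 2)) : Prop :=
  ∃ (n n' : ℕ) (s t : E → Fin n) (s' t' : E → Fin n'), C = cyc s t ∧ C = cut s' t'

/-- the diagonal Tutte polynomial in the variable `x - 1` -/
noncomputable def pC (C : Submodule (ZMod 2) (E → ZMod 2)) : ℤ[X] :=
  ∑ A : Finset E, X ^ (Module.finrank (ZMod 2) ↥(C ⊓ supp A) +
    Module.finrank (ZMod 2) ↥(perp C ⊓ supp Aᶜ))

/-- pairs `(a, b)` in `C × C^⊥` compatible with the transitions `χ` -/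
def LL (C : Submodule (ZMod 2) (E → ZMod 2)) (χ : E → Fin 3) :
    Submodule (ZMod 2) ((E → ZMod 2) × (E → ZMod 2)) where
  carrier := {p | p.1 ∈ C ∧ p.2 ∈ perp C ∧
    ∀ e, (χ e = 0 → p.2 e = 0) ∧ (χ e = 1 → p.1 e = 0) ∧ (χ e = 2 → p.1 e = p.2 e)}
  add_mem' := by
    rintro ⟨a, b⟩ ⟨a', b'⟩ ⟨h1, h2, h3⟩ ⟨h1', h2', h3'⟩
    refine ⟨C.add_mem h1 h1', (perp C).add_mem h2 h2', fun e => ⟨fun h => ?_, fun h => ?_, fun h => ?_⟩⟩
    · have e1 := (h3 e).1 h
      have e2 := (h3' e).1 h
      simp only [Prod.mk_add_mk, Pi.add_apply] at *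
      rw [e1, e2, add_zero]
    · have e1 := (h3 e).2.1 h
      have e2 := (h3' e).2.1 h
      simp only [Prod.mk_add_mk, Pi.add_apply] at *
      rw [e1, e2, add_zero]
    · have e1 := (h3 e).2.2 h
      have e2 := (h3' e).2.2 h
      simp only [Prod.mk_add_mk, Pi.add_apply] at *
      rw [e1, e2]
  zero_mem' := ⟨C.zero_mem, (perp C).zero_mem, fun e => ⟨fun _ => rfl, fun _ => rfl, fun _ => rfl⟩⟩
  smul_mem' := by
    rintro r ⟨a, b⟩ ⟨h1, h2, h3⟩
    refine ⟨C.smul_mem r h1, (perp C).smul_mem r h2, fun e => ⟨fun h => ?_, fun h => ?_, fun h => ?_⟩⟩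
    · have e1 := (h3 e).1 h
      simp only [Prod.smul_mk, Pi.smul_apply] at *
      rw [e1, smul_zero]
    · have e1 := (h3 e).2.1 h
      simp only [Prod.smul_mk, Pi.smul_apply] at *
      rw [e1, smul_zero]
    · have e1 := (h3 e).2.2 h
      simp only [Prod.smul_mk, Pi.smul_apply] at *
      rw [e1]

end Codes

/-- number of cups -/
def ncup : List Lt → ℕ
  | [] => 0
  | Lt.cup _ :: W => ncup W + 1
  | Lt.cap _ :: W => ncup W
  | Lt.y _ :: W => ncup W

/-- straight run: the labels after a word, when the `t`-th cup gets the label `x t` -/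
def run : List Lt → ℕ → (ℕ → ZMod 2) → (ℕ → ZMod 2) → (ℕ → ZMod 2)
  | [], _, L, _ => L
  | Lt.cup i :: W, t, L, x => run W (t + 1) (ins i (x t) L) x
  | Lt.cap i :: W, t, L, x => run W t (del i L) x
  | Lt.y i :: W, t, L, x => run W t (sw i L) x

/-- straight run: the labels agree at all caps -/
def acc : List Lt → ℕ → (ℕ → ZMod 2) → (ℕ → ZMod 2) → Prop
  | [], _, _, _ => True
  | Lt.cup i :: W, t, L, x => acc W (t + 1) (ins i (x t) L) x
  | Lt.cap i :: W, t, L, x => L i = L (i + 1) ∧ acc W t (del i L) x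
  | Lt.y i :: W, t, L, x => acc W t (sw i L) x

end Pool.Agent.Helper607.Tutte
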