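import Pool.Agent.Helper607.Tutte.Defs

/-!
# From codes to the matrix statement
-/

namespace Pool.Agent.Helper607.Tutte.Frozen

open Finset Polynomial

section FrozenOf

/-- incidence matrix of a graph with `m` edges and `n` vertices -/
def incM {n m : ℕ} (s t : Fin m → Fin n) : Matrix (Fin n) (Fin m) (ZMod 2) :=
  Matrix.of fun (i : Fin n) (j : Fin m) =>
    (if s j = i then (1 : ZMod 2) else 0) + (if t j = i then (1 : ZMod 2) else 0)

theorem cyc_eq_ker {n m : ℕ} (s t : Fin m → Fin n) :
    cyc s t = LinearMap.ker (Matrix.mulVecLin (incM s t)) := by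
  ext x
  rw [LinearMap.mem_ker, Matrix.mulVecLin_apply]
  constructor
  · intro h
    funext v
    exact h v
  · intro h v
    exact congrFun h v

theorem cut_eq_range {n m : ℕ} (s t : Fin m → Fin n) :
    cut s t = LinearMap.range (Matrix.mulVecLin (Matrix.transpose (incM s t))) := by
  rw [Matrix.range_mulVecLin]
  rfl

theorem perp_ker {n m : ℕ} (N : Matrix (Fin n) (Fin m) (ZMod 2)) :
    perp (LinearMap.ker (Matrix.mulVecLin N)) = LinearMap.range (Matrix.mulVecLin (Matrix.transpose N)) := by
  ext x
  constructor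
  · intro hx
    let f : Module.Dual (ZMod 2) (Fin m → ZMod 2) :=
      { toFun := fun y => ∑ e, x e * y e
        map_add' := by intro a b; simp [mul_add, Finset.sum_add_distrib]
        map_smul' := by intro c a; simp [Finset.mul_sum]; exact Finset.sum_congr rfl fun e _ => by ring }
    have hf : f ∈ (LinearMap.ker (Matrix.mulVecLin N)).dualAnnihilator := by
      rw [Submodule.mem_dualAnnihilator]
      intro y hy
      exact hx y hy
    rw [← LinearMap.range_dualMap_eq_dualAnnihilator_ker] at hf
    obtain ⟨g, hg⟩ := hf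
    refine ⟨fun i => g (Pi.single i 1), ?_⟩
    funext e
    have h1 : f (Pi.single e 1) = x e := by
      show ∑ e', x e' * (Pi.single e 1 : Fin m → ZMod 2) e' = x e
      rw [Finset.sum_eq_single e]
      · simp
      · intro b _ hb; simp [hb]
      · simp
    rw [← h1, ← hg, LinearMap.dualMap_apply, Matrix.mulVecLin_apply, Matrix.mulVecLin_apply,
      Matrix.mulVec_single_one]
    have h2 : (N.col e) = ∑ i, (N i e) • (Pi.single i (1 : ZMod 2) : Fin n → ZMod 2) := by
      funext i
      rw [Finset.sum_apply, Finset.sum_eq_single i]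
      · simp
      · intro b _ hb; simp [hb.symm]
      · simp
    rw [h2, map_sum]
    rw [Matrix.mulVec]
    simp only [dotProduct, Matrix.transpose_apply, map_smul, smul_eq_mul]
  · rintro ⟨z, rfl⟩ c hc
    rw [LinearMap.mem_ker, Matrix.mulVecLin_apply] at hc
    rw [Matrix.mulVecLin_apply]
    show (Matrix.transpose N).mulVec z ⬝ᵥ c = 0
    rw [Matrix.mulVec_transpose, ← Matrix.dotProduct_mulVec, hc, dotProduct_zero]

theorem supp_eq_span {m : ℕ} (A : Finset (Fin m)) :
    supp A = Submodule.span (ZMod 2) ((fun e : Fin m => (Pi.single e (1 : ZMod 2) : Fin m → ZMod 2)) '' A) := by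
  apply le_antisymm
  · intro x hx
    have h : x = ∑ e ∈ A, x e • (Pi.single e (1 : ZMod 2) : Fin m → ZMod 2) := by
      funext e'
      rw [Finset.sum_apply]
      by_cases he : e' ∈ A
      · rw [Finset.sum_eq_single e']
        · simp
        · intro b _ hb; simp [hb.symm]
        · intro h; exact absurd he h
      · rw [hx e' he, Finset.sum_eq_zero]
        intro b hb
        have : e' ≠ b := by rintro rfl; exact he hb
        simp [this]
    rw [h]
    exact Submodule.sum_mem _ fun e he => Submodule.smul_mem _ _ (Submodule.subset_span ⟨e, he, rfl⟩)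
  · rw [Submodule.span_le]
    rintro _ ⟨e, he, rfl⟩ e' he'
    have : e' ≠ e := by rintro rfl; exact he' he
    simp [this]

theorem finrank_supp {m : ℕ} (A : Finset (Fin m)) : Module.finrank (ZMod 2) (supp A) = A.card := by
  have e : supp A ≃ₗ[ZMod 2] (A → ZMod 2) :=
    { toFun := fun x e => x.1 e
      map_add' := fun _ _ => rfl
      map_smul' := fun _ _ => rfl
      invFun := fun y => ⟨fun e => if h : e ∈ A then y ⟨e, h⟩ else 0, fun e he => by simp [he]⟩
      left_inv := by
        intro x
        apply Subtype.ext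
        funext e
        by_cases h : e ∈ A
        · simp [h]
        · simp only [h, dite_false]; exact (x.2 e h).symm
      right_inv := by
        intro y
        funext e
        simp }
  rw [e.finrank_eq, Module.finrank_fintype_fun_eq_card, Fintype.card_coe]

theorem finrank_map_inf {V W : Type} [AddCommGroup V] [Module (ZMod 2) V] [FiniteDimensional (ZMod 2) V]
    [AddCommGroup W] [Module (ZMod 2) W] (S : V →ₗ[ZMod 2] W) (M : Submodule (ZMod 2) V) :
    Module.finrank (ZMod 2) M = Module.finrank (ZMod 2) (M.map S) +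
      Module.finrank (ZMod 2) (LinearMap.ker S ⊓ M : Submodule (ZMod 2) V) := by
  have h := LinearMap.finrank_range_add_finrank_ker (S.domRestrict M)
  rw [LinearMap.range_domRestrict, LinearMap.ker_domRestrict] at h
  rw [← h]
  congr 1
  have e : (LinearMap.ker S).submoduleOf M ≃ₗ[ZMod 2] (LinearMap.ker S ⊓ M : Submodule (ZMod 2) V) := by
    have h2 : (LinearMap.ker S).submoduleOf M = (LinearMap.ker S ⊓ M).submoduleOf M := by
      ext x; simp [Submodule.submoduleOf]
    rw [h2]
    exact Submodule.submoduleOfEquivOfLe inf_le_right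
  exact e.finrank_eq

theorem card_eq_rank_add {n m : ℕ} (N : Matrix (Fin n) (Fin m) (ZMod 2)) (A : Finset (Fin m)) :
    A.card = Module.finrank (ZMod 2) (Submodule.span (ZMod 2) ((fun (j : Fin m) (i : Fin n) => N i j) '' (A : Set (Fin m))))
      + Module.finrank (ZMod 2) ↥(LinearMap.ker (Matrix.mulVecLin N) ⊓ supp A) := by
  have h : (supp A).map (Matrix.mulVecLin N) =
      Submodule.span (ZMod 2) ((fun (j : Fin m) (i : Fin n) => N i j) '' (A : Set (Fin m))) := by
    rw [supp_eq_span, Submodule.map_span, Set.image_image]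
    have h' : (fun e : Fin m => Matrix.mulVecLin N (Pi.single e (1 : ZMod 2))) = fun (j : Fin m) (i : Fin n) => N i j := by
      funext e
      rw [Matrix.mulVecLin_apply, Matrix.mulVec_single_one]
      rfl
    rw [h']
  rw [← finrank_supp A, finrank_map_inf (Matrix.mulVecLin N) (supp A), h]

/-- restriction to `A` as a linear map -/
def resL {m : ℕ} (A : Finset (Fin m)) : (Fin m → ZMod 2) →ₗ[ZMod 2] (Fin m → ZMod 2) where
  toFun x e := if e ∈ A then x e else 0
  map_add' x y := by funext e; simp only [Pi.add_apply]; split_ifs <;> simp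
  map_smul' c x := by funext e; simp only [Pi.smul_apply, RingHom.id_apply]; split_ifs <;> simp

theorem ker_resL {m : ℕ} (A : Finset (Fin m)) : LinearMap.ker (resL A) = supp Aᶜ := by
  ext x
  rw [LinearMap.mem_ker]
  constructor
  · intro h e he
    have := congrFun h e
    rw [Finset.mem_compl, not_not] at he
    simpa [resL, he] using this
  · intro h
    funext e
    by_cases he : e ∈ A
    · have := h e (by simp [he])
      simp [resL, this]
    · simp [resL, he]

theorem rank_split {n m : ℕ} (N : Matrix (Fin n) (Fin m) (ZMod 2)) (A : Finset (Fin m)) :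
    Module.finrank (ZMod 2) (Submodule.span (ZMod 2) ((fun (j : Fin m) (i : Fin n) => N i j) '' ((Finset.univ : Finset (Fin m)) : Set (Fin m))))
    = Module.finrank (ZMod 2) (Submodule.span (ZMod 2) ((fun (j : Fin m) (i : Fin n) => N i j) '' (A : Set (Fin m))))
      + Module.finrank (ZMod 2) ↥(LinearMap.range (Matrix.mulVecLin (Matrix.transpose N)) ⊓ supp Aᶜ) := by
  have h1 : Module.finrank (ZMod 2) (Submodule.span (ZMod 2) ((fun (j : Fin m) (i : Fin n) => N i j) '' ((Finset.univ : Finset (Fin m)) : Set (Fin m))))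
      = Module.finrank (ZMod 2) ↥(LinearMap.range (Matrix.mulVecLin (Matrix.transpose N))) := by
    have := Matrix.rank_transpose N
    rw [Finset.coe_univ, Set.image_univ]
    have h2 := Matrix.rank_eq_finrank_span_cols N
    rw [← this] at h2
    exact h2.symm
  rw [h1, finrank_map_inf (resL A) (LinearMap.range (Matrix.mulVecLin (Matrix.transpose N))), ker_resL, inf_comm (supp Aᶜ)]
  congr 1
  let N' : Matrix (Fin n) (Fin m) (ZMod 2) := Matrix.of fun i j => if j ∈ A then N i j else 0
  have h3 : (LinearMap.range (Matrix.mulVecLin (Matrix.transpose N))).map (resL A) =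
      LinearMap.range (Matrix.mulVecLin (Matrix.transpose N')) := by
    rw [← LinearMap.range_comp]
    congr 1
    apply LinearMap.ext
    intro z
    funext e
    rw [LinearMap.comp_apply, Matrix.mulVecLin_apply, Matrix.mulVecLin_apply]
    show (if e ∈ A then _ else _) = _
    by_cases he : e ∈ A
    · simp [he, Matrix.mulVec, dotProduct, N']
    · simp [he, Matrix.mulVec, dotProduct, N']
  rw [h3]
  have h4 := Matrix.rank_transpose N'
  have h5 := Matrix.rank_eq_finrank_span_cols N'
  rw [← h4] at h5
  have h6 : Submodule.span (ZMod 2) (Set.range N'.col) =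
      Submodule.span (ZMod 2) ((fun (j : Fin m) (i : Fin n) => N i j) '' (A : Set (Fin m))) := ?_
  · rw [h6] at h5
    exact h5
  apply le_antisymm
  · rw [Submodule.span_le]
    rintro _ ⟨j, rfl⟩
    by_cases hj : j ∈ A
    · apply Submodule.subset_span
      refine ⟨j, hj, ?_⟩
      funext i
      simp [N', hj, Matrix.col]
    · have : N'.col j = 0 := by
        funext i
        simp [N', hj, Matrix.col]
      rw [SetLike.mem_coe, this]
      exact Submodule.zero_mem _
  · rw [Submodule.span_le]
    rintro _ ⟨j, hj, rfl⟩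
    apply Submodule.subset_span
    refine ⟨j, ?_⟩
    have hj' : j ∈ A := hj
    funext i
    simp [N', hj', Matrix.col]

theorem derivative_mem {J : Ideal ℤ[X]} (n : ℕ) : ∀ p ∈ J ^ n, Polynomial.derivative p ∈ J ^ (n - 1) := by
  induction n with
  | zero => intro p _; simp
  | succ n ih =>
    intro p hp
    rw [Nat.add_sub_cancel]
    rcases Nat.eq_zero_or_pos n with h0 | h0
    · subst h0; simp
    · rw [pow_succ] at hp
      refine Submodule.mul_induction_on hp ?_ ?_
      · intro a ha b hb
        rw [Polynomial.derivative_mul]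
        refine Ideal.add_mem _ ?_ (Ideal.mul_mem_right _ _ ha)
        have h1 := Ideal.mul_mem_mul (ih a ha) hb
        rw [← pow_succ, Nat.sub_add_cancel h0] at h1
        exact h1
      · intro a b ha hb
        rw [Polynomial.derivative_add]
        exact Ideal.add_mem _ ha hb

theorem iterate_derivative_mem {J : Ideal ℤ[X]} (k : ℕ) : ∀ (n : ℕ), ∀ p ∈ J ^ n,
    (Nat.iterate (fun p : Polynomial ℤ => Polynomial.derivative p) k p) ∈ J ^ (n - k) := by
  induction k with
  | zero => intro n p hp; simpa using hp
  | succ k ih =>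
    intro n p hp
    rw [Function.iterate_succ_apply]
    have := ih (n - 1) _ (derivative_mem n p hp)
    rwa [Nat.sub_sub, add_comm 1 k] at this

theorem dvd_eval_of_mem (n : ℕ) (p : ℤ[X]) (hp : p ∈ (Ideal.span {Polynomial.C 2, X - 1} : Ideal ℤ[X]) ^ n) :
    (2 : ℤ) ^ n ∣ Polynomial.eval (-1 : ℤ) p := by
  have h1 := Ideal.mem_map_of_mem (Polynomial.evalRingHom (-1 : ℤ)) hp
  rw [Ideal.map_pow, Ideal.map_span] at h1
  have h2 : Ideal.span ((Polynomial.evalRingHom (-1 : ℤ)) '' {Polynomial.C 2, X - 1}) ≤ Ideal.span {(2 : ℤ)} := by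
    rw [Ideal.span_le]
    rintro _ ⟨q, hq, rfl⟩
    rw [SetLike.mem_coe, Ideal.mem_span_singleton]
    rcases hq with rfl | rfl
    · simp
    · simp only [Polynomial.coe_evalRingHom, Polynomial.eval_sub, Polynomial.eval_X, Polynomial.eval_one]
      norm_num
  have h3 := Ideal.pow_right_mono h2 n h1
  rwa [Ideal.span_singleton_pow, Ideal.mem_span_singleton] at h3

end FrozenOf

/-- TARGET: the frozen statement from the statement on codes. -/
theorem frozen_of
    (H : ∀ (E : Type) [Fintype E] [DecidableEq E] (C : Submodule (ZMod 2) (E → ZMod 2)),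
      Planar C → pC C ∈ (Ideal.span {Polynomial.C 2, X} : Ideal ℤ[X]) ^
        Module.finrank (ZMod 2) ↥(C ⊓ perp C)) :
  ∀ (n m : ℕ) (s t : Fin m → Fin n),
    (∃ (n' : ℕ) (s' t' : Fin m → Fin n'),
      LinearMap.range (Matrix.mulVecLin (Matrix.transpose (Matrix.of fun (i : Fin n') (j : Fin m) =>
          (if s' j = i then (1 : ZMod 2) else 0) + (if t' j = i then (1 : ZMod 2) else 0)))) =
      LinearMap.ker (Matrix.mulVecLin (Matrix.of fun (i : Fin n) (j : Fin m) =>
          (if s j = i then (1 : ZMod 2) else 0) + (if t j = i then (1 : ZMod 2) else 0)))) →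
    ∀ (r : Finset (Fin m) → ℕ),
      (∀ A : Finset (Fin m), r A = Module.finrank (ZMod 2)
        (Submodule.span (ZMod 2) ((fun (j : Fin m) (i : Fin n) =>
          (if s j = i then (1 : ZMod 2) else 0) + (if t j = i then (1 : ZMod 2) else 0)) ''
            (A : Set (Fin m))))) →
    ∀ d : ℕ, d = Module.finrank (ZMod 2)
        ↥(LinearMap.range (Matrix.mulVecLin (Matrix.transpose (Matrix.of fun (i : Fin n) (j : Fin m) =>
            (if s j = i then (1 : ZMod 2) else 0) + (if t j = i then (1 : ZMod 2) else 0)))) ⊓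
          LinearMap.ker (Matrix.mulVecLin (Matrix.of fun (i : Fin n) (j : Fin m) =>
            (if s j = i then (1 : ZMod 2) else 0) + (if t j = i then (1 : ZMod 2) else 0)))) →
    ∀ k : ℕ, k ≤ d →
      (2 : ℤ) ^ (d - k) ∣ Polynomial.eval (-1 : ℤ)
        (Nat.iterate (fun p : Polynomial ℤ => Polynomial.derivative p) k
          (∑ A : Finset (Fin m),
            (Polynomial.X - 1 : Polynomial ℤ) ^ (r Finset.univ - r A) *
              (Polynomial.X - 1 : Polynomial ℤ) ^ (A.card - r A))) := by
  intro n m s t ⟨n', s', t', hpl⟩ r hr d hd k hk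
  set N := incM s t with hN
  have hpl' : LinearMap.range (Matrix.mulVecLin (Matrix.transpose (incM s' t'))) =
      LinearMap.ker (Matrix.mulVecLin N) := hpl
  have hr' : ∀ A : Finset (Fin m), r A = Module.finrank (ZMod 2) (Submodule.span (ZMod 2)
      ((fun (j : Fin m) (i : Fin n) => N i j) '' (A : Set (Fin m)))) := hr
  have hd' : d = Module.finrank (ZMod 2) ↥(LinearMap.range (Matrix.mulVecLin (Matrix.transpose N)) ⊓
      LinearMap.ker (Matrix.mulVecLin N)) := hd
  have h1 := H (Fin m) (LinearMap.ker (Matrix.mulVecLin N))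
    ⟨n, n', s, t, s', t', (cyc_eq_ker s t).symm, by rw [cut_eq_range]; exact hpl'.symm⟩
  rw [perp_ker, inf_comm, ← hd'] at h1
  have h2 : (∑ A : Finset (Fin m), (Polynomial.X - 1 : Polynomial ℤ) ^ (r Finset.univ - r A) *
      (Polynomial.X - 1 : Polynomial ℤ) ^ (A.card - r A)) =
      Polynomial.compRingHom (Polynomial.X - 1) (pC (LinearMap.ker (Matrix.mulVecLin N))) := by
    rw [pC, map_sum]
    refine Finset.sum_congr rfl fun A _ => ?_
    have e1 := card_eq_rank_add N A
    have e2 := rank_split N A
    rw [← hr'] at e1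
    rw [← hr', ← hr'] at e2
    rw [← pow_add, map_pow, perp_ker]
    have e3 : Polynomial.compRingHom (Polynomial.X - 1 : Polynomial ℤ) Polynomial.X = Polynomial.X - 1 := by simp
    rw [e3]
    congr 1
    omega
  rw [h2]
  apply dvd_eval_of_mem
  apply iterate_derivative_mem
  have h3 := Ideal.mem_map_of_mem (Polynomial.compRingHom (Polynomial.X - 1 : Polynomial ℤ)) h1
  rw [Ideal.map_pow, Ideal.map_span] at h3
  have h4 : Ideal.span ((Polynomial.compRingHom (Polynomial.X - 1 : Polynomial ℤ)) '' {Polynomial.C 2, X}) ≤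
      (Ideal.span {Polynomial.C 2, X - 1} : Ideal ℤ[X]) := by
    rw [Ideal.span_le]
    rintro _ ⟨q, hq, rfl⟩
    rcases hq with rfl | rfl
    · apply Ideal.subset_span
      left
      simp
    · apply Ideal.subset_span
      right
      simp
  exact Ideal.pow_right_mono h4 d h3

end Pool.Agent.Helper607.Tutte.Frozen
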