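import Pool.Agent.Helper607.Tutte.Defs

/-!
# From plats to all words
-/

namespace Pool.Agent.Helper607.Tutte.General

open Finset Polynomial

section Ops2

variable {Q : Type} [Fintype Q] [DecidableEq Q]

lemma ev_append (W W' : List Lt) (F : (ℕ → Q) → ℤ) : ev (W ++ W') F = ev W (ev W' F) := by
  induction W with
  | nil => rfl
  | cons a W ih => cases a <;> simp only [List.cons_append, ev, ih]

lemma sv_append (W W' : List Lt) (F : (ℕ → Q) → ℤ) : sv (W ++ W') F = sv W (sv W' F) := by
  induction W with
  | nil => rfl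
  | cons a W ih => cases a <;> simp only [List.cons_append, sv, ih]

/-! index identities -/

omit [Fintype Q] [DecidableEq Q]

lemma ins_lt {i n : ℕ} (x : Q) (L : ℕ → Q) (h : n < i) : ins i x L n = L n := by
  simp [ins, h]

lemma ins_self (i : ℕ) (x : Q) (L : ℕ → Q) : ins i x L i = x := by simp [ins]

lemma ins_self1 (i : ℕ) (x : Q) (L : ℕ → Q) : ins i x L (i + 1) = x := by simp [ins]

lemma ins_two (i : ℕ) (x : Q) (L : ℕ → Q) : ins i x L (i + 2) = L i := by simp [ins]

lemma st_ins_comm {j N : ℕ} (h : j + 2 ≤ N) (x z : Q) (L : ℕ → Q) :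
    st j z (ins N x L) = ins N x (st j z L) := by
  funext n; simp only [st, ins]; split_ifs <;> first | rfl | (exfalso; omega)

lemma sw_ins_comm {j N : ℕ} (h : j + 2 ≤ N) (x : Q) (L : ℕ → Q) :
    sw j (ins N x L) = ins N x (sw j L) := by
  funext n; simp only [sw, ins]; split_ifs <;> first | rfl | (exfalso; omega)

lemma del_ins_comm {j N : ℕ} (h : j ≤ N) (x : Q) (L : ℕ → Q) :
    del j (ins (N + 2) x L) = ins N x (del j L) := by
  funext n; simp only [del, ins]
  split_ifs <;> first | rfl | (exfalso; omega) | (congr 1; omega)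

lemma del_st_comm {j N : ℕ} (h : j + 2 ≤ N) (z : Q) (L : ℕ → Q) :
    del N (st j z L) = st j z (del N L) := by
  funext n; simp only [del, st]; split_ifs <;> first | rfl | (exfalso; omega)

lemma del_sw_comm {j N : ℕ} (h : j + 2 ≤ N) (L : ℕ → Q) :
    del N (sw j L) = sw j (del N L) := by
  funext n; simp only [del, sw]; split_ifs <;> first | rfl | (exfalso; omega)

lemma st_lt {j n : ℕ} (z : Q) (L : ℕ → Q) (h : j + 2 ≤ n) : st j z L n = L n := by
  simp only [st]; split_ifs <;> first | rfl | (exfalso; omega)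

lemma sw_lt {j n : ℕ} (L : ℕ → Q) (h : j + 2 ≤ n) : sw j L n = L n := by
  simp only [sw]; split_ifs <;> first | rfl | (exfalso; omega)

lemma st_ins_self (i : ℕ) (x z : Q) (L : ℕ → Q) : st i z (ins i x L) = ins i z L := by
  funext n; simp only [st, ins]; split_ifs <;> first | rfl | (exfalso; omega)

lemma st_ins_a (i : ℕ) (z : Q) (L : ℕ → Q) : st i z (ins (i + 1) (L i) L) = ins i z L := by
  funext n; simp only [st, ins]
  split_ifs <;> first | rfl | (exfalso; omega) | (congr 1; omega)

lemma st_ins_b (i : ℕ) (w : Q) (L : ℕ → Q) : st (i + 1) w (ins i (L i) L) = ins (i + 1) w L := by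
  funext n; simp only [st, ins]
  split_ifs <;> first | rfl | (exfalso; omega) | (congr 1; omega)

lemma sw_sw_ins (i : ℕ) (x : Q) (L : ℕ → Q) :
    sw (i + 1) (sw i (ins (i + 1) x L)) = ins i x L := by
  funext n; simp only [sw, ins]
  split_ifs <;> first | rfl | (exfalso; omega) | (congr 1; omega)

lemma ins_eq_of {i : ℕ} {x : Q} {L : ℕ → Q} (h : x = L i) : ins i x L = ins (i + 1) x L := by
  subst h
  funext n; simp only [ins]
  split_ifs <;> first | rfl | (exfalso; omega) | (congr 1; omega)

lemma del_eq_of {i : ℕ} {L : ℕ → Q} (h : L i = L (i + 2)) : del i L = del (i + 1) L := by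
  funext n; simp only [del]
  by_cases h1 : n < i
  · rw [if_pos h1, if_pos (by omega)]
  · by_cases h2 : n = i
    · subst h2
      rw [if_neg h1, if_pos (by omega), h]
    · rw [if_neg h1, if_neg (by omega)]


end Ops2

section Ops3

variable {Q : Type} [Fintype Q] [DecidableEq Q]

omit [Fintype Q] [DecidableEq Q] in
lemma ite_sum_swap (p : Prop) [Decidable p] {α : Type} [Fintype α] (f : α → ℤ) :
    (∑ x, if p then f x else 0) = if p then ∑ x, f x else 0 := by
  split_ifs <;> simp

lemma op_y_cup {j N : ℕ} (h : j + 2 ≤ N) (F : (ℕ → Q) → ℤ) :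
    ev [Lt.y j, Lt.cup N] F = ev [Lt.cup N, Lt.y j] F := by
  funext L
  simp only [ev, opCup, opE]
  rw [Finset.sum_add_distrib]
  congr 1
  simp only [ins_lt _ _ (show j < N by omega), ins_lt _ _ (show j + 1 < N by omega),
    st_ins_comm h]
  rw [ite_sum_swap, Finset.sum_comm]

lemma sop_y_cup {j N : ℕ} (h : j + 2 ≤ N) (F : (ℕ → Q) → ℤ) :
    sv [Lt.y j, Lt.cup N] F = sv [Lt.cup N, Lt.y j] F := by
  funext L
  simp only [sv, opCup, sw_ins_comm h]

lemma op_cap_cup {j N : ℕ} (h : j ≤ N) (F : (ℕ → Q) → ℤ) :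
    ev [Lt.cap j, Lt.cup N] F = ev [Lt.cup (N + 2), Lt.cap j] F := by
  funext L
  simp only [ev, opCup, opCap, ins_lt _ _ (show j < N + 2 by omega),
    ins_lt _ _ (show j + 1 < N + 2 by omega), del_ins_comm h]
  rw [ite_sum_swap]

lemma sop_cap_cup {j N : ℕ} (h : j ≤ N) (F : (ℕ → Q) → ℤ) :
    sv [Lt.cap j, Lt.cup N] F = sv [Lt.cup (N + 2), Lt.cap j] F := by
  funext L
  simp only [sv, opCup, opCap, ins_lt _ _ (show j < N + 2 by omega),
    ins_lt _ _ (show j + 1 < N + 2 by omega), del_ins_comm h]
  rw [ite_sum_swap]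

omit [Fintype Q] [DecidableEq Q] in
lemma del_lt {j n : ℕ} (L : ℕ → Q) (h : n < j) : del j L n = L n := by simp [del, h]

lemma op_y_cap {j N : ℕ} (h : j + 2 ≤ N) (F : (ℕ → Q) → ℤ) :
    ev [Lt.y j, Lt.cap N] F = ev [Lt.cap N, Lt.y j] F := by
  funext L
  simp only [ev, opCap, opE, st_lt _ _ (show j + 2 ≤ N by omega),
    st_lt _ _ (show j + 2 ≤ N + 1 by omega), del_st_comm h,
    del_lt _ (show j < N by omega), del_lt _ (show j + 1 < N by omega)]
  rw [ite_sum_swap]
  split_ifs <;> simp

lemma sop_y_cap {j N : ℕ} (h : j + 2 ≤ N) (F : (ℕ → Q) → ℤ) :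
    sv [Lt.y j, Lt.cap N] F = sv [Lt.cap N, Lt.y j] F := by
  funext L
  simp only [sv, opCap, sw_lt _ (show j + 2 ≤ N by omega),
    sw_lt _ (show j + 2 ≤ N + 1 by omega), del_sw_comm h]

omit [Fintype Q] [DecidableEq Q] in
lemma ins_cup_ne (i : ℕ) (x : Q) (L : ℕ → Q) : ins (i + 1) x L i = L i :=
  ins_lt _ _ (by omega)

/-- the first skein identity -/
lemma op_cup_skein (i : ℕ) (F : (ℕ → Q) → ℤ) (L : ℕ → Q) :
    ev [Lt.cup (i + 1), Lt.y i, Lt.y (i + 1)] F L =
      ev [Lt.cup i] F L + ((Fintype.card Q : ℤ) + 2) * ev [Lt.cup (i + 1)] F L := by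
  simp only [ev, opCup]
  set G : (ℕ → Q) → ℤ := fun L => F L + opE (i + 1) F L with hG
  have h1 : ∀ x, opE (i + 1) F (ins (i + 1) x L) = ∑ z, F (ins (i + 1) z L) := by
    intro x
    simp only [opE, ins_self, ins_self1, if_true, st_ins_self]
  have h2 : ∀ x, opE i G (ins (i + 1) x L) = if L i = x then ∑ z, G (ins i z L) else 0 := by
    intro x
    simp only [opE, ins_cup_ne, ins_self]
    split_ifs with hx
    · subst hx
      simp only [st_ins_a]
    · rfl
  have h3 : ∀ z, opE (i + 1) F (ins i z L) =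
      if L i = z then ∑ w, F (ins (i + 1) w L) else 0 := by
    intro z
    simp only [opE, ins_self1]
    have e : ins i z L (i + 1 + 1) = L i := ins_two i z L
    rw [e]
    by_cases hz : L i = z
    · subst hz
      simp only [if_true, st_ins_b]
    · rw [if_neg hz, if_neg (fun h => hz h.symm)]
  have h4 : ∀ x, G (ins (i + 1) x L) = F (ins (i + 1) x L) + ∑ z, F (ins (i + 1) z L) := by
    intro x; rw [hG]; simp only [h1]
  have h5 : ∀ z, G (ins i z L) = F (ins i z L) +
      if L i = z then ∑ w, F (ins (i + 1) w L) else 0 := by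
    intro x; rw [hG]; simp only [h3]
  calc ∑ x, (G (ins (i + 1) x L) + opE i G (ins (i + 1) x L))
      = ∑ x, (F (ins (i + 1) x L) + ∑ z, F (ins (i + 1) z L)) +
        ∑ x, (if L i = x then ∑ z, G (ins i z L) else 0) := by
        rw [← Finset.sum_add_distrib]
        exact Finset.sum_congr rfl fun x _ => by rw [h4, h2]
    _ = _ := by
        rw [Finset.sum_add_distrib, Finset.sum_const, Finset.card_univ,
          Finset.sum_ite_eq Finset.univ (L i), if_pos (Finset.mem_univ _)]
        simp only [h5]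
        rw [Finset.sum_add_distrib, Finset.sum_ite_eq Finset.univ (L i),
          if_pos (Finset.mem_univ _), nsmul_eq_mul]
        ring

lemma sop_cup_skein (i : ℕ) (F : (ℕ → Q) → ℤ) :
    sv [Lt.cup (i + 1), Lt.y i, Lt.y (i + 1)] F = sv [Lt.cup i] F := by
  funext L
  simp only [sv, opCup, sw_sw_ins]

/-- the second skein identity -/
lemma op_cap_skein (i : ℕ) (F : (ℕ → Q) → ℤ) (L : ℕ → Q) :
    ev [Lt.y (i + 1), Lt.y i, Lt.cap (i + 1)] F L =
      ev [Lt.cap i] F L + ((Fintype.card Q : ℤ) + 2) * ev [Lt.cap (i + 1)] F L := by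
  simp only [ev]
  -- deletions after stacking
  have d1 : ∀ (z : Q) (L : ℕ → Q), del (i + 1) (st i z L) = fun n => if n < i then L n else
      if n = i then z else L (n + 2) := by
    intro z L; funext n; simp only [del, st]
    split_ifs <;> first | rfl | (exfalso; omega)
  have hG2 : ∀ L : ℕ → Q, opCap (i + 1) F L + opE i (opCap (i + 1) F) L =
      (if L (i + 1) = L (i + 2) then F (del (i + 1) L) else 0) +
      (if L i = L (i + 1) then F (del i L) else 0) := by
    intro L
    congr 1
    simp only [opE, opCap]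
    split_ifs with h
    · have e1 : ∀ z, st i z L (i + 1) = z := fun z => by
        first
        | (simp [st]; done)
        | (simp only [st]; split_ifs <;> first | rfl | (exfalso; omega))
      have e2 : ∀ z, st i z L (i + 1 + 1) = L (i + 2) := fun z => by
        first
        | (simp [st]; done)
        | (simp only [st]; split_ifs <;> first | rfl | (exfalso; omega))
      simp only [e1, e2]
      rw [Finset.sum_ite_eq' Finset.univ (L (i + 2)), if_pos (Finset.mem_univ _)]
      congr 1
      rw [d1]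
      funext n
      simp only [del]
      by_cases h1 : n < i
      · rw [if_pos h1, if_pos h1]
      · rw [if_neg h1, if_neg h1]
        by_cases h2 : n = i
        · rw [if_pos h2, h2]
        · rw [if_neg h2]
    · rfl
  have hG2' : (fun L => opCap (i + 1) F L + opE i (opCap (i + 1) F) L) = fun L : ℕ → Q =>
      (if L (i + 1) = L (i + 2) then F (del (i + 1) L) else 0) +
      (if L i = L (i + 1) then F (del i L) else 0) := funext hG2
  rw [hG2', hG2 L]
  simp only [opE, opCap]
  by_cases h : L (i + 1) = L (i + 1 + 1)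
  · rw [if_pos h]
    have e0 : ∀ z, st (i + 1) z L i = L i := fun z => by
        first
        | (simp [st]; done)
        | (simp only [st]; split_ifs <;> first | rfl | (exfalso; omega))
    have e1 : ∀ z, st (i + 1) z L (i + 1) = z := fun z => by
        first
        | (simp [st]; done)
        | (simp only [st]; split_ifs <;> first | rfl | (exfalso; omega))
    have e2 : ∀ z, st (i + 1) z L (i + 2) = z := fun z => by
        first
        | (simp [st]; done)
        | (simp only [st]; split_ifs <;> first | rfl | (exfalso; omega))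
    have e3 : ∀ z, del (i + 1) (st (i + 1) z L) = del (i + 1) L := by
      intro z; funext n; simp only [del, st]
      split_ifs <;> first | rfl | (exfalso; omega)
    simp only [e0, e1, e2, e3, if_true]
    rw [Finset.sum_add_distrib, Finset.sum_ite_eq Finset.univ (L i),
      if_pos (Finset.mem_univ _), Finset.sum_const, Finset.card_univ, nsmul_eq_mul]
    have e4 : del i (st (i + 1) (L i) L) = del (i + 1) L := by
      funext n; simp only [del, st]
      by_cases h1 : n < i
      · rw [if_pos h1, if_neg (by omega), if_pos (by omega)]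
      · rw [if_neg h1]
        by_cases h2 : n = i
        · subst h2
          rw [if_pos (by omega), if_pos (by omega)]
        · rw [if_neg (by omega), if_neg (by omega)]
    rw [e4]
    have h' : L (i + 1) = L (i + 2) := h
    simp only [h', if_true]
    ring
  · have h' : ¬ L (i + 1) = L (i + 2) := h
    simp only [h', if_false]
    ring

lemma sop_cap_skein (i : ℕ) (F : (ℕ → Q) → ℤ) :
    sv [Lt.y (i + 1), Lt.y i, Lt.cap (i + 1)] F = sv [Lt.cap i] F := by
  funext L
  simp only [sv, opCap]
  have e1 : sw i (sw (i + 1) L) (i + 1) = L i := by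
    first
    | (simp [sw]; done)
    | (simp only [sw]; split_ifs <;> first | rfl | (exfalso; omega))
  have e2 : sw i (sw (i + 1) L) (i + 1 + 1) = L (i + 1) := by
    first
    | (simp [sw]; done)
    | (simp only [sw]; split_ifs <;> first | rfl | (exfalso; omega))
  have e3 : del (i + 1) (sw i (sw (i + 1) L)) = del i L := by
    funext n; simp only [del, sw]
    by_cases h1 : n < i
    · rw [if_pos (by omega), if_neg (by omega), if_neg (by omega), if_neg (by omega),
        if_neg (by omega), if_pos h1]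
    · by_cases h2 : n = i
      · subst h2; simp
      · rw [if_neg (by omega), if_neg (by omega), if_neg (by omega), if_neg (by omega),
          if_neg (by omega), if_neg (by omega)]
  rw [e1, e2, e3]

end Ops3


section Lin

variable {Q : Type} [Fintype Q] [DecidableEq Q]

lemma opCup_lin (i : ℕ) (F G : (ℕ → Q) → ℤ) (c : ℤ) :
    opCup i (fun L => F L + c * G L) = fun L => opCup i F L + c * opCup i G L := by
  funext L
  simp only [opCup, Finset.sum_add_distrib, Finset.mul_sum]

omit [Fintype Q] in
lemma opCap_lin (i : ℕ) (F G : (ℕ → Q) → ℤ) (c : ℤ) :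
    opCap i (fun L => F L + c * G L) = fun L => opCap i F L + c * opCap i G L := by
  funext L
  simp only [opCap]
  split_ifs <;> simp

lemma opE_lin (i : ℕ) (F G : (ℕ → Q) → ℤ) (c : ℤ) :
    opE i (fun L => F L + c * G L) = fun L => opE i F L + c * opE i G L := by
  funext L
  simp only [opE]
  split_ifs
  · simp only [Finset.sum_add_distrib, Finset.mul_sum]
  · simp

lemma ev_lin (W : List Lt) (F G : (ℕ → Q) → ℤ) (c : ℤ) :
    ev W (fun L => F L + c * G L) = fun L => ev W F L + c * ev W G L := by
  induction W with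
  | nil => rfl
  | cons a W ih =>
    cases a with
    | cup i => simp only [ev, ih, opCup_lin]
    | cap i => simp only [ev, ih, opCap_lin]
    | y i =>
      funext L
      simp only [ev, ih, opE_lin]
      ring

end Lin

/-- words with the same operators -/
def Eqv (W W' : List Lt) : Prop :=
  ∀ (Q : Type) [Fintype Q] [DecidableEq Q] (F : (ℕ → Q) → ℤ),
    ev W F = ev W' F ∧ sv W F = sv W' F

lemma Eqv.refl (W : List Lt) : Eqv W W := fun _ _ _ _ => ⟨rfl, rfl⟩

lemma Eqv.trans {W W' W'' : List Lt} (h : Eqv W W') (h' : Eqv W' W'') : Eqv W W'' :=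
  fun Q _ _ F => ⟨(h Q F).1.trans (h' Q F).1, (h Q F).2.trans (h' Q F).2⟩

lemma Eqv.ctx {W W' : List Lt} (h : Eqv W W') (A B : List Lt) :
    Eqv (A ++ W ++ B) (A ++ W' ++ B) := by
  intro Q _ _ F
  simp only [ev_append, sv_append]
  exact ⟨by rw [(h Q _).1], by rw [(h Q _).2]⟩

/-- the statement for one word -/
def PW (W : List Lt) : Prop := ∀ c : ℕ, sc W = 2 ^ c → Mem (ZZ W) c

lemma PW_of_eqv {W W' : List Lt} (h : Eqv W W') (h' : PW W') : PW W := by
  have h1 : sc W = sc W' := by unfold sc; rw [(h _ _).2]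
  have h2 : ZZ W = ZZ W' := by funext q; unfold ZZ; rw [(h _ _).1]
  unfold PW; rw [h1, h2]; exact h'

lemma PW_skein {W W1 W2 : List Lt} (hpow : ∀ W : List Lt, ∃ c : ℕ, sc W = 2 ^ c)
    (h1 : ∀ q : ℕ, ZZ W1 q = ZZ W q + (((q + 1 : ℕ) : ℤ) + 2) * ZZ W2 q)
    (h2 : sc W1 = sc W) (hc : ∀ c c2, sc W = 2 ^ c → sc W2 = 2 ^ c2 → c ≤ c2 + 1)
    (p1 : PW W1) (p2 : PW W2) : PW W := by
  intro c hcW
  obtain ⟨c2, hc2⟩ := hpow W2
  obtain ⟨P1, hP1, e1⟩ := p1 c (by rw [h2]; exact hcW)
  obtain ⟨P2, hP2, e2⟩ := p2 c2 hc2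
  refine ⟨P1 - (X + C 2) * P2, ?_, ?_⟩
  · refine Ideal.sub_mem _ hP1 ?_
    have hmem : (X + C 2 : ℤ[X]) ∈ (Ideal.span {C 2, X} : Ideal ℤ[X]) :=
      Ideal.add_mem _ (Ideal.subset_span (by simp)) (Ideal.subset_span (by simp))
    have h3 := Ideal.mul_mem_mul hmem hP2
    rw [← pow_succ'] at h3
    exact Ideal.pow_le_pow_right (hc c c2 hcW hc2) h3
  · intro q
    have h4 := h1 q
    rw [e1 q, e2 q] at h4
    simp only [eval_sub, eval_mul, eval_add, eval_X, eval_C]
    push_cast at h4
    linarith

lemma ncup_append (A B : List Lt) : ncup (A ++ B) = ncup A + ncup B := by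
  induction A with
  | nil => simp [ncup]
  | cons a A ih =>
    cases a <;> simp only [List.cons_append, ncup, ih]
    omega

lemma run_append (u v : List Lt) : ∀ (t : ℕ) (L x : ℕ → ZMod 2),
    run (u ++ v) t L x = run v (t + ncup u) (run u t L x) x := by
  induction u with
  | nil => intro t L x; rfl
  | cons a u ih =>
    intro t L x
    cases a with
    | cup i =>
      simp only [List.cons_append, run, ncup, ih]
      congr 1; omega
    | cap i => simp only [List.cons_append, run, ncup, ih]
    | y i => simp only [List.cons_append, run, ncup, ih]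

lemma acc_append (u v : List Lt) : ∀ (t : ℕ) (L x : ℕ → ZMod 2),
    acc (u ++ v) t L x ↔ acc u t L x ∧ acc v (t + ncup u) (run u t L x) x := by
  induction u with
  | nil => intro t L x; simp [acc, run, ncup]
  | cons a u ih =>
    intro t L x
    cases a with
    | cup i =>
      simp only [List.cons_append, run, ncup, acc, ih]
      have e : t + 1 + ncup u = t + (ncup u + 1) := by omega
      rw [e]
    | cap i => simp only [List.cons_append, run, ncup, acc, ih, and_assoc]
    | y i => simp only [List.cons_append, run, ncup, acc, ih]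

lemma run_add (W : List Lt) : ∀ (t : ℕ) (L L' x x' : ℕ → ZMod 2),
    run W t (L + L') (x + x') = run W t L x + run W t L' x' := by
  induction W with
  | nil => intro t L L' x x'; rfl
  | cons a W ih =>
    intro t L L' x x'
    cases a with
    | cup i =>
      simp only [run]
      have e : ins i ((x + x') t) (L + L') = ins i (x t) L + ins i (x' t) L' := by
        funext n; simp only [ins, Pi.add_apply]; split_ifs <;> rfl
      rw [e, ih]
    | cap i =>
      simp only [run]
      have e : del i (L + L') = del i L + del i L' := by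
        funext n; simp only [del, Pi.add_apply]; split_ifs <;> rfl
      rw [e, ih]
    | y i =>
      simp only [run]
      have e : sw i (L + L') = sw i L + sw i L' := by
        funext n; simp only [sw, Pi.add_apply]; split_ifs <;> rfl
      rw [e, ih]

/-- the label at position `i` after `A`, plus the label of the next cup -/
def phiCup (A : List Lt) (i : ℕ) : (ℕ → ZMod 2) →+ ZMod 2 :=
  AddMonoidHom.mk' (fun x => x (ncup A) + run A 0 0 x i) (by
    intro x x'
    have h := congrFun (run_add A 0 0 0 x x') i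
    rw [add_zero] at h
    rw [Pi.add_apply, h, Pi.add_apply]
    abel)

/-- the sum of the labels at positions `i` and `i + 2` after `A` -/
def phiCap (A : List Lt) (i : ℕ) : (ℕ → ZMod 2) →+ ZMod 2 :=
  AddMonoidHom.mk' (fun x => run A 0 0 x i + run A 0 0 x (i + 2)) (by
    intro x x'
    have h := congrFun (run_add A 0 0 0 x x') i
    have h' := congrFun (run_add A 0 0 0 x x') (i + 2)
    rw [add_zero] at h h'
    rw [h, h', Pi.add_apply, Pi.add_apply]
    abel)

lemma zmod_eq {a b : ZMod 2} (h : a + b = 0) : a = b := by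
  have h2 : b + b = 0 := CharTwo.add_self_eq_zero b
  exact add_right_cancel (h.trans h2.symm)

section Main

variable (hpow : ∀ W : List Lt, ∃ c : ℕ, sc W = 2 ^ c)
    (hineq : ∀ W W' : List Lt, ncup W = ncup W' → ∀ φ : (ℕ → ZMod 2) →+ ZMod 2,
      (∀ x, acc W 0 (fun _ => 0) x → φ x = 0 → acc W' 0 (fun _ => 0) x) →
      ∀ c c' : ℕ, sc W = 2 ^ c → sc W' = 2 ^ c' → c ≤ c' + 1)

include hpow hineq

lemma skein_cup (A B : List Lt) (i : ℕ)
    (h1 : PW (A ++ [Lt.cup (i + 1), Lt.y i, Lt.y (i + 1)] ++ B))
    (h2 : PW (A ++ [Lt.cup (i + 1)] ++ B)) : PW (A ++ [Lt.cup i] ++ B) := by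
  refine PW_skein hpow ?_ ?_ ?_ h1 h2
  · intro q
    unfold ZZ
    simp only [ev_append]
    have e : ev (Q := Fin (q + 1)) [Lt.cup (i + 1), Lt.y i, Lt.y (i + 1)] (ev B fun _ => 1) =
        fun L => ev [Lt.cup i] (ev B fun _ => 1) L +
          (((q + 1 : ℕ) : ℤ) + 2) * ev [Lt.cup (i + 1)] (ev B fun _ => 1) L := by
      funext L
      rw [op_cup_skein, Fintype.card_fin]
    rw [e, ev_lin]
  · unfold sc
    simp only [sv_append, sop_cup_skein]
  · refine hineq _ _ (by simp [ncup_append, ncup]) (phiCup A i) ?_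
    intro x hx hφ
    have hφ' : x (ncup A) = run A 0 0 x i := zmod_eq hφ
    rw [List.append_assoc, acc_append] at hx ⊢
    refine ⟨hx.1, ?_⟩
    have h3 := hx.2
    simp only [List.singleton_append, acc, zero_add] at h3 ⊢
    have e : ins (i + 1) (x (ncup A)) (run A 0 (fun _ => 0) x) =
        ins i (x (ncup A)) (run A 0 (fun _ => 0) x) := (ins_eq_of hφ').symm
    rw [e]
    exact h3

lemma skein_cap (A B : List Lt) (i : ℕ)
    (h1 : PW (A ++ [Lt.y (i + 1), Lt.y i, Lt.cap (i + 1)] ++ B))
    (h2 : PW (A ++ [Lt.cap (i + 1)] ++ B)) : PW (A ++ [Lt.cap i] ++ B) := by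
  refine PW_skein hpow ?_ ?_ ?_ h1 h2
  · intro q
    unfold ZZ
    simp only [ev_append]
    have e : ev (Q := Fin (q + 1)) [Lt.y (i + 1), Lt.y i, Lt.cap (i + 1)] (ev B fun _ => 1) =
        fun L => ev [Lt.cap i] (ev B fun _ => 1) L +
          (((q + 1 : ℕ) : ℤ) + 2) * ev [Lt.cap (i + 1)] (ev B fun _ => 1) L := by
      funext L
      rw [op_cap_skein, Fintype.card_fin]
    rw [e, ev_lin]
  · unfold sc
    simp only [sv_append, sop_cap_skein]
  · refine hineq _ _ (by simp [ncup_append, ncup]) (phiCap A i) ?_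
    intro x hx hφ
    have hφ' : run A 0 0 x i = run A 0 0 x (i + 2) := zmod_eq hφ
    rw [List.append_assoc, acc_append] at hx ⊢
    refine ⟨hx.1, ?_⟩
    have h3 := hx.2
    simp only [List.singleton_append, acc, zero_add] at h3 ⊢
    have e : del (i + 1) (run A 0 (fun _ => 0) x) = del i (run A 0 (fun _ => 0) x) :=
      (del_eq_of hφ').symm
    rw [e]
    exact ⟨h3.1.symm.trans hφ', h3.2⟩

end Main

/-- the number of strands after a word -/
def str : ℕ → List Lt → ℕ
  | N, [] => N
  | N, Lt.cup _ :: W => str (N + 2) W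
  | N, Lt.cap _ :: W => str (N - 2) W
  | N, Lt.y _ :: W => str N W

/-- the letters of the word fit -/
def okw : ℕ → List Lt → Prop
  | _, [] => True
  | N, Lt.cup i :: W => i ≤ N ∧ okw (N + 2) W
  | N, Lt.cap i :: W => i + 2 ≤ N ∧ okw (N - 2) W
  | N, Lt.y i :: W => i + 2 ≤ N ∧ okw N W

lemma str_append (u v : List Lt) : ∀ N, str N (u ++ v) = str (str N u) v := by
  induction u with
  | nil => intro N; rfl
  | cons a u ih => intro N; cases a <;> simp only [List.cons_append, str, ih]

lemma okw_append (u v : List Lt) : ∀ N, okw N (u ++ v) ↔ okw N u ∧ okw (str N u) v := by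
  induction u with
  | nil => intro N; simp [okw, str]
  | cons a u ih => intro N; cases a <;> simp only [List.cons_append, str, okw, ih, and_assoc]

lemma valid_iff (W : List Lt) : ∀ N, valid N W ↔ okw N W ∧ str N W = 0 := by
  induction W with
  | nil => intro N; simp [valid, okw, str]
  | cons a u ih => intro N; cases a <;> simp only [valid, str, okw, ih, and_assoc]

/-- number of caps -/
def ncap : List Lt → ℕ
  | [] => 0
  | Lt.cup _ :: W => ncap W
  | Lt.cap _ :: W => ncap W + 1
  | Lt.y _ :: W => ncap W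

lemma ncap_append (A B : List Lt) : ncap (A ++ B) = ncap A + ncap B := by
  induction A with
  | nil => simp [ncap]
  | cons a A ih =>
    cases a <;> simp only [List.cons_append, ncap, ih]
    omega

lemma eqv_y_cup {j N : ℕ} (h : j + 2 ≤ N) : Eqv [Lt.y j, Lt.cup N] [Lt.cup N, Lt.y j] :=
  fun _ _ _ F => ⟨op_y_cup h F, sop_y_cup h F⟩

lemma eqv_cap_cup {j N : ℕ} (h : j ≤ N) : Eqv [Lt.cap j, Lt.cup N] [Lt.cup (N + 2), Lt.cap j] :=
  fun _ _ _ F => ⟨op_cap_cup h F, sop_cap_cup h F⟩

lemma eqv_cap_y {j N : ℕ} (h : j + 2 ≤ N) : Eqv [Lt.cap N, Lt.y j] [Lt.y j, Lt.cap N] :=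
  fun _ _ _ F => ⟨(op_y_cap h F).symm, (sop_y_cap h F).symm⟩

lemma comm_cup (u : List Lt) : ∀ M, ncup u = 0 → okw M u →
    Eqv (u ++ [Lt.cup (str M u)]) (Lt.cup M :: u) := by
  induction u with
  | nil => intro M _ _; exact Eqv.refl _
  | cons a u ih =>
    intro M h1 h2
    cases a with
    | cup i => simp [ncup] at h1
    | cap i =>
      simp only [ncup] at h1
      simp only [okw] at h2
      have h3 := (ih (M - 2) h1 h2.2).ctx [Lt.cap i] []
      have h4 := (eqv_cap_cup (j := i) (N := M - 2) (by omega)).ctx [] u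
      have e : M - 2 + 2 = M := by omega
      rw [e] at h4
      simp only [List.append_nil, List.nil_append, List.cons_append] at h3 h4
      exact h3.trans h4
    | y i =>
      simp only [ncup] at h1
      simp only [okw] at h2
      have h3 := (ih M h1 h2.2).ctx [Lt.y i] []
      have h4 := (eqv_y_cup (j := i) (N := M) h2.1).ctx [] u
      simp only [List.append_nil, List.nil_append, List.cons_append] at h3 h4
      exact h3.trans h4

lemma comm_cap (w : List ℕ) (N : ℕ) (h : ∀ j ∈ w, j + 2 ≤ N) :
    Eqv (Lt.cap N :: w.map Lt.y) (w.map Lt.y ++ [Lt.cap N]) := by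
  induction w with
  | nil => exact Eqv.refl _
  | cons j w ih =>
    have h3 := (ih fun z hz => h z (List.mem_cons_of_mem _ hz)).ctx [Lt.y j] []
    have h4 := (eqv_cap_y (h j (by simp))).ctx [] (w.map Lt.y)
    simp only [List.append_nil, List.nil_append, List.cons_append] at h3 h4
    exact h4.trans h3

lemma split_first (V : List Lt) (h : ncup V ≠ 0) :
    ∃ u i v, V = u ++ Lt.cup i :: v ∧ ncup u = 0 := by
  induction V with
  | nil => exact absurd rfl h
  | cons a V ih =>
    cases a with
    | cup i => exact ⟨[], i, V, rfl, rfl⟩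
    | cap i =>
      obtain ⟨u, j, v, h1, h2⟩ := ih h
      exact ⟨Lt.cap i :: u, j, v, by rw [h1]; rfl, h2⟩
    | y i =>
      obtain ⟨u, j, v, h1, h2⟩ := ih h
      exact ⟨Lt.y i :: u, j, v, by rw [h1]; rfl, h2⟩

lemma all_y (V : List Lt) (h : ncup V = 0) (h' : ncap V = 0) : ∃ w : List ℕ, V = w.map Lt.y := by
  induction V with
  | nil => exact ⟨[], rfl⟩
  | cons a V ih =>
    cases a with
    | cup i => simp [ncup] at h
    | cap i => simp [ncap] at h'
    | y i =>
      obtain ⟨w, hw⟩ := ih h h'
      exact ⟨i :: w, by rw [hw]; rfl⟩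

lemma split_last (V : List Lt) (h0 : ncup V = 0) (h : ncap V ≠ 0) :
    ∃ (u : List Lt) (i : ℕ) (w : List ℕ), V = u ++ Lt.cap i :: w.map Lt.y := by
  induction V with
  | nil => exact absurd rfl h
  | cons a V ih =>
    cases a with
    | cup i => simp [ncup] at h0
    | cap i =>
      simp only [ncup] at h0
      by_cases h1 : ncap V = 0
      · obtain ⟨w, hw⟩ := all_y V h0 h1
        exact ⟨[], i, w, by rw [hw]; rfl⟩
      · obtain ⟨u, j, w, hw⟩ := ih h0 h1
        exact ⟨Lt.cap i :: u, j, w, by rw [hw]; rfl⟩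
    | y i =>
      simp only [ncup] at h0
      simp only [ncap] at h
      obtain ⟨u, j, w, hw⟩ := ih h0 h
      exact ⟨Lt.y i :: u, j, w, by rw [hw]; rfl⟩

lemma ok_shift (u : List Lt) : ∀ M, ncup u = 0 → okw M u →
    okw (M + 2) u ∧ str (M + 2) u = str M u + 2 := by
  induction u with
  | nil => intro M _ _; exact ⟨trivial, rfl⟩
  | cons a u ih =>
    intro M h1 h2
    cases a with
    | cup i => simp [ncup] at h1
    | cap i =>
      simp only [ncup] at h1
      simp only [okw] at h2
      have h3 := ih (M - 2) h1 h2.2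
      have e : M - 2 + 2 = M := by omega
      rw [e] at h3
      simp only [okw, str]
      have e' : M + 2 - 2 = M := by omega
      rw [e']
      exact ⟨⟨by omega, h3.1⟩, h3.2⟩
    | y i =>
      simp only [ncup] at h1
      simp only [okw] at h2
      have h3 := ih M h1 h2.2
      simp only [okw, str]
      exact ⟨⟨by omega, h3.1⟩, h3.2⟩

lemma cups_succ (k : ℕ) : cups (k + 1) = cups k ++ [Lt.cup (2 * k)] := by
  simp [cups, List.range_succ]

lemma caps_succ (k : ℕ) : caps (k + 1) = Lt.cap (2 * k) :: caps k := by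
  simp [caps, List.range_succ]

lemma okw_map_y (w : List ℕ) (N : ℕ) :
    okw N (w.map Lt.y) ↔ ∀ j ∈ w, j + 2 ≤ N := by
  induction w with
  | nil => simp [okw]
  | cons j w ih => simp [okw, ih]

lemma str_map_y (w : List ℕ) (N : ℕ) : str N (w.map Lt.y) = N := by
  induction w with
  | nil => rfl
  | cons j w ih => simpa [str] using ih

lemma ncap_map_y (w : List ℕ) : ncap (w.map Lt.y) = 0 := by
  induction w with
  | nil => rfl
  | cons j w ih => simpa [ncap] using ih

lemma ncup_map_y (w : List ℕ) : ncup (w.map Lt.y) = 0 := by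
  induction w with
  | nil => rfl
  | cons j w ih => simpa [ncup] using ih

section Main2

variable (hpow : ∀ W : List Lt, ∃ c : ℕ, sc W = 2 ^ c)
    (hineq : ∀ W W' : List Lt, ncup W = ncup W' → ∀ φ : (ℕ → ZMod 2) →+ ZMod 2,
      (∀ x, acc W 0 (fun _ => 0) x → φ x = 0 → acc W' 0 (fun _ => 0) x) →
      ∀ c c' : ℕ, sc W = 2 ^ c → sc W' = 2 ^ c' → c ≤ c' + 1)

include hpow hineq

lemma stage1 (base : ∀ k V, ncup V = 0 → valid (2 * k) V → PW (cups k ++ V)) :
    ∀ n k V, ncup V = n → valid (2 * k) V → PW (cups k ++ V) := by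
  intro n
  induction n with
  | zero => exact base
  | succ n ih =>
    intro k V hV hval
    obtain ⟨u, i, v, rfl, hu⟩ := split_first V (by omega)
    have hnv : ncup v = n := by
      rw [ncup_append] at hV
      simp only [ncup] at hV
      omega
    rw [valid_iff, okw_append, str_append] at hval
    obtain ⟨⟨hok, hok2⟩, hstr⟩ := hval
    simp only [okw, str] at hok2 hstr
    set N := str (2 * k) u with hN
    have inner : ∀ d i v, i + d = N → okw (N + 2) v → str (N + 2) v = 0 → ncup v = n →
        PW (cups k ++ (u ++ Lt.cup i :: v)) := by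
      intro d
      induction d with
      | zero =>
        intro i v hi h1 h2 h3
        have hiN : i = N := by omega
        subst hiN
        have h4 := (comm_cup u (2 * k) hu hok).ctx (cups k) v
        have e1 : cups k ++ (u ++ [Lt.cup (str (2 * k) u)]) ++ v =
            cups k ++ (u ++ Lt.cup N :: v) := by simp [hN]
        have e2 : cups k ++ Lt.cup (2 * k) :: u ++ v = cups (k + 1) ++ (u ++ v) := by
          rw [cups_succ]; simp
        rw [e1, e2] at h4
        refine PW_of_eqv h4 (ih (k + 1) (u ++ v) ?_ ?_)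
        · rw [ncup_append, hu, h3, zero_add]
        · have h5 := ok_shift u (2 * k) hu hok
          have e3 : 2 * (k + 1) = 2 * k + 2 := by ring
          rw [valid_iff, okw_append, str_append, e3, h5.2]
          exact ⟨⟨h5.1, h1⟩, h2⟩
      | succ d ihd =>
        intro i v hi h1 h2 h3
        have h4 := skein_cup hpow hineq (cups k ++ u) v i ?_ ?_
        · have e : cups k ++ u ++ [Lt.cup i] ++ v = cups k ++ (u ++ Lt.cup i :: v) := by simp
          rwa [e] at h4
        · have h5 := ihd (i + 1) (Lt.y i :: Lt.y (i + 1) :: v) (by omega)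
            (by simp only [okw]; exact ⟨by omega, by omega, h1⟩) (by simpa only [str] using h2)
            (by simpa only [ncup] using h3)
          have e : cups k ++ u ++ [Lt.cup (i + 1), Lt.y i, Lt.y (i + 1)] ++ v =
            cups k ++ (u ++ Lt.cup (i + 1) :: Lt.y i :: Lt.y (i + 1) :: v) := by simp
          rw [e]; exact h5
        · have h5 := ihd (i + 1) v (by omega) h1 h2 h3
          have e : cups k ++ u ++ [Lt.cup (i + 1)] ++ v =
            cups k ++ (u ++ Lt.cup (i + 1) :: v) := by simp
          rw [e]; exact h5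
    exact inner (N - i) i v (by omega) hok2.2 hstr hnv

lemma stage2 (hplat : ∀ (k : ℕ) (w : List ℕ), (∀ i ∈ w, i + 2 ≤ 2 * k) →
      ∀ c : ℕ, sc (plat k w) = 2 ^ c → Mem (ZZ (plat k w)) c) (k : ℕ) :
    ∀ (m : ℕ) (u : List Lt) (w : List ℕ) (r : ℕ), ncup u = 0 → ncap u = m → okw (2 * k) u →
      str (2 * k) u = 2 * r → (∀ j ∈ w, j + 2 ≤ 2 * r) →
      PW (cups k ++ (u ++ w.map Lt.y ++ caps r)) := by
  intro m
  induction m with
  | zero =>
    intro u w r h1 h2 h3 h4 h5
    obtain ⟨w', rfl⟩ := all_y u h1 h2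
    rw [str_map_y] at h4
    rw [okw_map_y] at h3
    have hrk : r = k := by omega
    subst hrk
    have h6 := hplat r (w' ++ w) (by
      intro j hj
      rcases List.mem_append.1 hj with hj | hj
      · exact h3 j hj
      · exact h5 j hj)
    have e : plat r (w' ++ w) = cups r ++ (w'.map Lt.y ++ w.map Lt.y ++ caps r) := by
      simp [plat]
    rw [e] at h6
    exact h6
  | succ m ih =>
    have inner : ∀ (d : ℕ) (u : List Lt) (i : ℕ) (w : List ℕ) (r : ℕ), ncup u = 0 → ncap u = m →
        okw (2 * k) u → str (2 * k) u = 2 * r + 2 → (∀ j ∈ w, j + 2 ≤ 2 * r) → i + d = 2 * r →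
        PW (cups k ++ (u ++ Lt.cap i :: w.map Lt.y ++ caps r)) := by
      intro d
      induction d with
      | zero =>
        intro u i w r h1 h2 h3 h4 h5 h6
        have hi : i = 2 * r := by omega
        subst hi
        have h7 := (comm_cap w (2 * r) h5).ctx (cups k ++ u) (caps r)
        have e1 : cups k ++ u ++ Lt.cap (2 * r) :: w.map Lt.y ++ caps r =
            cups k ++ (u ++ Lt.cap (2 * r) :: w.map Lt.y ++ caps r) := by simp
        have e2 : cups k ++ u ++ (w.map Lt.y ++ [Lt.cap (2 * r)]) ++ caps r =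
            cups k ++ (u ++ w.map Lt.y ++ caps (r + 1)) := by
          rw [caps_succ]; simp
        rw [e1, e2] at h7
        refine PW_of_eqv h7 (ih u w (r + 1) h1 h2 h3 (by omega) ?_)
        intro j hj
        have := h5 j hj
        omega
      | succ d ihd =>
        intro u i w r h1 h2 h3 h4 h5 h6
        have h7 := skein_cap hpow hineq (cups k ++ u) (w.map Lt.y ++ caps r) i ?_ ?_
        · have e : cups k ++ u ++ [Lt.cap i] ++ (w.map Lt.y ++ caps r) =
            cups k ++ (u ++ Lt.cap i :: w.map Lt.y ++ caps r) := by simp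
          rwa [e] at h7
        · have h8 := ihd (u ++ [Lt.y (i + 1), Lt.y i]) (i + 1) w r
            (by rw [ncup_append, h1]; simp [ncup]) (by rw [ncap_append, h2]; simp [ncap])
            (by
              rw [okw_append, h4]
              simp only [okw]
              exact ⟨h3, by omega, by omega, trivial⟩)
            (by rw [str_append, h4]; simp [str]) h5 (by omega)
          have e : cups k ++ u ++ [Lt.y (i + 1), Lt.y i, Lt.cap (i + 1)] ++
              (w.map Lt.y ++ caps r) = cups k ++ (u ++ [Lt.y (i + 1), Lt.y i] ++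
              Lt.cap (i + 1) :: w.map Lt.y ++ caps r) := by simp
          rw [e]; exact h8
        · have h8 := ihd u (i + 1) w r h1 h2 h3 h4 h5 (by omega)
          have e : cups k ++ u ++ [Lt.cap (i + 1)] ++ (w.map Lt.y ++ caps r) =
            cups k ++ (u ++ Lt.cap (i + 1) :: w.map Lt.y ++ caps r) := by simp
          rw [e]; exact h8
    intro u w r h1 h2 h3 h4 h5
    obtain ⟨u', i, w', rfl⟩ := split_last u h1 (by omega)
    rw [ncup_append] at h1
    rw [ncap_append] at h2
    simp only [ncap, ncap_map_y] at h2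
    rw [okw_append] at h3
    simp only [okw, okw_map_y] at h3
    rw [str_append] at h4
    simp only [str, str_map_y] at h4
    have h6 := inner (2 * r - i) u' i (w' ++ w) r (by omega) (by omega) h3.1 (by omega)
      (by
        intro j hj
        rcases List.mem_append.1 hj with hj | hj
        · have := h3.2.2 j hj
          omega
        · exact h5 j hj) (by omega)
    have e : cups k ++ (u' ++ Lt.cap i :: (w' ++ w).map Lt.y ++ caps r) =
        cups k ++ (u' ++ Lt.cap i :: w'.map Lt.y ++ w.map Lt.y ++ caps r) := by simp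
    rw [e] at h6
    exact h6

end Main2

/-- TARGET: from plat closures to all words.  The hypotheses `hplat`, `hpow`, `hineq` will be
proved elsewhere. -/
theorem words_of_plat
    (hplat : ∀ (k : ℕ) (w : List ℕ), (∀ i ∈ w, i + 2 ≤ 2 * k) →
      ∀ c : ℕ, sc (plat k w) = 2 ^ c → Mem (ZZ (plat k w)) c)
    (hpow : ∀ W : List Lt, ∃ c : ℕ, sc W = 2 ^ c)
    (hineq : ∀ W W' : List Lt, ncup W = ncup W' → ∀ φ : (ℕ → ZMod 2) →+ ZMod 2,
      (∀ x, acc W 0 (fun _ => 0) x → φ x = 0 → acc W' 0 (fun _ => 0) x) →
      ∀ c c' : ℕ, sc W = 2 ^ c → sc W' = 2 ^ c' → c ≤ c' + 1) :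
    ∀ W : List Lt, valid 0 W → ∀ c : ℕ, sc W = 2 ^ c → Mem (ZZ W) c := by
  intro W hW
  refine stage1 hpow hineq ?_ (ncup W) 0 W rfl (by simpa using hW)
  intro k V hV hval
  rw [valid_iff] at hval
  have h := stage2 hpow hineq hplat k (ncap V) V [] 0 hV rfl hval.1 (by simpa using hval.2)
    (by simp)
  have e : cups k ++ (V ++ List.map Lt.y [] ++ caps 0) = cups k ++ V := by simp [caps]
  rw [e] at h
  exact h

end Pool.Agent.Helper607.Tutte.General
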