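import Pool.Agent.Helper607.Tutte.Defs

/-!
# The medial structure of a pair of dual graphs
-/

namespace Pool.Agent.Helper607.Tutte.MapPair

open Finset Polynomial

section Dual

variable {E : Type} [Fintype E] [DecidableEq E]

/-- the standard bilinear form -/
def stdB (E : Type) [Fintype E] : LinearMap.BilinForm (ZMod 2) (E → ZMod 2) :=
  LinearMap.mk₂ (ZMod 2) (fun x y => ∑ e, x e * y e)
    (by intro a b c; simp only [Pi.add_apply, add_mul, Finset.sum_add_distrib])
    (by intro r a b; simp only [Pi.smul_apply, smul_eq_mul, Finset.mul_sum, mul_assoc])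
    (by intro a b c; simp only [Pi.add_apply, mul_add, Finset.sum_add_distrib])
    (by intro r a b; simp only [Pi.smul_apply, smul_eq_mul, Finset.mul_sum]
        exact Finset.sum_congr rfl fun e _ => by ring)

theorem stdB_apply (x y : E → ZMod 2) : stdB E x y = ∑ e, x e * y e := rfl

theorem stdB_symm (x y : E → ZMod 2) : stdB E x y = stdB E y x := by
  rw [stdB_apply, stdB_apply]
  exact Finset.sum_congr rfl fun e _ => mul_comm _ _

theorem stdB_nondeg : (stdB E).Nondegenerate := by
  have h : ∀ x : E → ZMod 2, (∀ y, stdB E x y = 0) → x = 0 := by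
    intro x hx
    funext e
    have := hx (Pi.single e 1)
    rw [stdB_apply, Finset.sum_eq_single e] at this
    · simpa using this
    · intro b _ hb; rw [Pi.single_eq_of_ne hb, mul_zero]
    · simp
  refine ⟨h, ?_⟩
  intro y hy
  exact h y fun x => by rw [stdB_symm]; exact hy x

theorem perp_eq (C : Submodule (ZMod 2) (E → ZMod 2)) : perp C = (stdB E).orthogonal C := by
  ext x
  constructor
  · intro h c hc
    show stdB E c x = 0
    rw [stdB_symm]
    exact h c hc
  · intro h c hc
    have h1 : stdB E c x = 0 := h c hc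
    rw [stdB_symm] at h1
    exact h1

theorem stdB_refl : (stdB E).IsRefl := fun x y h => by rw [stdB_symm]; exact h

theorem perp_perp (C : Submodule (ZMod 2) (E → ZMod 2)) : perp (perp C) = C := by
  rw [perp_eq, perp_eq]
  exact LinearMap.BilinForm.orthogonal_orthogonal stdB_nondeg stdB_refl C

theorem finrank_perp (C : Submodule (ZMod 2) (E → ZMod 2)) :
    Module.finrank (ZMod 2) ↥C + Module.finrank (ZMod 2) ↥(perp C) = Fintype.card E := by
  rw [perp_eq, LinearMap.BilinForm.finrank_orthogonal stdB_nondeg,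
    Module.finrank_fintype_fun_eq_card]
  have := Submodule.finrank_le C
  rw [Module.finrank_fintype_fun_eq_card] at this
  omega

variable {V : Type} [Fintype V] [DecidableEq V]

/-- vertex star -/
def star (s t : E → V) (v : V) : E → ZMod 2 :=
  fun e => (if s e = v then (1 : ZMod 2) else 0) + (if t e = v then 1 else 0)

theorem mem_cyc {s t : E → V} {x : E → ZMod 2} :
    x ∈ cyc s t ↔ ∀ v, ∑ e, star s t v e * x e = 0 := Iff.rfl

theorem star_mem_cut (s t : E → V) (v : V) : star s t v ∈ cut s t :=
  Submodule.subset_span ⟨v, rfl⟩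

theorem mem_perp {C : Submodule (ZMod 2) (E → ZMod 2)} {x : E → ZMod 2} :
    x ∈ perp C ↔ ∀ c ∈ C, ∑ e, x e * c e = 0 := Iff.rfl

theorem perp_cut (s t : E → V) : perp (cut s t) = cyc s t := by
  ext x
  rw [mem_perp, mem_cyc]
  constructor
  · intro h v
    have := h _ (star_mem_cut s t v)
    rw [← this]
    exact Finset.sum_congr rfl fun e _ => mul_comm _ _
  · intro h c hc
    refine Submodule.span_induction (p := fun c _ => ∑ e, x e * c e = 0) ?_ ?_ ?_ ?_ hc
    · rintro _ ⟨v, rfl⟩
      refine Eq.trans ?_ (h v)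
      exact Finset.sum_congr rfl fun e _ => mul_comm _ _
    · simp
    · intro a b _ _ ha hb
      simp only [Pi.add_apply, mul_add, Finset.sum_add_distrib, ha, hb, add_zero]
    · intro r a _ ha
      have := congrArg (fun z => r * z) ha
      simp only [mul_zero, Finset.mul_sum] at this
      rw [← this]
      exact Finset.sum_congr rfl fun e _ => by rw [Pi.smul_apply, smul_eq_mul]; ring

theorem perp_cyc (s t : E → V) : perp (cyc s t) = cut s t := by
  rw [← perp_cut, perp_perp]

theorem mem_cut {s t : E → V} {z : E → ZMod 2} :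
    z ∈ cut s t ↔ ∃ g : V → ZMod 2, ∀ e, z e = g (s e) + g (t e) := by
  unfold cut
  rw [Submodule.mem_span_range_iff_exists_fun]
  have key : ∀ (g : V → ZMod 2) (e : E), (∑ v, g v • fun e : E =>
      (if s e = v then (1 : ZMod 2) else 0) + (if t e = v then 1 else 0)) e =
      g (s e) + g (t e) := by
    intro g e
    rw [Finset.sum_apply]
    simp only [Pi.smul_apply, smul_eq_mul, mul_add, Finset.sum_add_distrib, mul_ite, mul_one,
      mul_zero]
    simp
  constructor
  · rintro ⟨g, rfl⟩
    exact ⟨g, key g⟩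
  · rintro ⟨g, hg⟩
    refine ⟨g, ?_⟩
    funext e
    rw [key, hg]

/-- pair of dual graphs with indecomposable cycle space -/
structure DP {F : Type} [Fintype F] [DecidableEq F] (s t : E → V) (s' t' : E → F) : Prop where
  h1 : cyc s t = cut s' t'
  h2 : cyc s' t' = cut s t
  ind : Indec (cyc s t)
  ind' : Indec (cyc s' t')
  card : 2 ≤ Fintype.card E

theorem DP.symm {F : Type} [Fintype F] [DecidableEq F] {s t : E → V} {s' t' : E → F}
    (h : DP s t s' t') : DP s' t' s t := ⟨h.h2, h.h1, h.ind', h.ind, h.card⟩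

theorem sum_res_comm (A : Finset E) (x y : E → ZMod 2) :
    ∑ e, res A x e * y e = ∑ e, x e * res A y e := by
  apply Finset.sum_congr rfl
  intro e _
  unfold res
  split_ifs
  · rfl
  · rw [zero_mul, mul_zero]

theorem indec_perp {C : Submodule (ZMod 2) (E → ZMod 2)} (h : Indec C) : Indec (perp C) := by
  intro A hA
  apply h A
  intro x hx
  rw [← perp_perp C]
  intro y hy
  rw [sum_res_comm]
  have h1 := hA y hy x hx
  rw [← h1]
  exact Finset.sum_congr rfl fun e _ => mul_comm _ _

end Dual

section DualB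

variable {E V F : Type} [Fintype E] [DecidableEq E] [Fintype V] [DecidableEq V]
  [Fintype F] [DecidableEq F] {s t : E → V} {s' t' : E → F}

theorem z2c : ∀ a : ZMod 2, a = 0 ∨ a = 1 := by decide

theorem z2ne : ∀ a : ZMod 2, a ≠ 0 → a = 1 := by decide

theorem star_ne_zero {v : V} {e : E} (h : star s t v e ≠ 0) : s e = v ∨ t e = v := by
  unfold star at h
  by_contra hc
  push Not at hc
  rw [if_neg hc.1, if_neg hc.2] at h
  exact h (add_zero _)

theorem sum_star (e : E) : ∑ v, star s t v e = 0 := by
  unfold star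
  rw [Finset.sum_add_distrib]
  simp
  decide

/-- handshake -/
theorem mem_cyc_of {y : E → ZMod 2} (v : V)
    (h : ∀ w, w ≠ v → ∑ e, star s t w e * y e = 0) : y ∈ cyc s t := by
  rw [mem_cyc]
  have h1 : ∑ w, ∑ e, star s t w e * y e = 0 := by
    rw [Finset.sum_comm]
    apply Finset.sum_eq_zero
    intro e _
    rw [← Finset.sum_mul, sum_star, zero_mul]
  rw [Finset.sum_eq_single v (fun w _ hw => h w hw) (by simp)] at h1
  intro w
  by_cases hw : w = v
  · rw [hw]; exact h1
  · exact h w hw

theorem DP.no_loop (h : DP s t s' t') (e : E) : s e ≠ t e := by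
  intro he
  have h1 : ∀ x ∈ cyc s t, res {e} x ∈ cyc s t := by
    intro x _
    rw [mem_cyc]
    intro v
    apply Finset.sum_eq_zero
    intro e' _
    by_cases h2 : e' = e
    · subst h2
      have : star s t v e' = 0 := by
        unfold star
        rw [he]
        split_ifs <;> decide
      rw [this, zero_mul]
    · unfold res
      rw [if_neg (by simpa using h2), mul_zero]
  rcases h.ind {e} h1 with h2 | h2
  · exact Finset.singleton_ne_empty e h2
  · have h3 := congrArg Finset.card h2
    rw [Finset.card_singleton, Finset.card_univ] at h3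
    have := h.card
    omega

theorem star_one (h : DP s t s' t') {v : V} {e : E} (hv : s e = v ∨ t e = v) :
    star s t v e = 1 := by
  have h1 := h.no_loop e
  unfold star
  rcases hv with hv | hv
  · rw [if_pos hv, if_neg (fun h2 => h1 (hv.trans h2.symm)), add_zero]
  · rw [if_pos hv, if_neg (fun h2 => h1 (h2.trans hv.symm)), zero_add]

theorem star_ne_iff (h : DP s t s' t') {v : V} {e : E} :
    star s t v e ≠ 0 ↔ (s e = v ∨ t e = v) :=
  ⟨star_ne_zero, fun hv => by rw [star_one h hv]; exact one_ne_zero⟩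

theorem DP.minimal (h : DP s t s' t') (v : V) {z : E → ZMod 2} (hz : z ∈ cut s t)
    (hs : ∀ e, z e ≠ 0 → star s t v e ≠ 0) : z = 0 ∨ z = star s t v := by
  obtain ⟨g0, hg0⟩ := mem_cut.mp hz
  obtain ⟨g, hg, hgv⟩ : ∃ g : V → ZMod 2, (∀ e, z e = g (s e) + g (t e)) ∧ g v = 0 := by
    refine ⟨fun w => g0 w + g0 v, ?_, ?_⟩
    · intro e
      show z e = (g0 (s e) + g0 v) + (g0 (t e) + g0 v)
      rw [hg0]
      generalize g0 (s e) = a
      generalize g0 (t e) = b
      generalize g0 v = c
      revert a b c; decide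
    · show g0 v + g0 v = 0
      generalize g0 v = c
      revert c; decide
  set A : Finset E := univ.filter (fun e => g (s e) = 1 ∨ g (t e) = 1) with hA
  have memA : ∀ e, e ∈ A ↔ (g (s e) = 1 ∨ g (t e) = 1) := by
    intro e; rw [hA, Finset.mem_filter]; simp
  have h1 : ∀ x ∈ cyc s t, res A x ∈ cyc s t := by
    intro x hx
    apply mem_cyc_of v
    intro w hw
    rcases z2c (g w) with h0 | h0
    · apply Finset.sum_eq_zero
      intro e _
      by_cases h3 : star s t w e = 0
      · rw [h3, zero_mul]
      unfold res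
      split_ifs with h4
      · exfalso
        rw [memA] at h4
        rcases star_ne_zero h3 with h5 | h5
        · have h6 : g (t e) = 1 := by
            rcases h4 with h4 | h4
            · rw [h5, h0] at h4; exact absurd h4 (by decide)
            · exact h4
          have h7 : z e ≠ 0 := by rw [hg, h5, h0, h6]; decide
          rcases star_ne_zero (hs e h7) with h8 | h8
          · exact hw (h5.symm.trans h8)
          · rw [h8, hgv] at h6; exact absurd h6 (by decide)
        · have h6 : g (s e) = 1 := by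
            rcases h4 with h4 | h4
            · exact h4
            · rw [h5, h0] at h4; exact absurd h4 (by decide)
          have h7 : z e ≠ 0 := by rw [hg, h5, h0, h6]; decide
          rcases star_ne_zero (hs e h7) with h8 | h8
          · rw [h8, hgv] at h6; exact absurd h6 (by decide)
          · exact hw (h5.symm.trans h8)
      · rw [mul_zero]
    · rw [← mem_cyc.mp hx w]
      apply Finset.sum_congr rfl
      intro e _
      by_cases h3 : star s t w e = 0
      · rw [h3, zero_mul, zero_mul]
      unfold res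
      rw [if_pos]
      rw [memA]
      rcases star_ne_zero h3 with h5 | h5
      · left; rw [h5, h0]
      · right; rw [h5, h0]
  rcases h.ind A h1 with h2 | h2
  · left
    funext e
    have h3 : e ∉ A := by rw [h2]; exact Finset.notMem_empty e
    rw [memA] at h3
    push Not at h3
    rw [hg, (z2c _).resolve_right h3.1, (z2c _).resolve_right h3.2]; rfl
  · right
    funext e
    have h3 : e ∈ A := by rw [h2]; exact Finset.mem_univ e
    rw [memA] at h3
    by_cases h4 : star s t v e = 0
    · rw [h4]
      by_contra h5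
      exact hs e h5 h4
    · rw [z2ne _ h4, hg]
      rcases star_ne_zero h4 with h5 | h5
      · rw [h5, hgv] at h3 ⊢
        rw [h3.resolve_left (by decide)]; rfl
      · rw [h5, hgv] at h3 ⊢
        rw [h3.resolve_right (by decide)]; rfl

/-- edges at the vertex `v` and the face `f` -/
def NN (s t : E → V) (s' t' : E → F) (v : V) (f : F) : Finset E :=
  univ.filter fun e => star s t v e ≠ 0 ∧ star s' t' f e ≠ 0

theorem mem_NN {v : V} {f : F} {e : E} :
    e ∈ NN s t s' t' v f ↔ star s t v e ≠ 0 ∧ star s' t' f e ≠ 0 := by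
  unfold NN; simp

theorem NN_even (h : DP s t s' t') (v : V) (f : F) : Even (NN s t s' t' v f).card := by
  have h1 : star s' t' f ∈ cyc s t := by rw [h.h1]; exact star_mem_cut _ _ _
  have h2 := mem_cyc.mp h1 v
  have h3 : ∑ e, star s t v e * star s' t' f e = ((NN s t s' t' v f).card : ZMod 2) := by
    rw [Finset.card_eq_sum_ones, Nat.cast_sum]
    unfold NN
    rw [Finset.sum_filter]
    apply Finset.sum_congr rfl
    intro e _
    by_cases h4 : star s t v e = 0
    · rw [h4, zero_mul, if_neg (by simp)]
    · by_cases h5 : star s' t' f e = 0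
      · rw [h5, mul_zero, if_neg (by simp)]
      · rw [z2ne _ h4, z2ne _ h5, if_pos ⟨one_ne_zero, one_ne_zero⟩]; simp
  rw [h3] at h2
  rw [even_iff_two_dvd]
  exact (ZMod.natCast_eq_zero_iff _ _).mp h2

theorem NN_card (h : DP s t s' t') (v : V) (f : F) :
    (NN s t s' t' v f).card = 0 ∨ (NN s t s' t' v f).card = 2 := by
  set B : Finset E := univ.filter (fun e => star s' t' f e ≠ 0) with hB
  have memB : ∀ e, e ∈ B ↔ star s' t' f e ≠ 0 := by intro e; rw [hB]; simp
  set VB : Finset V := univ.filter (fun w => (NN s t s' t' w f).card ≠ 0) with hVB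
  have memVB : ∀ w, w ∈ VB ↔ (NN s t s' t' w f).card ≠ 0 := by intro w; rw [hVB]; simp
  have hinc : ∀ e ∈ B, ∀ w, (s e = w ∨ t e = w) → w ∈ VB := by
    intro e he w hw
    rw [memVB]
    apply Finset.card_ne_zero_of_mem (a := e)
    rw [mem_NN]
    exact ⟨(star_ne_iff h).mpr hw, (memB e).mp he⟩
  -- linear algebra
  have hle : B.card ≤ VB.card := by
    rcases B.eq_empty_or_nonempty with h0 | ⟨e0, he0⟩
    · rw [h0]; simp
    have hv0 : s e0 ∈ VB := hinc e0 he0 _ (Or.inl rfl)
    set v0 := s e0 with hv0'
    let φ : ({e // e ∈ B} → ZMod 2) →ₗ[ZMod 2] ({w // w ∈ VB.erase v0} → ZMod 2) :=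
      { toFun := fun x w => ∑ e : {e // e ∈ B}, star s t w.1 e.1 * x e
        map_add' := by
          intro x y; funext w; simp only [Pi.add_apply, mul_add, Finset.sum_add_distrib]
        map_smul' := by
          intro r x; funext w
          simp only [Pi.smul_apply, smul_eq_mul, RingHom.id_apply, Finset.mul_sum]
          exact Finset.sum_congr rfl fun e _ => by ring }
    have hker : LinearMap.ker φ ≤ Submodule.span (ZMod 2)
        {fun e : {e // e ∈ B} => (1 : ZMod 2)} := by
      intro x hx
      set y : E → ZMod 2 := fun e => if he : e ∈ B then x ⟨e, he⟩ else 0 with hy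
      have hy1 : ∀ w, ∑ e, star s t w e * y e = ∑ e : {e // e ∈ B}, star s t w e.1 * x e := by
        intro w
        rw [← Finset.sum_subset (Finset.subset_univ B), ← Finset.sum_coe_sort B]
        · apply Finset.sum_congr rfl
          intro e _
          rw [hy]
          simp
        · intro e _ he
          rw [hy]
          simp [he]
      have hy2 : y ∈ cyc s t := by
        apply mem_cyc_of v0
        intro w hw
        rw [hy1]
        by_cases hwB : w ∈ VB
        · exact congrFun hx ⟨w, Finset.mem_erase.mpr ⟨hw, hwB⟩⟩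
        · apply Finset.sum_eq_zero
          intro e _
          by_cases h5 : star s t w e.1 = 0
          · rw [h5, zero_mul]
          · exact absurd (hinc e.1 e.2 w (star_ne_zero h5)) hwB
      rw [h.h1] at hy2
      have hy3 := h.symm.minimal f hy2 (by
        intro e he
        rw [hy] at he
        by_contra h6
        apply he
        have : e ∉ B := by rw [memB, not_not]; exact h6
        simp [this])
      rw [Submodule.mem_span_singleton]
      rcases hy3 with hy3 | hy3
      · refine ⟨0, ?_⟩
        rw [zero_smul]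
        funext e
        have := congrFun hy3 e.1
        rw [hy] at this
        simpa using this.symm
      · refine ⟨1, ?_⟩
        rw [one_smul]
        funext e
        have := congrFun hy3 e.1
        rw [hy, z2ne _ ((memB e.1).mp e.2)] at this
        simpa using this.symm
    have h1 := LinearMap.finrank_range_add_finrank_ker φ
    rw [Module.finrank_fintype_fun_eq_card, Fintype.card_coe] at h1
    have h2 : Module.finrank (ZMod 2) (LinearMap.ker φ) ≤ 1 :=
      by
      refine (Submodule.finrank_mono hker).trans ?_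
      have := finrank_span_le_card (R := ZMod 2) ({fun e : {e // e ∈ B} => (1 : ZMod 2)} : Set _)
      simpa using this
    have h3 := Submodule.finrank_le (LinearMap.range φ)
    rw [Module.finrank_fintype_fun_eq_card, Fintype.card_coe, Finset.card_erase_of_mem hv0] at h3
    have h4 : 0 < VB.card := Finset.card_pos.mpr ⟨v0, hv0⟩
    omega
  -- counting
  have hsum : ∑ w ∈ VB, (NN s t s' t' w f).card = 2 * B.card := by
    have h1 : ∑ w ∈ VB, (NN s t s' t' w f).card = ∑ w, (NN s t s' t' w f).card := by
      apply Finset.sum_subset (Finset.subset_univ _)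
      intro w _ hw
      rw [memVB] at hw
      push Not at hw
      exact hw
    have h2 : ∀ w, (NN s t s' t' w f).card = ∑ e ∈ B, if (s e = w ∨ t e = w) then 1 else 0 := by
      intro w
      rw [Finset.card_eq_sum_ones]
      unfold NN
      rw [hB, Finset.sum_filter, Finset.sum_filter]
      apply Finset.sum_congr rfl
      intro e _
      by_cases h5 : star s' t' f e = 0
      · simp [h5]
      · by_cases h6 : (s e = w ∨ t e = w)
        · rw [if_pos ⟨(star_ne_iff h).mpr h6, h5⟩, if_pos h5, if_pos h6]
        · rw [if_neg (fun h7 => h6 ((star_ne_iff h).mp h7.1)), if_pos h5, if_neg h6]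
    rw [h1, Finset.sum_congr rfl fun w _ => h2 w, Finset.sum_comm, mul_comm, ← smul_eq_mul,
      ← Finset.sum_const]
    apply Finset.sum_congr rfl
    intro e _
    rw [← Finset.sum_filter, ← Finset.card_eq_sum_ones]
    have h7 : (univ.filter fun w => s e = w ∨ t e = w) = {s e, t e} := by
      ext w; simp [eq_comm]
    rw [h7, Finset.card_pair (h.no_loop e)]
  by_cases hv : v ∈ VB
  · right
    have hge : ∀ w ∈ VB, 2 ≤ (NN s t s' t' w f).card := by
      intro w hw
      have h1 := (memVB w).mp hw
      obtain ⟨k, hk⟩ := NN_even h w f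
      omega
    have h1 : ∑ w ∈ VB, (NN s t s' t' w f).card ≤ ∑ w ∈ VB, 2 := by
      rw [hsum, Finset.sum_const, smul_eq_mul]; omega
    have h2 : ∀ w ∈ VB, 2 = (NN s t s' t' w f).card :=
      (Finset.sum_eq_sum_iff_of_le hge).mp (le_antisymm (Finset.sum_le_sum hge) h1)
    exact (h2 v hv).symm
  · left
    rw [memVB] at hv
    push Not at hv
    exact hv

end DualB

section DualC

variable {E V F : Type} [Fintype E] [DecidableEq E] [Fintype V] [DecidableEq V]
  [Fintype F] [DecidableEq F] {s t : E → V} {s' t' : E → F}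

/-- vertex or face of a flag -/
def vx (s t : E → V) (b : Bool) (e : E) : V := if b then t e else s e

theorem vx_false (e : E) : vx s t false e = s e := rfl
theorem vx_true (e : E) : vx s t true e = t e := rfl

theorem vx_star (h : DP s t s' t') (b : Bool) (e : E) : star s t (vx s t b e) e ≠ 0 := by
  rw [star_ne_iff h]
  cases b
  · left; rfl
  · right; rfl

theorem vx_inj (h : DP s t s' t') (e : E) {b c : Bool} (hb : vx s t b e = vx s t c e) : b = c := by
  have h1 := h.no_loop e
  cases b <;> cases c
  · rfl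
  · exact absurd hb h1
  · exact absurd hb.symm h1
  · rfl

theorem exists_vx (_h : DP s t s' t') {v : V} {e : E} (hv : star s t v e ≠ 0) :
    ∃ b, vx s t b e = v := by
  rcases star_ne_zero hv with h1 | h1
  · exact ⟨false, h1⟩
  · exact ⟨true, h1⟩

theorem fiber_card (h : DP s t s' t') (x : E × Bool × Bool) :
    (univ.filter (fun y : E × Bool × Bool => vx s t y.2.1 y.1 = vx s t x.2.1 x.1 ∧
      vx s' t' y.2.2 y.1 = vx s' t' x.2.2 x.1)).card = 2 := by
  have h1 : (univ.filter (fun y : E × Bool × Bool => vx s t y.2.1 y.1 = vx s t x.2.1 x.1 ∧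
      vx s' t' y.2.2 y.1 = vx s' t' x.2.2 x.1)).card =
      (NN s t s' t' (vx s t x.2.1 x.1) (vx s' t' x.2.2 x.1)).card := by
    apply Finset.card_nbij (fun y => y.1)
    · intro y hy
      rw [Finset.mem_coe, Finset.mem_filter] at hy
      rw [Finset.mem_coe, mem_NN, ← hy.2.1, ← hy.2.2]
      exact ⟨vx_star h _ _, vx_star h.symm _ _⟩
    · rintro ⟨e, i, j⟩ hy ⟨e', i', j'⟩ hy' he
      rw [Finset.mem_coe, Finset.mem_filter] at hy hy'
      simp only at he hy hy'
      subst he
      rw [vx_inj h e (hy.2.1.trans hy'.2.1.symm), vx_inj h.symm e (hy.2.2.trans hy'.2.2.symm)]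
    · intro e he
      rw [Finset.mem_coe, mem_NN] at he
      obtain ⟨i, hi⟩ := exists_vx h he.1
      obtain ⟨j, hj⟩ := exists_vx h.symm he.2
      refine ⟨(e, i, j), ?_, rfl⟩
      rw [Finset.mem_coe, Finset.mem_filter]
      exact ⟨Finset.mem_univ _, hi, hj⟩
  rw [h1]
  rcases NN_card h (vx s t x.2.1 x.1) (vx s' t' x.2.2 x.1) with h2 | h2
  · exfalso
    rw [Finset.card_eq_zero] at h2
    have h3 : x.1 ∈ NN s t s' t' (vx s t x.2.1 x.1) (vx s' t' x.2.2 x.1) := by
      rw [mem_NN]; exact ⟨vx_star h _ _, vx_star h.symm _ _⟩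
    rw [h2] at h3
    exact Finset.notMem_empty _ h3
  · exact h2

theorem exists_alpha (h : DP s t s' t') : ∃ α : E × Bool × Bool → E × Bool × Bool,
    (∀ x, α (α x) = x) ∧ (∀ x, α x ≠ x) ∧ (∀ x, vx s t (α x).2.1 (α x).1 = vx s t x.2.1 x.1) ∧
    (∀ x, vx s' t' (α x).2.2 (α x).1 = vx s' t' x.2.2 x.1) := by
  have h1 : ∀ x : E × Bool × Bool, ∃ y, y ≠ x ∧ (vx s t y.2.1 y.1 = vx s t x.2.1 x.1 ∧
      vx s' t' y.2.2 y.1 = vx s' t' x.2.2 x.1) ∧
      ∀ z : E × Bool × Bool, vx s t z.2.1 z.1 = vx s t x.2.1 x.1 →
        vx s' t' z.2.2 z.1 = vx s' t' x.2.2 x.1 → z = x ∨ z = y := by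
    intro x
    have h2 := fiber_card h x
    rw [Finset.card_eq_two] at h2
    obtain ⟨y, z, hyz, hs⟩ := h2
    have hmem : ∀ w : E × Bool × Bool, (vx s t w.2.1 w.1 = vx s t x.2.1 x.1 ∧
      vx s' t' w.2.2 w.1 = vx s' t' x.2.2 x.1) ↔ (w = y ∨ w = z) := by
      intro w
      have := Finset.ext_iff.mp hs w
      rw [Finset.mem_filter, Finset.mem_insert, Finset.mem_singleton] at this
      simpa using this
    rcases (hmem x).mp ⟨rfl, rfl⟩ with h3 | h3
    · refine ⟨z, ?_, (hmem z).mpr (Or.inr rfl), ?_⟩
      · rw [h3]; exact hyz.symm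
      · intro w hw1 hw2
        rcases (hmem w).mp ⟨hw1, hw2⟩ with h4 | h4
        · left; rw [h3, h4]
        · right; exact h4
    · refine ⟨y, ?_, (hmem y).mpr (Or.inl rfl), ?_⟩
      · rw [h3]; exact hyz
      · intro w hw1 hw2
        rcases (hmem w).mp ⟨hw1, hw2⟩ with h4 | h4
        · right; exact h4
        · left; rw [h3, h4]
  choose α ha1 ha2 ha3 using h1
  refine ⟨α, ?_, ha1, fun x => (ha2 x).1, fun x => (ha2 x).2⟩
  intro x
  rcases ha3 x (α (α x)) ((ha2 _).1.trans (ha2 x).1) ((ha2 _).2.trans (ha2 x).2) with h2 | h2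
  · exact h2
  · exact absurd h2 (ha1 _)

/-- numbers of labelings are powers of the number of labels -/
theorem exists_k {X : Type} [Finite X] (α τ : X → X) : ∃ k : ℕ, ∀ (Q : Type) [Fintype Q],
    Nat.card {y : X → Q // (∀ x, y (α x) = y x) ∧ ∀ x, y (τ x) = y x} = Fintype.card Q ^ k := by
  let r : Setoid X := Relation.EqvGen.setoid (fun x y => y = α x ∨ y = τ x)
  refine ⟨Nat.card (Quotient r), ?_⟩
  intro Q _
  rw [← Nat.card_eq_fintype_card, ← Nat.card_fun]
  refine Nat.card_congr
    { toFun := fun y => Quotient.lift (s := r) y.1 ?_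
      invFun := fun g => ⟨fun x => g (Quotient.mk r x), ?_, ?_⟩
      left_inv := fun y => rfl
      right_inv := fun g => ?_ }
  · intro a b hab
    have hab' : Relation.EqvGen (fun x y => y = α x ∨ y = τ x) a b := hab
    induction hab' with
    | rel a b h =>
      rcases h with h | h
      · rw [h]; exact (y.2.1 a).symm
      · rw [h]; exact (y.2.2 a).symm
    | refl a => rfl
    | symm a b _ ih => exact (ih (by assumption)).symm
    | trans a b c _ _ ih1 ih2 => exact (ih1 (by assumption)).trans (ih2 (by assumption))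
  · intro x
    have h1 : r (α x) x := Relation.EqvGen.symm _ _ (Relation.EqvGen.rel x (α x) (Or.inl rfl))
    exact congrArg g (Quotient.sound h1)
  · intro x
    have h1 : r (τ x) x := Relation.EqvGen.symm _ _ (Relation.EqvGen.rel x (τ x) (Or.inr rfl))
    exact congrArg g (Quotient.sound h1)
  · funext q
    induction q using Quotient.inductionOn with
    | _ a => rfl

end DualC

section DualD

theorem finrank_split2 {V W : Type} [AddCommGroup V] [Module (ZMod 2) V]
    [FiniteDimensional (ZMod 2) V] [AddCommGroup W] [Module (ZMod 2) W]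
    (S : V →ₗ[ZMod 2] W) (M : Submodule (ZMod 2) V) :
    Module.finrank (ZMod 2) M = Module.finrank (ZMod 2) (M.map S) +
      Module.finrank (ZMod 2) (M ⊓ LinearMap.ker S : Submodule (ZMod 2) V) := by
  have h := LinearMap.finrank_range_add_finrank_ker (S.domRestrict M)
  rw [LinearMap.range_domRestrict, LinearMap.ker_domRestrict] at h
  rw [← h]
  congr 1
  have e : (LinearMap.ker S).submoduleOf M ≃ₗ[ZMod 2] (M ⊓ LinearMap.ker S : Submodule (ZMod 2) V) := by
    have h2 : (LinearMap.ker S).submoduleOf M = (M ⊓ LinearMap.ker S).submoduleOf M := by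
      ext x; simp [Submodule.submoduleOf]
    rw [h2]
    exact Submodule.submoduleOfEquivOfLe inf_le_left
  exact e.finrank_eq

variable {E V F : Type} [Fintype E] [DecidableEq E] [Fintype V] [DecidableEq V]
  [Fintype F] [DecidableEq F] {s t : E → V} {s' t' : E → F}

/-- functions invariant under a map -/
def InvS {X : Type} (α : X → X) : Submodule (ZMod 2) (X → ZMod 2) where
  carrier := {y | ∀ x, y (α x) = y x}
  add_mem' := by intro a b ha hb x; rw [Pi.add_apply, Pi.add_apply, ha, hb]
  zero_mem' := fun _ => rfl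
  smul_mem' := by intro c a ha x; rw [Pi.smul_apply, Pi.smul_apply, ha]

theorem mem_InvS {X : Type} {α : X → X} {y : X → ZMod 2} : y ∈ InvS α ↔ ∀ x, y (α x) = y x :=
  Iff.rfl

theorem finrank_InvS {X : Type} [Fintype X] (α : X → X) (hα : ∀ x, α (α x) = x) :
    Fintype.card X ≤ 2 * Module.finrank (ZMod 2) (InvS α) := by
  let φ : (X → ZMod 2) →ₗ[ZMod 2] (X → ZMod 2) :=
    { toFun := fun y x => y x + y (α x)
      map_add' := by intro a b; funext x; simp only [Pi.add_apply]; ring
      map_smul' := by
        intro c a; funext x; simp only [Pi.smul_apply, smul_eq_mul, RingHom.id_apply]; ring }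
  have h1 : LinearMap.ker φ ≤ InvS α := by
    intro y hy x
    have h2 : y x + y (α x) = 0 := congrFun hy x
    revert h2
    generalize y x = a
    generalize y (α x) = b
    revert a b; decide
  have h2 : LinearMap.range φ ≤ InvS α := by
    rintro _ ⟨y, rfl⟩ x
    show y (α x) + y (α (α x)) = y x + y (α x)
    rw [hα, add_comm]
  have h3 := LinearMap.finrank_range_add_finrank_ker φ
  rw [Module.finrank_fintype_fun_eq_card] at h3
  have h4 := Submodule.finrank_mono h1
  have h5 := Submodule.finrank_mono h2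
  omega

/-- sums over invariant sets vanish -/
theorem sum_inv_zero {X : Type} [Fintype X] [DecidableEq X] (α : X → X) (hα : ∀ x, α (α x) = x)
    (hne : ∀ x, α x ≠ x) (p : X → Prop) [DecidablePred p] (hp : ∀ x, p x → p (α x))
    {y : X → ZMod 2} (hy : y ∈ InvS α) : ∑ x, (if p x then y x else 0) = 0 := by
  rw [← Finset.sum_filter]
  apply Finset.sum_involution (fun x _ => α x)
  · intro x _
    rw [mem_InvS.mp hy x]
    generalize y x = a
    revert a; decide
  · intro x _ _
    exact hne x
  · intro x hx
    rw [Finset.mem_filter] at hx ⊢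
    exact ⟨Finset.mem_univ _, hp x hx.2⟩
  · intro x _
    exact hα x

/-- labelings with even sum on every edge -/
def ZS (α : E × Bool × Bool → E × Bool × Bool) :
    Submodule (ZMod 2) (E × Bool × Bool → ZMod 2) where
  carrier := {y | (∀ x, y (α x) = y x) ∧ ∀ e, y (e, false, false) + y (e, false, true) +
    y (e, true, false) + y (e, true, true) = 0}
  add_mem' := by
    rintro a b ⟨ha, ha'⟩ ⟨hb, hb'⟩
    refine ⟨fun x => by rw [Pi.add_apply, Pi.add_apply, ha, hb], fun e => ?_⟩
    have h := congrArg₂ (fun u v => u + v) (ha' e) (hb' e)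
    simp only [add_zero] at h
    rw [← h]
    simp only [Pi.add_apply]
    ring
  zero_mem' := ⟨fun _ => rfl, fun _ => by simp⟩
  smul_mem' := by
    rintro c a ⟨ha, ha'⟩
    refine ⟨fun x => by rw [Pi.smul_apply, Pi.smul_apply, ha], fun e => ?_⟩
    have h := congrArg (fun u => c * u) (ha' e)
    simp only [mul_zero] at h
    rw [← h]
    simp only [Pi.smul_apply, smul_eq_mul]
    ring

theorem sum_flags {A : Type} [AddCommMonoid A] (y : E × Bool × Bool → A) :
    ∑ x, y x = ∑ e, (y (e, false, false) + y (e, false, true) + y (e, true, false) +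
      y (e, true, true)) := by
  rw [Fintype.sum_prod_type]
  apply Finset.sum_congr rfl
  intro e _
  rw [Fintype.sum_prod_type, Fintype.sum_bool, Fintype.sum_bool, Fintype.sum_bool]
  abel

theorem finrank_ZS (α : E × Bool × Bool → E × Bool × Bool) (hα : ∀ x, α (α x) = x)
    (hne : ∀ x, α x ≠ x) (e0 : E) :
    Fintype.card E + 1 ≤ Module.finrank (ZMod 2) (ZS α) := by
  let φ : (E × Bool × Bool → ZMod 2) →ₗ[ZMod 2] ({e // e ≠ e0} → ZMod 2) :=
    { toFun := fun y e => y (e.1, false, false) + y (e.1, false, true) +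
        y (e.1, true, false) + y (e.1, true, true)
      map_add' := by intro a b; funext x; simp only [Pi.add_apply]; ring
      map_smul' := by
        intro c a; funext x; simp only [Pi.smul_apply, smul_eq_mul, RingHom.id_apply]; ring }
  have h1 : InvS α ⊓ LinearMap.ker φ ≤ ZS α := by
    rintro y ⟨hy, hy'⟩
    refine ⟨hy, ?_⟩
    have h2 : ∀ e, e ≠ e0 → y (e, false, false) + y (e, false, true) +
        y (e, true, false) + y (e, true, true) = 0 := fun e he => congrFun hy' ⟨e, he⟩
    have h3 := sum_inv_zero α hα hne (fun _ => True) (fun _ _ => trivial) hy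
    simp only [if_true] at h3
    rw [sum_flags, Finset.sum_eq_single e0 (fun e _ he => h2 e he) (by simp)] at h3
    intro e
    by_cases he : e = e0
    · rw [he]; exact h3
    · exact h2 e he
  have h2 := finrank_split2 φ (InvS α)
  have h3 := finrank_InvS α hα
  have h4 := Submodule.finrank_mono h1
  have h5 := Submodule.finrank_le ((InvS α).map φ)
  rw [Module.finrank_fintype_fun_eq_card] at h5
  have h6 : Fintype.card {e // e ≠ e0} = Fintype.card E - 1 := by
    rw [Fintype.card_subtype_compl]; simp
  have h7 : 0 < Fintype.card E := Fintype.card_pos_iff.mpr ⟨e0⟩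
  have h8 : Fintype.card (E × Bool × Bool) = 4 * Fintype.card E := by
    rw [Fintype.card_prod, Fintype.card_prod, Fintype.card_bool]; ring
  rw [h6] at h5
  rw [h8] at h3
  omega

/-- the two edge functions of a labeling -/
def PhiM (E : Type) : (E × Bool × Bool → ZMod 2) →ₗ[ZMod 2] (E → ZMod 2) × (E → ZMod 2) where
  toFun y := (fun e => y (e, false, false) + y (e, false, true),
    fun e => y (e, false, false) + y (e, true, false))
  map_add' := by
    intro a b
    refine Prod.ext ?_ ?_ <;> · funext e; simp only [Pi.add_apply, Prod.fst_add, Prod.snd_add]; ring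
  map_smul' := by
    intro c a
    refine Prod.ext ?_ ?_ <;>
      · funext e
        simp only [Pi.smul_apply, smul_eq_mul, RingHom.id_apply, Prod.smul_fst, Prod.smul_snd]
        ring

theorem PhiM_fst (y : E × Bool × Bool → ZMod 2) (e : E) :
    (PhiM E y).1 e = y (e, false, false) + y (e, false, true) := rfl
theorem PhiM_snd (y : E × Bool × Bool → ZMod 2) (e : E) :
    (PhiM E y).2 e = y (e, false, false) + y (e, true, false) := rfl

theorem z2a : ∀ a b c d : ZMod 2, a + b + c + d = 0 → a + b = c + d := by decide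
theorem z2b : ∀ a b c d : ZMod 2, a + b + c + d = 0 → a + c = b + d := by decide

theorem PhiM_mem (α : E × Bool × Bool → E × Bool × Bool) (hα : ∀ x, α (α x) = x)
    (hne : ∀ x, α x ≠ x) (hv : ∀ x, vx s t (α x).2.1 (α x).1 = vx s t x.2.1 x.1)
    (hf : ∀ x, vx s' t' (α x).2.2 (α x).1 = vx s' t' x.2.2 x.1)
    {y : E × Bool × Bool → ZMod 2} (hy : y ∈ ZS α) :
    (PhiM E y).1 ∈ cyc s t ∧ (PhiM E y).2 ∈ cyc s' t' := by
  constructor
  · rw [mem_cyc]
    intro v
    have h1 := sum_inv_zero α hα hne (fun x => vx s t x.2.1 x.1 = v)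
      (fun x hx => (hv x).trans hx) hy.1
    rw [sum_flags] at h1
    rw [← h1]
    apply Finset.sum_congr rfl
    intro e _
    simp only [vx_false, vx_true]
    rw [PhiM_fst]
    unfold star
    have h2 := z2a _ _ _ _ (hy.2 e)
    by_cases h3 : s e = v <;> by_cases h4 : t e = v
    · simp only [h3, h4, if_true]
      rw [hy.2 e]
      generalize y (e, false, false) + y (e, false, true) = a
      revert a; decide
    · simp only [h3, h4, if_true, if_false]; ring
    · simp only [h3, h4, if_true, if_false]
      rw [h2]; ring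
    · simp only [h3, h4, if_false]; ring
  · rw [mem_cyc]
    intro v
    have h1 := sum_inv_zero α hα hne (fun x => vx s' t' x.2.2 x.1 = v)
      (fun x hx => (hf x).trans hx) hy.1
    rw [sum_flags] at h1
    rw [← h1]
    apply Finset.sum_congr rfl
    intro e _
    simp only [vx_false, vx_true]
    rw [PhiM_snd]
    unfold star
    have h2 := z2b _ _ _ _ (hy.2 e)
    by_cases h3 : s' e = v <;> by_cases h4 : t' e = v
    · simp only [h3, h4, if_true]
      rw [hy.2 e]
      generalize y (e, false, false) + y (e, true, false) = a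
      revert a; decide
    · simp only [h3, h4, if_true, if_false]; ring
    · simp only [h3, h4, if_true, if_false]
      rw [h2]; ring
    · simp only [h3, h4, if_false]; ring

theorem ker_const (h : DP s t s' t') (α : E × Bool × Bool → E × Bool × Bool)
    (hα : ∀ x, α (α x) = x)
    (hne : ∀ x, α x ≠ x) (hv : ∀ x, vx s t (α x).2.1 (α x).1 = vx s t x.2.1 x.1)
    (hf : ∀ x, vx s' t' (α x).2.2 (α x).1 = vx s' t' x.2.2 x.1)
    {y : E × Bool × Bool → ZMod 2} (hy : y ∈ ZS α) (hy0 : PhiM E y = 0) :
    y ∈ Submodule.span (ZMod 2) {fun _ : E × Bool × Bool => (1 : ZMod 2)} := by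
  obtain ⟨g, hg⟩ : ∃ g : E → ZMod 2, ∀ e i j, y (e, i, j) = g e := by
    refine ⟨fun e => y (e, false, false), ?_⟩
    intro e i j
    have h1 : y (e, false, false) + y (e, false, true) = 0 := by
      rw [← PhiM_fst, hy0]; rfl
    have h2 : y (e, false, false) + y (e, true, false) = 0 := by
      rw [← PhiM_snd, hy0]; rfl
    have h3 := hy.2 e
    revert h1 h2 h3
    have key : ∀ a b c d : ZMod 2, a + b = 0 → a + c = 0 → a + b + c + d = 0 →
        b = a ∧ c = a ∧ d = a := by decide
    intro h1 h2 h3
    obtain ⟨k1, k2, k3⟩ := key _ _ _ _ h1 h2 h3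
    cases i <;> cases j
    · rfl
    · exact k1
    · exact k2
    · exact k3
  set A : Finset E := univ.filter (fun e => g e = 1) with hA
  have memA : ∀ e, e ∈ A ↔ g e = 1 := by intro e; rw [hA]; simp
  have hres : ∀ (z : E → ZMod 2) e, res A z e = g e * z e := by
    intro z e
    unfold res
    split_ifs with h1
    · rw [(memA e).mp h1, one_mul]
    · rw [memA] at h1
      rw [(z2c _).resolve_right h1, zero_mul]
  have hstar : ∀ v, res A (star s t v) = 0 ∨ res A (star s t v) = star s t v := by
    intro v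
    apply h.minimal v
    · rw [← h.h2, mem_cyc]
      intro f
      have h1 := sum_inv_zero α hα hne (fun x => vx s t x.2.1 x.1 = v ∧ vx s' t' x.2.2 x.1 = f)
        (fun x hx => ⟨(hv x).trans hx.1, (hf x).trans hx.2⟩) hy.1
      rw [sum_flags] at h1
      rw [← h1]
      apply Finset.sum_congr rfl
      intro e _
      simp only [vx_false, vx_true, hg, hres]
      unfold star
      by_cases h3 : s e = v <;> by_cases h4 : t e = v <;> by_cases h5 : s' e = f <;>
        by_cases h6 : t' e = f <;>
        simp only [h3, h4, h5, h6, if_true, if_false, and_true, and_false] <;> ring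
    · intro e he
      rw [hres] at he
      exact right_ne_zero_of_mul he
  have hind : ∀ x ∈ cyc s t, res A x ∈ cyc s t := by
    intro x hx
    rw [mem_cyc]
    intro v
    rw [← sum_res_comm]
    rcases hstar v with h1 | h1
    · rw [h1]; simp
    · rw [h1]; exact mem_cyc.mp hx v
  rw [Submodule.mem_span_singleton]
  rcases h.ind A hind with h1 | h1
  · refine ⟨0, ?_⟩
    rw [zero_smul]
    funext x
    obtain ⟨e, i, j⟩ := x
    rw [hg]
    have : e ∉ A := by rw [h1]; exact Finset.notMem_empty e
    rw [memA] at this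
    rw [(z2c _).resolve_right this]; rfl
  · refine ⟨1, ?_⟩
    rw [one_smul]
    funext x
    obtain ⟨e, i, j⟩ := x
    rw [hg]
    have : e ∈ A := by rw [h1]; exact Finset.mem_univ e
    rw [(memA e).mp this]

theorem card_pos' (h : DP s t s' t') : ∃ _e0 : E, True := by
  have := h.card
  have h1 : 0 < Fintype.card E := by omega
  obtain ⟨e0⟩ := Fintype.card_pos_iff.mp h1
  exact ⟨e0, trivial⟩

theorem finrank_ones [Nonempty E] : Module.finrank (ZMod 2)
    (Submodule.span (ZMod 2) {fun _ : E × Bool × Bool => (1 : ZMod 2)}) = 1 := by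
  apply finrank_span_singleton
  intro h
  obtain ⟨e⟩ := (inferInstance : Nonempty E)
  exact one_ne_zero (congrFun h (e, false, false))

/-- pairs as a product -/
def prodE {M N : Type} [AddCommGroup M] [Module (ZMod 2) M] [AddCommGroup N] [Module (ZMod 2) N]
    (p : Submodule (ZMod 2) M) (q : Submodule (ZMod 2) N) : (p.prod q) ≃ₗ[ZMod 2] (p × q) where
  toFun x := (⟨x.1.1, x.2.1⟩, ⟨x.1.2, x.2.2⟩)
  invFun x := ⟨(x.1.1, x.2.1), ⟨x.1.2, x.2.2⟩⟩
  left_inv _ := rfl
  right_inv _ := rfl
  map_add' _ _ := rfl
  map_smul' _ _ := rfl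

theorem PhiM_onto (h : DP s t s' t') (α : E × Bool × Bool → E × Bool × Bool)
    (hα : ∀ x, α (α x) = x)
    (hne : ∀ x, α x ≠ x) (hv : ∀ x, vx s t (α x).2.1 (α x).1 = vx s t x.2.1 x.1)
    (hf : ∀ x, vx s' t' (α x).2.2 (α x).1 = vx s' t' x.2.2 x.1) :
    (ZS α).map (PhiM E) = (cyc s t).prod (cyc s' t') := by
  obtain ⟨e0, -⟩ := card_pos' h
  have : Nonempty E := ⟨e0⟩
  apply Submodule.eq_of_le_of_finrank_le
  · rintro _ ⟨y, hy, rfl⟩
    exact PhiM_mem α hα hne hv hf hy
  · have h1 := finrank_split2 (PhiM E) (ZS α)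
    have h2 : (ZS α ⊓ LinearMap.ker (PhiM E)) ≤
        Submodule.span (ZMod 2) {fun _ : E × Bool × Bool => (1 : ZMod 2)} := by
      rintro y ⟨hy, hy0⟩
      exact ker_const h α hα hne hv hf hy hy0
    have h3 := Submodule.finrank_mono h2
    rw [finrank_ones] at h3
    have h4 := finrank_ZS α hα hne e0
    have h5 := finrank_perp (cyc s t)
    have h6 : perp (cyc s t) = cyc s' t' := by rw [perp_cyc, h.h2]
    rw [h6] at h5
    have h7 : Module.finrank (ZMod 2) ((cyc s t).prod (cyc s' t')) =
        Module.finrank (ZMod 2) (cyc s t) + Module.finrank (ZMod 2) (cyc s' t') := by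
      rw [← Module.finrank_prod]
      exact (prodE (cyc s t) (cyc s' t')).finrank_eq
    omega

/-- labelings with two labels as a submodule -/
def LabS (α : E × Bool × Bool → E × Bool × Bool) (χ : E → Fin 3) :
    Submodule (ZMod 2) (E × Bool × Bool → ZMod 2) where
  carrier := {y | (∀ x, y (α x) = y x) ∧ ∀ x, y (tau χ x) = y x}
  add_mem' := by
    rintro a b ⟨ha, ha'⟩ ⟨hb, hb'⟩
    exact ⟨fun x => by rw [Pi.add_apply, Pi.add_apply, ha, hb],
      fun x => by rw [Pi.add_apply, Pi.add_apply, ha', hb']⟩
  zero_mem' := ⟨fun _ => rfl, fun _ => rfl⟩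
  smul_mem' := by
    rintro c a ⟨ha, ha'⟩
    exact ⟨fun x => by rw [Pi.smul_apply, Pi.smul_apply, ha],
      fun x => by rw [Pi.smul_apply, Pi.smul_apply, ha']⟩

theorem tau0 {χ : E → Fin 3} {e : E} (h : χ e = 0) (i j : Bool) :
    tau χ (e, i, j) = (e, !i, j) := by
  unfold tau; rw [if_pos h]

theorem tau1 {χ : E → Fin 3} {e : E} (h : χ e = 1) (i j : Bool) :
    tau χ (e, i, j) = (e, i, !j) := by
  unfold tau
  rw [if_neg (by rw [h]; decide), if_pos h]

theorem tau2 {χ : E → Fin 3} {e : E} (h : χ e = 2) (i j : Bool) :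
    tau χ (e, i, j) = (e, !i, !j) := by
  unfold tau
  rw [if_neg (by rw [h]; decide), if_neg (by rw [h]; decide)]

theorem fin3 : ∀ a : Fin 3, a = 0 ∨ a = 1 ∨ a = 2 := by decide

theorem LabS_le (α : E × Bool × Bool → E × Bool × Bool) (χ : E → Fin 3) :
    LabS α χ ≤ ZS α := by
  rintro y ⟨hy, hy'⟩
  refine ⟨hy, fun e => ?_⟩
  rcases fin3 (χ e) with h | h | h
  · have h1 := hy' (e, false, false)
    have h2 := hy' (e, false, true)
    rw [tau0 h] at h1 h2
    rw [← h1, ← h2]
    simp only [Bool.not_false]
    generalize y (e, true, false) = a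
    generalize y (e, true, true) = b
    revert a b; decide
  · have h1 := hy' (e, false, false)
    have h2 := hy' (e, true, false)
    rw [tau1 h] at h1 h2
    rw [← h1, ← h2]
    simp only [Bool.not_false]
    generalize y (e, false, true) = a
    generalize y (e, true, true) = b
    revert a b; decide
  · have h1 := hy' (e, false, false)
    have h2 := hy' (e, false, true)
    rw [tau2 h] at h1 h2
    rw [← h1, ← h2]
    simp only [Bool.not_false, Bool.not_true]
    generalize y (e, true, true) = a
    generalize y (e, true, false) = b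
    revert a b; decide

theorem mem_LabS_iff {α : E × Bool × Bool → E × Bool × Bool} {χ : E → Fin 3}
    {y : E × Bool × Bool → ZMod 2} (hy : y ∈ ZS α) :
    y ∈ LabS α χ ↔ ∀ e, (χ e = 0 → (PhiM E y).2 e = 0) ∧ (χ e = 1 → (PhiM E y).1 e = 0) ∧
      (χ e = 2 → (PhiM E y).1 e = (PhiM E y).2 e) := by
  constructor
  · rintro ⟨-, h1⟩ e
    refine ⟨fun h => ?_, fun h => ?_, fun h => ?_⟩
    · have h2 := h1 (e, false, false)
      rw [tau0 h] at h2
      rw [PhiM_snd, ← h2]
      simp only [Bool.not_false]
      generalize y (e, true, false) = a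
      revert a; decide
    · have h2 := h1 (e, false, false)
      rw [tau1 h] at h2
      rw [PhiM_fst, ← h2]
      simp only [Bool.not_false]
      generalize y (e, false, true) = a
      revert a; decide
    · have h2 := h1 (e, true, false)
      rw [tau2 h] at h2
      rw [PhiM_fst, PhiM_snd, ← h2]
      simp only [Bool.not_true, Bool.not_false]
  · intro h1
    refine ⟨hy.1, ?_⟩
    rintro ⟨e, i, j⟩
    have h2 := hy.2 e
    have h3 := h1 e
    rw [PhiM_fst, PhiM_snd] at h3
    rcases fin3 (χ e) with h | h | h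
    · rw [tau0 h]
      have h4 := h3.1 h
      have key : ∀ a b c d : ZMod 2, a + c = 0 → a + b + c + d = 0 → a = c ∧ b = d := by decide
      obtain ⟨k1, k2⟩ := key _ _ _ _ h4 h2
      cases i <;> cases j <;> simp [k1, k2]
    · rw [tau1 h]
      have h4 := h3.2.1 h
      have key : ∀ a b c d : ZMod 2, a + b = 0 → a + b + c + d = 0 → a = b ∧ c = d := by decide
      obtain ⟨k1, k2⟩ := key _ _ _ _ h4 h2
      cases i <;> cases j <;> simp [k1, k2]
    · rw [tau2 h]
      have h4 := h3.2.2 h
      have key : ∀ a b c d : ZMod 2, a + b = a + c → a + b + c + d = 0 → b = c ∧ a = d := by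
        decide
      obtain ⟨k1, k2⟩ := key _ _ _ _ h4 h2
      cases i <;> cases j <;> simp [k1, k2]

theorem finrank_LabS (h : DP s t s' t') (α : E × Bool × Bool → E × Bool × Bool)
    (hα : ∀ x, α (α x) = x)
    (hne : ∀ x, α x ≠ x) (hv : ∀ x, vx s t (α x).2.1 (α x).1 = vx s t x.2.1 x.1)
    (hf : ∀ x, vx s' t' (α x).2.2 (α x).1 = vx s' t' x.2.2 x.1) (χ : E → Fin 3) :
    Module.finrank (ZMod 2) (LabS α χ) =
      1 + Module.finrank (ZMod 2) ↥(LL (cyc s t) χ) := by
  obtain ⟨e0, -⟩ := card_pos' h
  have : Nonempty E := ⟨e0⟩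
  have hperp : perp (cyc s t) = cyc s' t' := by rw [perp_cyc, h.h2]
  have h1 : (LabS α χ).map (PhiM E) = LL (cyc s t) χ := by
    ext p
    constructor
    · rintro ⟨y, hy, rfl⟩
      have h2 := LabS_le α χ hy
      have h3 := PhiM_mem α hα hne hv hf h2
      exact ⟨h3.1, by rw [hperp]; exact h3.2, (mem_LabS_iff h2).mp hy⟩
    · rintro ⟨hp1, hp2, hp3⟩
      rw [hperp] at hp2
      have h2 : p ∈ (ZS α).map (PhiM E) := by
        rw [PhiM_onto h α hα hne hv hf]
        exact ⟨hp1, hp2⟩
      obtain ⟨y, hy, rfl⟩ := h2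
      exact ⟨y, (mem_LabS_iff hy).mpr hp3, rfl⟩
  have h2 : (LabS α χ ⊓ LinearMap.ker (PhiM E)) =
      Submodule.span (ZMod 2) {fun _ : E × Bool × Bool => (1 : ZMod 2)} := by
    apply le_antisymm
    · rintro y ⟨hy, hy0⟩
      exact ker_const h α hα hne hv hf (LabS_le α χ hy) hy0
    · rw [Submodule.span_le, Set.singleton_subset_iff]
      refine ⟨⟨fun _ => rfl, fun _ => rfl⟩, ?_⟩
      show PhiM E _ = 0
      refine Prod.ext ?_ ?_ <;>
        · funext e
          show (1 : ZMod 2) + 1 = 0
          decide
  rw [finrank_split2 (PhiM E) (LabS α χ), h1, h2, finrank_ones, add_comm]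

end DualD

/-- TARGET: the medial structure of a pair of dual graphs with indecomposable cycle space. -/
theorem map_of_pair {E V F : Type} [Fintype E] [DecidableEq E] [Fintype V] [DecidableEq V]
    [Fintype F] [DecidableEq F] (s t : E → V) (s' t' : E → F)
    (C : Submodule (ZMod 2) (E → ZMod 2)) (hC : C = cyc s t) (hC' : C = cut s' t')
    (hind : Indec C) (hE : 2 ≤ Fintype.card E) :
    ∃ α : E × Bool × Bool → E × Bool × Bool, (∀ x, α (α x) = x) ∧ (∀ x, α x ≠ x) ∧
      ∀ (Q : Type) [Fintype Q] (χ : E → Fin 3),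
        Nat.card (Lab α χ Q) = Fintype.card Q ^ (1 + Module.finrank (ZMod 2) ↥(LL C χ)) := by
  subst hC
  have h : DP s t s' t' := by
    refine ⟨hC', ?_, hind, ?_, hE⟩
    · rw [← perp_cut, ← hC', perp_cyc]
    · rw [← perp_cut, ← hC']
      exact indec_perp hind
  obtain ⟨α, hα, hne, hv, hf⟩ := exists_alpha h
  refine ⟨α, hα, hne, ?_⟩
  intro Q _ χ
  obtain ⟨k, hk⟩ := exists_k α (tau χ)
  have h1 : Nat.card (Lab α χ (ZMod 2)) = 2 ^ k := by
    have := hk (ZMod 2)
    rw [ZMod.card] at this
    exact this
  have h2 : Nat.card (Lab α χ (ZMod 2)) = 2 ^ (Module.finrank (ZMod 2) (LabS α χ)) := by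
    have h3 : Nat.card (LabS α χ) = 2 ^ Module.finrank (ZMod 2) (LabS α χ) := by
      rw [Module.natCard_eq_pow_finrank (K := ZMod 2), Nat.card_zmod]
    exact h3
  have h3 : k = 1 + Module.finrank (ZMod 2) ↥(LL (cyc s t) χ) := by
    rw [← finrank_LabS h α hα hne hv hf χ]
    exact Nat.pow_right_injective (le_refl 2) (h1.symm.trans h2)
  rw [← h3]
  exact hk Q

end Pool.Agent.Helper607.Tutte.MapPair
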