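import Pool.Agent.Helper607.Tutte.Defs

/-!
# Chord structures as words
-/

namespace Pool.Agent.Helper607.Tutte.Mullin

open Finset Polynomial

section MullinAux

variable {Q : Type}

/-- lookup in a list, extended by a constant -/
def lk (z : Q) (l : List Q) : ℕ → Q := fun n => l.getD n z

theorem lk_left (z : Q) (A B : List Q) {n : ℕ} (h : n < A.length) :
    lk z (A ++ B) n = A.getD n z := by
  unfold lk; exact List.getD_append _ _ _ _ h

theorem lk_right (z : Q) (A B : List Q) (m : ℕ) :
    lk z (A ++ B) (A.length + m) = B.getD m z := by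
  unfold lk
  rw [List.getD_append_right _ _ _ _ (by omega)]
  congr 1; omega

theorem ins_lk (z : Q) (A B : List Q) (x : Q) :
    ins A.length x (lk z (A ++ B)) = lk z (A ++ x :: x :: B) := by
  funext n
  unfold ins
  by_cases h : n < A.length
  · rw [if_pos h, lk_left _ _ _ h, lk_left _ _ _ h]
  · obtain ⟨m, rfl⟩ := Nat.exists_eq_add_of_le (not_lt.mp h)
    rw [if_neg h, lk_right]
    match m with
    | 0 => rw [if_pos (by omega)]; rfl
    | 1 => rw [if_pos (by omega)]; rfl
    | m + 2 =>
      rw [if_neg (by omega), show A.length + (m + 2) - 2 = A.length + m by omega, lk_right]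
      rfl

theorem del_lk (z : Q) (A B : List Q) (u v : Q) :
    del A.length (lk z (A ++ u :: v :: B)) = lk z (A ++ B) := by
  funext n
  unfold del
  by_cases h : n < A.length
  · rw [if_pos h, lk_left _ _ _ h, lk_left _ _ _ h]
  · obtain ⟨m, rfl⟩ := Nat.exists_eq_add_of_le (not_lt.mp h)
    rw [if_neg h, lk_right, show A.length + m + 2 = A.length + (m + 2) by omega, lk_right]
    rfl

theorem st_lk (z : Q) (A B : List Q) (u v x : Q) :
    st A.length x (lk z (A ++ u :: v :: B)) = lk z (A ++ x :: x :: B) := by
  funext n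
  unfold st
  by_cases h : n < A.length
  · rw [if_neg (by omega), lk_left _ _ _ h, lk_left _ _ _ h]
  · obtain ⟨m, rfl⟩ := Nat.exists_eq_add_of_le (not_lt.mp h)
    match m with
    | 0 => rw [if_pos (by omega), lk_right]; rfl
    | 1 => rw [if_pos (by omega), lk_right]; rfl
    | m + 2 =>
      rw [if_neg (by omega), lk_right, lk_right]
      rfl

theorem lk0 (z : Q) (A B : List Q) (u : Q) : lk z (A ++ u :: B) A.length = u := by
  have := lk_right z A (u :: B) 0
  rw [Nat.add_zero] at this
  rw [this]; rfl

theorem lk1 (z : Q) (A B : List Q) (u v : Q) : lk z (A ++ u :: v :: B) (A.length + 1) = v := by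
  rw [lk_right]; rfl

theorem sw_lk (z : Q) (A B : List Q) (u v : Q) :
    sw A.length (lk z (A ++ u :: v :: B)) = lk z (A ++ v :: u :: B) := by
  funext n
  unfold sw
  by_cases h : n < A.length
  · rw [if_neg (by omega), if_neg (by omega), lk_left _ _ _ h, lk_left _ _ _ h]
  · obtain ⟨m, rfl⟩ := Nat.exists_eq_add_of_le (not_lt.mp h)
    match m with
    | 0 => rw [if_pos (by omega), lk1, lk_right]; rfl
    | 1 => rw [if_neg (by omega), if_pos (by omega), lk0, lk_right]; rfl
    | m + 2 =>
      rw [if_neg (by omega), if_neg (by omega), lk_right, lk_right]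
      rfl

variable [Fintype Q] [DecidableEq Q]

theorem opCup_lk (z : Q) (A B : List Q) (F : (ℕ → Q) → ℤ) :
    opCup A.length F (lk z (A ++ B)) = ∑ x, F (lk z (A ++ x :: x :: B)) := by
  unfold opCup
  exact Finset.sum_congr rfl fun x _ => by rw [ins_lk]

theorem opCap_lk (z : Q) (A B : List Q) (u v : Q) (F : (ℕ → Q) → ℤ) :
    opCap A.length F (lk z (A ++ u :: v :: B)) = if u = v then F (lk z (A ++ B)) else 0 := by
  unfold opCap
  rw [lk0, lk1, del_lk]

theorem opE_lk (z : Q) (A B : List Q) (u v : Q) (F : (ℕ → Q) → ℤ) :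
    opE A.length F (lk z (A ++ u :: v :: B)) =
      if u = v then ∑ x, F (lk z (A ++ x :: x :: B)) else 0 := by
  unfold opE
  rw [lk0, lk1]
  split_ifs
  · exact Finset.sum_congr rfl fun x _ => by rw [st_lk]
  · rfl

theorem ev_closeU (z : Q) (A B : List Q) (u l M : Q) (W : List Lt) (F : (ℕ → Q) → ℤ) :
    ev (Lt.y (A.length + 1) :: Lt.cap A.length :: W) F (lk z (A ++ u :: l :: M :: B)) =
      (if u = l then ev W F (lk z (A ++ M :: B)) else 0) +
        (if l = M then ev W F (lk z (A ++ u :: B)) else 0) := by
  show ev (Lt.cap A.length :: W) F (lk z (A ++ u :: l :: M :: B)) +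
    opE (A.length + 1) (ev (Lt.cap A.length :: W) F) (lk z (A ++ u :: l :: M :: B)) = _
  have e1 : ∀ v w, ev (Lt.cap A.length :: W) F (lk z (A ++ u :: v :: w :: B)) =
      if u = v then ev W F (lk z (A ++ w :: B)) else 0 := fun v w =>
    opCap_lk z A (w :: B) u v (ev W F)
  rw [e1]
  have e2 : A ++ u :: l :: M :: B = (A ++ [u]) ++ l :: M :: B := by simp
  have e3 : A.length + 1 = (A ++ [u]).length := by simp
  rw [e2, e3, opE_lk]
  congr 1
  split_ifs
  · have : ∀ x, ev (Lt.cap A.length :: W) F (lk z (A ++ [u] ++ x :: x :: B)) =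
        if u = x then ev W F (lk z (A ++ u :: B)) else 0 := by
      intro x
      have e4 : A ++ [u] ++ x :: x :: B = A ++ u :: x :: x :: B := by simp
      rw [e4, e1]
      split_ifs with h
      · rw [h]
      · rfl
    rw [Finset.sum_congr rfl fun x _ => this x]
    simp
  · rfl

theorem sv_closeU (z : Q) (A B : List Q) (u l M : Q) (W : List Lt) (F : (ℕ → Q) → ℤ) :
    sv (Lt.y (A.length + 1) :: Lt.cap A.length :: W) F (lk z (A ++ u :: l :: M :: B)) =
      if u = M then sv W F (lk z (A ++ l :: B)) else 0 := by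
  show sv (Lt.cap A.length :: W) F (sw (A.length + 1) (lk z (A ++ u :: l :: M :: B))) = _
  have e2 : A ++ u :: l :: M :: B = (A ++ [u]) ++ l :: M :: B := by simp
  have e3 : A.length + 1 = (A ++ [u]).length := by simp
  rw [e2, e3, sw_lk]
  have e4 : (A ++ [u]) ++ M :: l :: B = A ++ u :: M :: l :: B := by simp
  rw [e4]
  exact opCap_lk z A (l :: B) u M (sv W F)

theorem ev_closeL (z : Q) (A B : List Q) (u l M : Q) (W : List Lt) (F : (ℕ → Q) → ℤ) :
    ev (Lt.y A.length :: Lt.cap (A.length + 1) :: W) F (lk z (A ++ M :: l :: u :: B)) =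
      (if u = l then ev W F (lk z (A ++ M :: B)) else 0) +
        (if l = M then ev W F (lk z (A ++ u :: B)) else 0) := by
  show ev (Lt.cap (A.length + 1) :: W) F (lk z (A ++ M :: l :: u :: B)) +
    opE A.length (ev (Lt.cap (A.length + 1) :: W) F) (lk z (A ++ M :: l :: u :: B)) = _
  have e1 : ∀ v w, ev (Lt.cap (A.length + 1) :: W) F (lk z (A ++ v :: w :: u :: B)) =
      if w = u then ev W F (lk z (A ++ v :: B)) else 0 := by
    intro v w
    have e2 : A ++ v :: w :: u :: B = (A ++ [v]) ++ w :: u :: B := by simp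
    have e3 : A.length + 1 = (A ++ [v]).length := by simp
    have e4 : A ++ v :: B = (A ++ [v]) ++ B := by simp
    rw [e2, e3, e4]
    exact opCap_lk z (A ++ [v]) B w u (ev W F)
  rw [e1, opE_lk]
  congr 1
  · simp only [eq_comm]
  · by_cases h : l = M
    · rw [if_pos h, if_pos h.symm, Finset.sum_congr rfl fun x _ => e1 x x]
      simp
    · rw [if_neg h, if_neg (fun h' => h h'.symm)]

theorem sv_closeL (z : Q) (A B : List Q) (u l M : Q) (W : List Lt) (F : (ℕ → Q) → ℤ) :
    sv (Lt.y A.length :: Lt.cap (A.length + 1) :: W) F (lk z (A ++ M :: l :: u :: B)) =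
      if u = M then sv W F (lk z (A ++ l :: B)) else 0 := by
  show sv (Lt.cap (A.length + 1) :: W) F (sw A.length (lk z (A ++ M :: l :: u :: B))) = _
  rw [sw_lk]
  have e2 : A ++ l :: M :: u :: B = (A ++ [l]) ++ M :: u :: B := by simp
  have e3 : A.length + 1 = (A ++ [l]).length := by simp
  have e4 : A ++ l :: B = (A ++ [l]) ++ B := by simp
  rw [e2, e3, e4]
  have := opCap_lk z (A ++ [l]) B M u (sv W F)
  show opCap (A ++ [l]).length (sv W F) (lk z (A ++ [l] ++ M :: u :: B)) = _
  rw [this]
  by_cases h : u = M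
  · rw [if_pos h, if_pos h.symm]
  · rw [if_neg h, if_neg (fun h' => h h'.symm)]

end MullinAux

section Layout

variable {E : Type} {Q : Type}

def up (a : E → ℕ) (y : ℕ → Q) : List E → List Q
  | [] => []
  | e :: S => up a y S ++ [y (a e), y (a e + 1)]

def lo (a : E → ℕ) (y : ℕ → Q) : List E → List Q
  | [] => []
  | e :: S => y (a e + 1) :: y (a e) :: lo a y S

theorem up_length (a : E → ℕ) (y : ℕ → Q) (S : List E) : (up a y S).length = 2 * S.length := by
  induction S with
  | nil => rfl
  | cons e S ih => simp [up, ih]; ring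

theorem up_congr (a : E → ℕ) (y y' : ℕ → Q) (j : ℕ) (h : ∀ i, i ≤ j → y i = y' i) (S : List E)
    (hS : ∀ e ∈ S, a e < j) : up a y S = up a y' S := by
  induction S with
  | nil => rfl
  | cons e S ih =>
    have h1 := hS e (by simp)
    simp only [up]
    rw [ih (fun e he => hS e (by simp [he])), h (a e) (by omega), h (a e + 1) (by omega)]

theorem lo_congr (a : E → ℕ) (y y' : ℕ → Q) (j : ℕ) (h : ∀ i, i ≤ j → y i = y' i) (S : List E)
    (hS : ∀ e ∈ S, a e < j) : lo a y S = lo a y' S := by
  induction S with
  | nil => rfl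
  | cons e S ih =>
    have h1 := hS e (by simp)
    simp only [lo]
    rw [ih (fun e he => hS e (by simp [he])), h (a e) (by omega), h (a e + 1) (by omega)]

/-- the open chords of one side at time `j`, innermost first -/
def Inv (a b : E → ℕ) (T : E → Bool) (t : Bool) (j : ℕ) (S : List E) : Prop :=
  (∀ e, e ∈ S ↔ T e = t ∧ a e < j ∧ j ≤ b e) ∧ S.Pairwise (fun e e' => a e' < a e)

variable {a b : E → ℕ} {T : E → Bool}

theorem Inv.push {t : Bool} {j : ℕ} {S : List E} (h : Inv a b T t j S) (hab : ∀ e, a e < b e)
    (ha : Function.Injective a) (hne : ∀ e e', a e ≠ b e') {e : E} (he : a e = j) (ht : T e = t) :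
    Inv a b T t (j + 1) (e :: S) := by
  constructor
  · intro e'
    rw [List.mem_cons, h.1]
    constructor
    · rintro (h1 | ⟨h1, h2, h3⟩)
      · subst h1
        have := hab e'
        exact ⟨ht, by omega, by omega⟩
      · have := hne e e'
        exact ⟨h1, by omega, by omega⟩
    · rintro ⟨h1, h2, h3⟩
      by_cases h4 : a e' = j
      · left; exact ha (h4.trans he.symm)
      · right; exact ⟨h1, by omega, by omega⟩
  · rw [List.pairwise_cons]
    refine ⟨?_, h.2⟩
    intro e' he'
    have := ((h.1 e').mp he').2.1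
    omega

theorem Inv.keepOpen {t : Bool} {j : ℕ} {S : List E} (h : Inv a b T t j S)
    (ha : Function.Injective a) (hne : ∀ e e', a e ≠ b e') {e : E} (he : a e = j) (ht : T e ≠ t) :
    Inv a b T t (j + 1) S := by
  refine ⟨?_, h.2⟩
  intro e'
  rw [h.1]
  constructor
  · rintro ⟨h1, h2, h3⟩
    have := hne e e'
    exact ⟨h1, by omega, by omega⟩
  · rintro ⟨h1, h2, h3⟩
    have : a e' ≠ j := by
      intro h4
      have : e' = e := ha (h4.trans he.symm)
      subst this
      exact ht h1
    exact ⟨h1, by omega, by omega⟩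

theorem Inv.keepClose {t : Bool} {j : ℕ} {S : List E} (h : Inv a b T t j S)
    (hb : Function.Injective b) (hne : ∀ e e', a e ≠ b e') {e : E} (he : b e = j) (ht : T e ≠ t) :
    Inv a b T t (j + 1) S := by
  refine ⟨?_, h.2⟩
  intro e'
  rw [h.1]
  constructor
  · rintro ⟨h1, h2, h3⟩
    have : b e' ≠ j := by
      intro h4
      have : e' = e := hb (h4.trans he.symm)
      subst this
      exact ht h1
    exact ⟨h1, by omega, by omega⟩
  · rintro ⟨h1, h2, h3⟩
    have := hne e' e
    exact ⟨h1, by omega, by omega⟩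

theorem Inv.pop {t : Bool} {j : ℕ} {S : List E} (h : Inv a b T t j S) (hab : ∀ e, a e < b e)
    (hb : Function.Injective b) (hne : ∀ e e', a e ≠ b e')
    (hnc : ∀ e e', T e = T e' → ¬ (a e < a e' ∧ a e' < b e ∧ b e < b e'))
    {e : E} (he : b e = j) (ht : T e = t) :
    ∃ S', S = e :: S' ∧ Inv a b T t (j + 1) S' := by
  have hmem : e ∈ S := (h.1 e).mpr ⟨ht, by have := hab e; omega, by omega⟩
  match S, h, hmem with
  | e0 :: S', h, hmem =>
    have h2 := h.2
    rw [List.pairwise_cons] at h2
    have he0 : e0 = e := by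
      by_contra hcon
      have hmem' : e ∈ S' := by
        rcases List.mem_cons.mp hmem with h3 | h3
        · exact absurd h3.symm hcon
        · exact h3
      have h4 := h2.1 e hmem'
      obtain ⟨h5, h6, h7⟩ := (h.1 e0).mp (by simp)
      have h8 : b e0 ≠ b e := fun h9 => hcon (hb h9)
      exact hnc e e0 (ht.trans h5.symm) ⟨h4, by omega, by omega⟩
    subst he0
    refine ⟨S', rfl, ?_, h2.2⟩
    intro e'
    constructor
    · intro h3
      obtain ⟨h5, h6, h7⟩ := (h.1 e').mp (by simp [h3])
      have h4 := h2.1 e' h3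
      have : b e' ≠ j := by
        intro h9
        have : e' = e0 := hb (h9.trans he.symm)
        subst this
        omega
      exact ⟨h5, h6.trans (by omega), by omega⟩
    · rintro ⟨h3, h4, h5⟩
      have h6 := hne e' e0
      have h7 := (h.1 e').mpr ⟨h3, by omega, by omega⟩
      rcases List.mem_cons.mp h7 with h8 | h8
      · subst h8; omega
      · exact h8

end Layout

section Count

variable {E : Type} [Fintype E] {Q : Type} [Fintype Q] [DecidableEq Q]

/-- factor of the visit `j` -/
def cw (a b : E → ℕ) (w : Q → Q → Q → Q → ℤ) (j : ℕ) (y : ℕ → Q) : ℤ :=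
  ∏ e : E, if b e = j then w (y (a e)) (y (a e + 1)) (y (b e)) (y (b e + 1)) else 1

/-- sum over the labels after time `j` -/
def HH (a b : E → ℕ) (w : Q → Q → Q → Q → ℤ) : ℕ → ℕ → (ℕ → Q) → ℤ
  | 0, j, y => if y 0 = y j then 1 else 0
  | k + 1, j, y => ∑ x, cw a b w j (Function.update y (j + 1) x) *
      HH a b w k (j + 1) (Function.update y (j + 1) x)

def wev (p q r s : Q) : ℤ := (if p = q ∧ r = s then 1 else 0) + (if p = s ∧ r = q then 1 else 0)

def wsv (p q r s : Q) : ℤ := if p = r ∧ q = s then 1 else 0

theorem sum_wev (u l M : Q) (G : Q → ℤ) :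
    ∑ x, wev u l M x * G x = (if u = l then G M else 0) + (if l = M then G u else 0) := by
  simp only [wev, add_mul, Finset.sum_add_distrib]
  congr 1
  · by_cases h : u = l <;> simp [h]
  · by_cases h : l = M
    · subst h; simp
    · have h' : ¬ M = l := fun h' => h h'.symm
      simp [h, h']

theorem sum_wsv (u l M : Q) (G : Q → ℤ) :
    ∑ x, wsv u l M x * G x = if u = M then G l else 0 := by
  simp only [wsv]
  by_cases h : u = M <;> simp [h]

theorem cw_open {a b : E → ℕ} (w : Q → Q → Q → Q → ℤ) (hne : ∀ e e', a e ≠ b e') {e : E} {j : ℕ}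
    (he : a e = j) (y : ℕ → Q) : cw a b w j y = 1 := by
  unfold cw
  refine Finset.prod_eq_one fun e' _ => ?_
  rw [if_neg]
  intro h
  exact hne e e' (he.trans h.symm)

theorem cw_close {a b : E → ℕ} (w : Q → Q → Q → Q → ℤ) (hb : Function.Injective b) {e : E} {j : ℕ}
    (he : b e = j) (hab : a e < b e) (y : ℕ → Q) (x : Q) :
    cw a b w j (Function.update y (j + 1) x) = w (y (a e)) (y (a e + 1)) (y j) x := by
  unfold cw
  rw [Finset.prod_eq_single e]
  · rw [if_pos he, he, Function.update_self, Function.update_of_ne (by omega),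
      Function.update_of_ne (by omega), Function.update_of_ne (by omega)]
  · intro e' _ h
    rw [if_neg]
    intro h'
    exact h (hb (h'.trans he.symm))
  · intro h
    exact absurd (Finset.mem_univ e) h

end Count

theorem upd_le {Q : Type} (y : ℕ → Q) (j : ℕ) (x : Q) (i : ℕ) (h : i ≤ j) :
    y i = Function.update y (j + 1) x i := by
  rw [Function.update_of_ne (by omega)]

theorem main_word {E : Type} [Fintype E] {a b : E → ℕ} {T : E → Bool} {n : ℕ}
    (hab : ∀ e, a e < b e)
    (ha : Function.Injective a) (hb : Function.Injective b) (hne : ∀ e e', a e ≠ b e')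
    (hcov : ∀ j, j < n → (∃ e, a e = j) ∨ ∃ e, b e = j) (hbn : ∀ e, b e < n)
    (hnc : ∀ e e', T e = T e' → ¬ (a e < a e' ∧ a e' < b e ∧ b e < b e')) :
    ∀ k j, k + j = n → ∀ Su Sl, Inv a b T true j Su → Inv a b T false j Sl →
    ∃ W, valid (2 + 2 * Su.length + 2 * Sl.length) W ∧
      ∀ (Q : Type) [Fintype Q] [DecidableEq Q] (z : Q) (y : ℕ → Q),
      ev W (fun _ => 1) (lk z ((y 0 :: up a y Su) ++ y j :: lo a y Sl)) = HH a b wev k j y ∧
      sv W (fun _ => 1) (lk z ((y 0 :: up a y Su) ++ y j :: lo a y Sl)) = HH a b wsv k j y := by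
  intro k
  induction k with
  | zero =>
    intro j hj Su Sl hu hl
    have hj' : j = n := by omega
    subst hj'
    have h1 : Su = [] := by
      rw [List.eq_nil_iff_forall_not_mem]
      intro e he
      have := ((hu.1 e).mp he).2.2
      have := hbn e
      omega
    have h2 : Sl = [] := by
      rw [List.eq_nil_iff_forall_not_mem]
      intro e he
      have := ((hl.1 e).mp he).2.2
      have := hbn e
      omega
    subst h1; subst h2
    refine ⟨[Lt.cap 0], ?_, ?_⟩
    · simp [valid]
    · intro Q _ _ z y
      have e1 := opCap_lk z [] [] (y 0) (y j) (fun _ => 1)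
      exact ⟨e1, e1⟩
  | succ k ih =>
    intro j hj Su Sl hu hl
    have hjn : j < n := by omega
    have hSu : ∀ e ∈ Su, a e < j := fun e he => ((hu.1 e).mp he).2.1
    have hSl : ∀ e ∈ Sl, a e < j := fun e he => ((hl.1 e).mp he).2.1
    rcases hcov j hjn with ⟨e, he⟩ | ⟨e, he⟩
    · -- opening
      cases ht : T e with
      | true =>
        obtain ⟨W, hW, hW'⟩ := ih (j + 1) (by omega) (e :: Su) Sl (hu.push hab ha hne he ht)
          (hl.keepOpen ha hne he (by rw [ht]; decide))
        refine ⟨Lt.cup (2 + 2 * Su.length) :: W, ?_, ?_⟩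
        · refine ⟨by omega, ?_⟩
          rw [List.length_cons] at hW
          convert hW using 1
          ring
        · intro Q _ _ z y
          have hlen : 2 + 2 * Su.length = ((y 0 :: up a y Su) ++ [y j]).length := by
            simp [up_length]; omega
          have e1 : (y 0 :: up a y Su) ++ y j :: lo a y Sl =
            ((y 0 :: up a y Su) ++ [y j]) ++ lo a y Sl := by simp
          have e2 : ∀ x, (((y 0 :: up a y Su) ++ [y j]) ++ x :: x :: lo a y Sl) =
            ((Function.update y (j + 1) x) 0 :: up a (Function.update y (j + 1) x) (e :: Su)) ++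
              (Function.update y (j + 1) x) (j + 1) :: lo a (Function.update y (j + 1) x) Sl := by
            intro x
            simp only [up]
            rw [← up_congr a y _ j (upd_le y j x) Su hSu, ← lo_congr a y _ j (upd_le y j x) Sl hSl,
              Function.update_self, he, Function.update_self, ← upd_le y j x j le_rfl,
              ← upd_le y j x 0 (by omega)]
            simp
          constructor
          · show opCup (2 + 2 * Su.length) (ev W _) _ = _
            rw [e1, hlen, opCup_lk]
            show _ = ∑ x, _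
            refine Finset.sum_congr rfl fun x _ => ?_
            rw [e2, (hW' Q z _).1, cw_open _ hne he, one_mul]
          · show opCup (2 + 2 * Su.length) (sv W _) _ = _
            rw [e1, hlen, opCup_lk]
            show _ = ∑ x, _
            refine Finset.sum_congr rfl fun x _ => ?_
            rw [e2, (hW' Q z _).2, cw_open _ hne he, one_mul]
      | false =>
        obtain ⟨W, hW, hW'⟩ := ih (j + 1) (by omega) Su (e :: Sl)
          (hu.keepOpen ha hne he (by rw [ht]; decide)) (hl.push hab ha hne he ht)
        refine ⟨Lt.cup (1 + 2 * Su.length) :: W, ?_, ?_⟩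
        · refine ⟨by omega, ?_⟩
          rw [List.length_cons] at hW
          convert hW using 1
          omega
        · intro Q _ _ z y
          have hlen : 1 + 2 * Su.length = (y 0 :: up a y Su).length := by
            simp [up_length]; omega
          have e2 : ∀ x, ((y 0 :: up a y Su) ++ x :: x :: y j :: lo a y Sl) =
            ((Function.update y (j + 1) x) 0 :: up a (Function.update y (j + 1) x) Su) ++
              (Function.update y (j + 1) x) (j + 1) :: lo a (Function.update y (j + 1) x) (e :: Sl)
              := by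
            intro x
            simp only [lo]
            rw [← up_congr a y _ j (upd_le y j x) Su hSu, ← lo_congr a y _ j (upd_le y j x) Sl hSl,
              he, Function.update_self, ← upd_le y j x j le_rfl,
              ← upd_le y j x 0 (by omega)]
          constructor
          · show opCup (1 + 2 * Su.length) (ev W _) _ = _
            rw [hlen, opCup_lk]
            show _ = ∑ x, _
            refine Finset.sum_congr rfl fun x _ => ?_
            rw [e2, (hW' Q z _).1, cw_open _ hne he, one_mul]
          · show opCup (1 + 2 * Su.length) (sv W _) _ = _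
            rw [hlen, opCup_lk]
            show _ = ∑ x, _
            refine Finset.sum_congr rfl fun x _ => ?_
            rw [e2, (hW' Q z _).2, cw_open _ hne he, one_mul]
    · -- closing
      cases ht : T e with
      | true =>
        obtain ⟨Su', rfl, hu'⟩ := hu.pop hab hb hne hnc he ht
        have hSu' : ∀ e ∈ Su', a e < j := fun e he => hSu e (by simp [he])
        obtain ⟨W, hW, hW'⟩ := ih (j + 1) (by omega) Su' Sl hu'
          (hl.keepClose hb hne he (by rw [ht]; decide))
        refine ⟨Lt.y (1 + 2 * Su'.length + 1) :: Lt.cap (1 + 2 * Su'.length) :: W, ?_, ?_⟩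
        · refine ⟨by rw [List.length_cons]; omega, by rw [List.length_cons]; omega, ?_⟩
          rw [List.length_cons]
          convert hW using 1
          omega
        · intro Q _ _ z y
          have hlen : 1 + 2 * Su'.length = (y 0 :: up a y Su').length := by
            simp [up_length]; omega
          have e1 : (y 0 :: up a y (e :: Su')) ++ y j :: lo a y Sl =
            (y 0 :: up a y Su') ++ y (a e) :: y (a e + 1) :: y j :: lo a y Sl := by simp [up]
          have e2 : ∀ x, ((y 0 :: up a y Su') ++ x :: lo a y Sl) =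
            ((Function.update y (j + 1) x) 0 :: up a (Function.update y (j + 1) x) Su') ++
              (Function.update y (j + 1) x) (j + 1) :: lo a (Function.update y (j + 1) x) Sl := by
            intro x
            rw [← up_congr a y _ j (upd_le y j x) Su' hSu', ← lo_congr a y _ j (upd_le y j x) Sl hSl,
              Function.update_self, ← upd_le y j x 0 (by omega)]
          constructor
          · rw [e1, hlen, ev_closeU, e2, e2, (hW' Q z _).1, (hW' Q z _).1]
            show _ = ∑ x, _
            rw [Finset.sum_congr rfl fun x _ => by rw [cw_close wev hb he (hab e)]]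
            rw [sum_wev (y (a e)) (y (a e + 1)) (y j)
              (fun x => HH a b wev k (j + 1) (Function.update y (j + 1) x))]
          · rw [e1, hlen, sv_closeU, e2, (hW' Q z _).2]
            show _ = ∑ x, _
            rw [Finset.sum_congr rfl fun x _ => by rw [cw_close wsv hb he (hab e)]]
            rw [sum_wsv (y (a e)) (y (a e + 1)) (y j)
              (fun x => HH a b wsv k (j + 1) (Function.update y (j + 1) x))]
      | false =>
        obtain ⟨Sl', rfl, hl'⟩ := hl.pop hab hb hne hnc he ht
        have hSl' : ∀ e ∈ Sl', a e < j := fun e he => hSl e (by simp [he])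
        obtain ⟨W, hW, hW'⟩ := ih (j + 1) (by omega) Su Sl'
          (hu.keepClose hb hne he (by rw [ht]; decide)) hl'
        refine ⟨Lt.y (1 + 2 * Su.length) :: Lt.cap (1 + 2 * Su.length + 1) :: W, ?_, ?_⟩
        · refine ⟨by rw [List.length_cons]; omega, by rw [List.length_cons]; omega, ?_⟩
          rw [List.length_cons]
          convert hW using 1
          omega
        · intro Q _ _ z y
          have hlen : 1 + 2 * Su.length = (y 0 :: up a y Su).length := by
            simp [up_length]; omega
          have e2 : ∀ x, ((y 0 :: up a y Su) ++ x :: lo a y Sl') =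
            ((Function.update y (j + 1) x) 0 :: up a (Function.update y (j + 1) x) Su) ++
              (Function.update y (j + 1) x) (j + 1) :: lo a (Function.update y (j + 1) x) Sl' := by
            intro x
            rw [← up_congr a y _ j (upd_le y j x) Su hSu, ← lo_congr a y _ j (upd_le y j x) Sl' hSl',
              Function.update_self, ← upd_le y j x 0 (by omega)]
          constructor
          · simp only [lo]
            rw [hlen, ev_closeL, e2, e2, (hW' Q z _).1, (hW' Q z _).1]
            show _ = ∑ x, _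
            rw [Finset.sum_congr rfl fun x _ => by rw [cw_close wev hb he (hab e)]]
            rw [sum_wev (y (a e)) (y (a e + 1)) (y j)
              (fun x => HH a b wev k (j + 1) (Function.update y (j + 1) x))]
          · simp only [lo]
            rw [hlen, sv_closeL, e2, (hW' Q z _).2]
            show _ = ∑ x, _
            rw [Finset.sum_congr rfl fun x _ => by rw [cw_close wsv hb he (hab e)]]
            rw [sum_wsv (y (a e)) (y (a e + 1)) (y j)
              (fun x => HH a b wsv k (j + 1) (Function.update y (j + 1) x))]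


section Final

variable {E : Type} [Fintype E] {Q : Type}

/-- extension of a tuple by a constant -/
def ext (z : Q) {m : ℕ} (y : Fin m → Q) : ℕ → Q := fun i => if h : i < m then y ⟨i, h⟩ else z

theorem ext_snoc (z : Q) {m : ℕ} (y : Fin m → Q) (x : Q) :
    ext z (Fin.snoc y x : Fin (m + 1) → Q) = Function.update (ext z y) m x := by
  funext i
  unfold ext
  by_cases h1 : i < m
  · rw [Function.update_of_ne (by omega), dif_pos (by omega), dif_pos h1]
    simp [Fin.snoc, h1]
  · by_cases h2 : i = m
    · subst h2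
      rw [Function.update_self, dif_pos (by omega)]
      simp [Fin.snoc]
    · rw [Function.update_of_ne h2, dif_neg (by omega), dif_neg (by omega)]

variable [Fintype Q] [DecidableEq Q]

theorem sum_snoc {m : ℕ} (f : (Fin (m + 1) → Q) → ℤ) :
    ∑ y, f y = ∑ y : Fin m → Q, ∑ x, f (Fin.snoc y x) := by
  rw [← (Fin.snocEquiv (fun _ => Q)).sum_comp, Fintype.sum_prod_type_right]
  rfl

omit [Fintype Q] [DecidableEq Q] in
theorem cw_congr {a b : E → ℕ} (w : Q → Q → Q → Q → ℤ) (hab : ∀ e, a e < b e) (j : ℕ)
    (y y' : ℕ → Q) (h : ∀ i, i ≤ j + 1 → y i = y' i) : cw a b w j y = cw a b w j y' := by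
  unfold cw
  refine Finset.prod_congr rfl fun e _ => ?_
  split_ifs with h1
  · have := hab e
    rw [h _ (by omega), h (a e + 1) (by omega), h (b e) (by omega), h (b e + 1) (by omega)]
  · rfl

theorem HH_sum {a b : E → ℕ} (w : Q → Q → Q → Q → ℤ) (hab : ∀ e, a e < b e) (z : Q) (n : ℕ) :
    ∀ m, m ≤ n → ∑ y : Fin (m + 1) → Q, (∏ i ∈ Finset.range m, cw a b w i (ext z y)) *
      HH a b w (n - m) m (ext z y) = ∑ y : Fin 1 → Q, HH a b w n 0 (ext z y) := by
  intro m
  induction m with
  | zero => intro _; simp
  | succ m ih =>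
    intro hm
    rw [← ih (by omega), sum_snoc]
    refine Finset.sum_congr rfl fun y _ => ?_
    obtain ⟨k, hk⟩ : ∃ k, n - m = k + 1 := ⟨n - m - 1, by omega⟩
    have hk' : n - (m + 1) = k := by omega
    rw [hk, hk']
    show _ = (∏ i ∈ Finset.range m, cw a b w i (ext z y)) *
      ∑ x, cw a b w m (Function.update (ext z y) (m + 1) x) *
        HH a b w k (m + 1) (Function.update (ext z y) (m + 1) x)
    rw [Finset.mul_sum]
    refine Finset.sum_congr rfl fun x _ => ?_
    rw [ext_snoc, Finset.prod_range_succ, mul_assoc]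
    congr 1
    refine Finset.prod_congr rfl fun i hi => ?_
    rw [Finset.mem_range] at hi
    apply cw_congr w hab
    intro i' hi'
    rw [Function.update_of_ne (by omega)]

omit [Fintype Q] [DecidableEq Q] in
theorem prod_cw {a b : E → ℕ} (w : Q → Q → Q → Q → ℤ) (n : ℕ) (hbn : ∀ e, b e < n) (y : ℕ → Q) :
    ∏ i ∈ Finset.range n, cw a b w i y =
      ∏ e, w (y (a e)) (y (a e + 1)) (y (b e)) (y (b e + 1)) := by
  unfold cw
  rw [Finset.prod_comm]
  refine Finset.prod_congr rfl fun e _ => ?_
  rw [Finset.prod_ite_eq, if_pos (Finset.mem_range.mpr (hbn e))]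

theorem HH_total {a b : E → ℕ} (w : Q → Q → Q → Q → ℤ) (hab : ∀ e, a e < b e) (z : Q) (n : ℕ)
    (hbn : ∀ e, b e < n) :
    ∑ x, HH a b w n 0 (ext z (fun _ : Fin 1 => x)) =
      ∑ y : Fin (n + 1) → Q, (∏ e, w (ext z y (a e)) (ext z y (a e + 1)) (ext z y (b e))
        (ext z y (b e + 1))) * (if ext z y 0 = ext z y n then 1 else 0) := by
  have h := HH_sum w hab z n n le_rfl
  rw [Nat.sub_self] at h
  have h2 : ∑ y : Fin 1 → Q, HH a b w n 0 (ext z y) =
      ∑ x, HH a b w n 0 (ext z (fun _ : Fin 1 => x)) := by
    rw [← (Equiv.funUnique (Fin 1) Q).symm.sum_comp]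
    rfl
  rw [← h2, ← h]
  refine Finset.sum_congr rfl fun y _ => ?_
  rw [prod_cw w n hbn]
  rfl

open Classical in
theorem card_ChLab {n : ℕ} (a b : E → Fin n) (χ : E → Fin 3) :
    (Nat.card (ChLab a b χ Q) : ℤ) = ∑ y : Fin (n + 1) → Q,
      (∏ e, if okc (χ e) (y (a e).castSucc) (y (a e).succ) (y (b e).castSucc) (y (b e).succ)
        then (1 : ℤ) else 0) * (if y 0 = y (Fin.last n) then 1 else 0) := by
  unfold ChLab
  rw [Nat.card_eq_fintype_card, Fintype.card_subtype, Finset.card_filter]
  push_cast
  refine Finset.sum_congr rfl fun y _ => ?_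
  by_cases h1 : y 0 = y (Fin.last n)
  · by_cases h2 : ∀ e, okc (χ e) (y (a e).castSucc) (y (a e).succ) (y (b e).castSucc) (y (b e).succ)
    · rw [if_pos ⟨h1, h2⟩, if_pos h1, mul_one]
      symm
      exact Finset.prod_eq_one fun e _ => if_pos (h2 e)
    · rw [if_neg (fun h => h2 h.2)]
      push Not at h2
      obtain ⟨e, he⟩ := h2
      rw [Finset.prod_eq_zero (Finset.mem_univ e) (if_neg he), zero_mul]
  · rw [if_neg (fun h => h1 h.1), if_neg h1, mul_zero]

theorem ext_val (z : Q) {n : ℕ} (y : Fin (n + 1) → Q) (i : Fin n) :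
    ext z y (i : ℕ) = y i.castSucc ∧ ext z y ((i : ℕ) + 1) = y i.succ := by
  unfold ext
  constructor
  · rw [dif_pos (by omega)]; rfl
  · rw [dif_pos (by omega)]; rfl

theorem ext_zero (z : Q) {n : ℕ} (y : Fin (n + 1) → Q) : ext z y 0 = y 0 := by
  unfold ext
  rw [dif_pos (by omega)]; rfl

theorem ext_last (z : Q) {n : ℕ} (y : Fin (n + 1) → Q) : ext z y n = y (Fin.last n) := by
  unfold ext
  rw [dif_pos (by omega)]; rfl

end Final

/-- TARGET: a chord structure with noncrossing chords on both sides is given by a word. -/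
theorem mullin {E : Type} [Fintype E] [DecidableEq E]
    (a b : E → Fin (2 * Fintype.card E)) (T : E → Bool) (hab : ∀ e, a e < b e)
    (ha : Function.Injective a) (hb : Function.Injective b) (hne : ∀ e e', a e ≠ b e')
    (hnc : ∀ e e', T e = T e' → ¬ (a e < a e' ∧ a e' < b e ∧ b e < b e')) :
    ∃ W : List Lt, valid 0 W ∧ ∀ (Q : Type) [Fintype Q] [DecidableEq Q] (z : Q),
      ev W (fun _ => 1) (fun _ => z) =
        ∑ χ : E → Bool, (Nat.card (ChLab a b (fun e => if χ e then 1 else 0) Q) : ℤ) ∧
      sv W (fun _ => 1) (fun _ => z) = (Nat.card (ChLab a b (fun _ => 2) Q) : ℤ) := by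
  classical
  have hcov : ∀ j, j < 2 * Fintype.card E → (∃ e, ((a e : ℕ)) = j) ∨ ∃ e, ((b e : ℕ)) = j := by
    have hinj : Function.Injective (Sum.elim a b) := by
      rintro (e | e) (e' | e') h
      · exact congrArg _ (ha h)
      · exact absurd h (hne e e')
      · exact absurd h.symm (hne e' e)
      · exact congrArg _ (hb h)
    have hbij : Function.Bijective (Sum.elim a b) := by
      rw [Fintype.bijective_iff_injective_and_card]
      refine ⟨hinj, ?_⟩
      simp
      ring
    intro j hj
    obtain ⟨x, hx⟩ := hbij.2 ⟨j, hj⟩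
    rcases x with e | e
    · left; exact ⟨e, by have := congrArg Fin.val hx; simpa using this⟩
    · right; exact ⟨e, by have := congrArg Fin.val hx; simpa using this⟩
  have hab' : ∀ e, ((a e : ℕ)) < b e := fun e => hab e
  have hbn : ∀ e, ((b e : ℕ)) < 2 * Fintype.card E := fun e => (b e).2
  obtain ⟨W, hW, hW'⟩ := main_word (a := fun e => (a e : ℕ)) (b := fun e => (b e : ℕ)) (T := T)
    (n := 2 * Fintype.card E) hab' (fun e e' h => ha (Fin.ext h)) (fun e e' h => hb (Fin.ext h))
    (fun e e' h => hne e e' (Fin.ext h)) hcov hbn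
    (fun e e' h h' => hnc e e' h h') (2 * Fintype.card E) 0 (by omega) [] []
    ⟨fun e => by simp, by simp⟩ ⟨fun e => by simp, by simp⟩
  refine ⟨Lt.cup 0 :: W, ⟨le_rfl, hW⟩, ?_⟩
  intro Q _ _ z
  have hz : (fun _ : ℕ => z) = lk z ([] ++ ([] : List Q)) := by
    funext n; simp [lk]
  have hlay : ∀ x : Q, ([] : List Q) ++ x :: x :: [] =
      (ext z (fun _ : Fin 1 => x) 0 :: up (fun e => ((a e : ℕ))) (ext z (fun _ : Fin 1 => x)) []) ++
        ext z (fun _ : Fin 1 => x) 0 :: lo (fun e => ((a e : ℕ))) (ext z (fun _ : Fin 1 => x)) [] := by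
    intro x
    rw [ext_zero]
    rfl
  have key : ∀ y : Fin (2 * Fintype.card E + 1) → Q, ∀ w : Q → Q → Q → Q → ℤ,
      (∏ e, w (ext z y (a e : ℕ)) (ext z y ((a e : ℕ) + 1)) (ext z y (b e : ℕ))
        (ext z y ((b e : ℕ) + 1))) * (if ext z y 0 = ext z y (2 * Fintype.card E) then (1 : ℤ) else 0) =
      (∏ e, w (y (a e).castSucc) (y (a e).succ) (y (b e).castSucc) (y (b e).succ)) *
        (if y 0 = y (Fin.last (2 * Fintype.card E)) then (1 : ℤ) else 0) := by
    intro y w
    rw [ext_zero, ext_last]
    congr 1
    refine Finset.prod_congr rfl fun e _ => ?_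
    rw [(ext_val z y (a e)).1, (ext_val z y (a e)).2, (ext_val z y (b e)).1, (ext_val z y (b e)).2]
  constructor
  · show opCup 0 (ev W _) _ = _
    have h1 := opCup_lk z [] [] (ev W (fun _ => 1))
    rw [hz]
    rw [show opCup 0 (ev W fun _ => 1) (lk z ([] ++ [])) =
      ∑ x, ev W (fun _ => 1) (lk z ([] ++ x :: x :: [])) from h1]
    rw [Finset.sum_congr rfl fun x _ => by rw [hlay x, (hW' Q z _).1]]
    rw [HH_total wev hab' z _ hbn]
    rw [Finset.sum_congr rfl fun y _ => key y wev]
    rw [Finset.sum_congr rfl fun χ _ => card_ChLab a b _]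
    rw [Finset.sum_comm]
    refine Finset.sum_congr rfl fun y _ => ?_
    rw [← Finset.sum_mul]
    congr 1
    have h2 : ∀ e, wev (y (a e).castSucc) (y (a e).succ) (y (b e).castSucc) (y (b e).succ) =
        ∑ c : Bool, if okc (if c then 1 else 0) (y (a e).castSucc) (y (a e).succ)
          (y (b e).castSucc) (y (b e).succ) then (1 : ℤ) else 0 := by
      intro e
      rw [Fintype.sum_bool, add_comm]
      simp [wev, okc]
    rw [Finset.prod_congr rfl fun e _ => h2 e, Finset.prod_univ_sum, Fintype.piFinset_univ]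
  · show opCup 0 (sv W _) _ = _
    have h1 := opCup_lk z [] [] (sv W (fun _ => 1))
    rw [hz]
    rw [show opCup 0 (sv W fun _ => 1) (lk z ([] ++ [])) =
      ∑ x, sv W (fun _ => 1) (lk z ([] ++ x :: x :: [])) from h1]
    rw [Finset.sum_congr rfl fun x _ => by rw [hlay x, (hW' Q z _).2]]
    rw [HH_total wsv hab' z _ hbn]
    rw [Finset.sum_congr rfl fun y _ => key y wsv]
    rw [card_ChLab a b _]
    refine Finset.sum_congr rfl fun y _ => ?_
    congr 1
    refine Finset.prod_congr rfl fun e _ => ?_
    simp [wsv, okc]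

end Pool.Agent.Helper607.Tutte.Mullin
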