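import Pool.Agent.Helper607.Tutte.Defs

/-!
# The tour around a spanning tree
-/

namespace Pool.Agent.Helper607.Tutte.Tour

open Finset Polynomial

section Tour

variable {E : Type}

theorem bool_ne : ∀ c d : Bool, c ≠ d → d = !c := by decide

/-- base flip -/
def fl0 (T : E → Bool) (x : E × Bool × Bool) : E × Bool × Bool :=
  if T x.1 = true then (x.1, !x.2.1, x.2.2) else (x.1, x.2.1, !x.2.2)

/-- other flip -/
def fl1 (T : E → Bool) (x : E × Bool × Bool) : E × Bool × Bool :=
  if T x.1 = true then (x.1, x.2.1, !x.2.2) else (x.1, !x.2.1, x.2.2)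

theorem tau_rel (T : E → Bool) (χ : E → Fin 3) (x : E × Bool × Bool) :
    tau (rel T χ) x = if χ x.1 = 0 then fl0 T x else if χ x.1 = 1 then fl1 T x
      else fl0 T (fl1 T x) := by
  obtain ⟨e, i, j⟩ := x
  unfold tau rel fl0 fl1
  generalize hc : χ e = c
  generalize ht : T e = t
  fin_cases c <;> cases t <;> simp [hc, ht]

theorem fl0_fst (T : E → Bool) (x : E × Bool × Bool) : (fl0 T x).1 = x.1 := by
  unfold fl0; split_ifs <;> rfl

theorem fl1_fst (T : E → Bool) (x : E × Bool × Bool) : (fl1 T x).1 = x.1 := by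
  unfold fl1; split_ifs <;> rfl

theorem fl0_fl0 (T : E → Bool) (x : E × Bool × Bool) : fl0 T (fl0 T x) = x := by
  obtain ⟨e, i, j⟩ := x
  unfold fl0
  generalize ht : T e = t
  cases t <;> simp [ht]

theorem fl1_fl1 (T : E → Bool) (x : E × Bool × Bool) : fl1 T (fl1 T x) = x := by
  obtain ⟨e, i, j⟩ := x
  unfold fl1
  generalize ht : T e = t
  cases t <;> simp [ht]

theorem fl0_fl1 (T : E → Bool) (x : E × Bool × Bool) : fl0 T (fl1 T x) = fl1 T (fl0 T x) := by
  obtain ⟨e, i, j⟩ := x
  unfold fl0 fl1
  generalize ht : T e = t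
  cases t <;> simp [ht]

theorem fl0_ne (T : E → Bool) (x : E × Bool × Bool) : fl0 T x ≠ x := by
  obtain ⟨e, i, j⟩ := x
  unfold fl0
  generalize ht : T e = t
  cases t <;> simp [ht]

theorem fl1_ne (T : E → Bool) (x : E × Bool × Bool) : fl1 T x ≠ x := by
  obtain ⟨e, i, j⟩ := x
  unfold fl1
  generalize ht : T e = t
  cases t <;> simp [ht]

theorem fl1_ne_fl0 (T : E → Bool) (x : E × Bool × Bool) : fl1 T x ≠ fl0 T x := by
  obtain ⟨e, i, j⟩ := x
  unfold fl0 fl1
  generalize ht : T e = t
  cases t <;> simp [ht]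

theorem flags (T : E → Bool) (x z : E × Bool × Bool) (h : z.1 = x.1) :
    z = x ∨ z = fl0 T x ∨ z = fl1 T x ∨ z = fl0 T (fl1 T x) := by
  obtain ⟨e, i, j⟩ := x
  obtain ⟨e', i', j'⟩ := z
  simp only at h
  subst h
  unfold fl0 fl1
  generalize ht : T e' = t
  cases t <;> cases i <;> cases j <;> cases i' <;> cases j' <;> simp [ht]

variable [Fintype E] [DecidableEq E]

/-- the tour as a sequence -/
theorem exists_seq_tour [Nonempty E]
    (α : E × Bool × Bool → E × Bool × Bool) (hα : ∀ x, α (α x) = x) (hne : ∀ x, α x ≠ x)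
    (T : E → Bool) (h1 : Nat.card (Lab α (rel T fun _ => 0) Bool) = 2) :
    ∃ inn : ℕ → E × Bool × Bool, (∀ j, inn (j + 1) = α (fl0 T (inn j))) ∧
      inn (2 * Fintype.card E) = inn 0 ∧
      Function.Bijective (fun q : Fin (2 * Fintype.card E) × Bool =>
        if q.2 = true then fl0 T (inn q.1) else inn q.1) := by
  classical
  let t0 : Equiv.Perm (E × Bool × Bool) := ⟨fl0 T, fl0 T, fl0_fl0 T, fl0_fl0 T⟩
  let p : Equiv.Perm (E × Bool × Bool) := ⟨fun x => α (fl0 T x), fun x => fl0 T (α x),
    fun x => by simp only [hα, fl0_fl0], fun x => by simp only [hα, fl0_fl0]⟩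
  have hp : ∀ x, p x = α (fl0 T x) := fun x => rfl
  have hsemi : SemiconjBy t0 p p⁻¹ := by
    ext1 x
    rfl
  have hz : ∀ (r : ℤ) (x : E × Bool × Bool), fl0 T ((p ^ r) x) = (p ^ (-r)) (fl0 T x) := by
    intro r x
    have h := (hsemi.zpow_right r)
    have h' := congrArg (fun f : Equiv.Perm (E × Bool × Bool) => f x) h
    simp only [Equiv.Perm.mul_apply, inv_zpow'] at h'
    exact h'
  have keyD : ∀ (x : E × Bool × Bool) (r : ℤ), fl0 T x ≠ (p ^ r) x := by
    intro x r h
    rcases Int.even_or_odd r with ⟨s, hs⟩ | ⟨s, hs⟩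
    · apply fl0_ne T ((p ^ s) x)
      rw [hz, h, ← Equiv.Perm.mul_apply, ← zpow_add, hs]
      congr 2
      ring
    · apply hne ((p ^ (s + 1)) x)
      have e1 : α ((p ^ (s + 1)) x) = p (fl0 T ((p ^ (s + 1)) x)) := by
        rw [hp, fl0_fl0]
      rw [e1, hz, h, ← Equiv.Perm.mul_apply, ← Equiv.Perm.mul_apply, mul_assoc, ← zpow_add,
        ← zpow_one_add, hs]
      congr 2
      ring
  obtain ⟨e0⟩ := ‹Nonempty E›
  let x0 : E × Bool × Bool := (e0, false, false)
  let n := Function.minimalPeriod p x0
  have hn : 0 < n := Function.minimalPeriod_pos_of_mem_periodicPts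
    (p.injective.mem_periodicPts x0)
  have hper : p^[n] x0 = x0 := Function.iterate_minimalPeriod
  let Θ : Fin n × Bool → E × Bool × Bool := fun q =>
    if q.2 = true then fl0 T (p^[q.1] x0) else p^[q.1] x0
  have hiter : ∀ j : ℕ, p^[j] x0 = (p ^ (j : ℤ)) x0 := by
    intro j
    rw [zpow_natCast, Equiv.Perm.iterate_eq_pow]
  have hmixed : ∀ j k : ℕ, p^[j] x0 ≠ fl0 T (p^[k] x0) := by
    intro j k h
    rw [hiter j, hiter k] at h
    apply keyD ((p ^ (k : ℤ)) x0) ((j : ℤ) - k)
    rw [← h, ← Equiv.Perm.mul_apply, ← zpow_add]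
    congr 2
    ring
  have hinj : ∀ j k : Fin n, p^[j] x0 = p^[k] x0 → j = k := by
    intro j k h
    exact Fin.ext (Function.iterate_injOn_Iio_minimalPeriod j.2 k.2 h)
  have hΘinj : Function.Injective Θ := by
    rintro ⟨j, c⟩ ⟨k, d⟩ h
    cases c <;> cases d
    · simp only [Θ] at h
      rw [if_neg (by simp), if_neg (by simp)] at h
      rw [hinj j k h]
    · simp only [Θ] at h
      rw [if_neg (by simp), if_pos trivial] at h
      exact absurd h (hmixed _ _)
    · simp only [Θ] at h
      rw [if_pos trivial, if_neg (by simp)] at h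
      exact absurd h.symm (hmixed _ _)
    · simp only [Θ] at h
      rw [if_pos trivial, if_pos trivial] at h
      have h' := congrArg (fl0 T) h
      rw [fl0_fl0, fl0_fl0] at h'
      rw [hinj j k h']
  -- surjectivity
  let S : Set (E × Bool × Bool) := {x | ∃ j : ℕ, x = p^[j] x0 ∨ x = fl0 T (p^[j] x0)}
  have hS0 : x0 ∈ S := ⟨0, Or.inl rfl⟩
  have hSfl : ∀ x, x ∈ S → fl0 T x ∈ S := by
    rintro x ⟨j, h | h⟩
    · exact ⟨j, Or.inr (by rw [h])⟩
    · exact ⟨j, Or.inl (by rw [h, fl0_fl0])⟩
  have hsucc : ∀ j : ℕ, p^[j + 1] x0 = α (fl0 T (p^[j] x0)) := by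
    intro j
    rw [Function.iterate_succ_apply']
    rfl
  have hSα : ∀ x, x ∈ S → α x ∈ S := by
    rintro x ⟨j, h | h⟩
    · rcases Nat.eq_zero_or_pos j with hj | hj
      · subst hj
        obtain ⟨k, hk⟩ : ∃ k, n = k + 1 := ⟨n - 1, by omega⟩
        refine ⟨k, Or.inr ?_⟩
        have h2 : x = p^[k + 1] x0 := by rw [h, ← hk, hper]; rfl
        rw [h2, hsucc, hα]
      · obtain ⟨k, rfl⟩ : ∃ k, j = k + 1 := ⟨j - 1, by omega⟩
        exact ⟨k, Or.inr (by rw [h, hsucc, hα])⟩
    · exact ⟨j + 1, Or.inl (by rw [h, hsucc])⟩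
  have hSα' : ∀ x, (α x ∈ S ↔ x ∈ S) := fun x =>
    ⟨fun h => by have := hSα _ h; rwa [hα] at this, hSα x⟩
  have hSfl' : ∀ x, (fl0 T x ∈ S ↔ x ∈ S) := fun x =>
    ⟨fun h => by have := hSfl _ h; rwa [fl0_fl0] at this, hSfl x⟩
  have htau : ∀ x, tau (rel T fun _ => 0) x = fl0 T x := by
    intro x
    rw [tau_rel]
    simp
  have hSuniv : ∀ x, x ∈ S := by
    obtain ⟨u, v, huv, huniv⟩ := Nat.card_eq_two_iff.1 h1
    let c1 : Lab α (rel T fun _ => 0) Bool := ⟨fun _ => true, fun _ => rfl, fun _ => rfl⟩
    let c0 : Lab α (rel T fun _ => 0) Bool := ⟨fun _ => false, fun _ => rfl, fun _ => rfl⟩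
    let cS : Lab α (rel T fun _ => 0) Bool := ⟨fun x => decide (x ∈ S), fun x => by
      simp only [hSα'], fun x => by simp only [htau, hSfl']⟩
    have hmem : ∀ w : Lab α (rel T fun _ => 0) Bool, w = u ∨ w = v := by
      intro w
      have : w ∈ ({u, v} : Set _) := by rw [huniv]; exact Set.mem_univ _
      simpa using this
    have h10 : c1 ≠ c0 := by
      intro h
      have := congrFun (congrArg Subtype.val h) x0
      simp [c1, c0] at this
    have hS1 : cS ≠ c0 := by
      intro h
      have := congrFun (congrArg Subtype.val h) x0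
      simp [cS, c0, hS0] at this
    have hcS : cS = c1 := by
      rcases hmem c1 with h | h <;> rcases hmem c0 with h' | h' <;> rcases hmem cS with h'' | h''
      all_goals first
        | exact h''.trans h.symm
        | exact absurd (h.trans h'.symm) h10
        | exact absurd (h''.trans h'.symm) hS1
    intro x
    have := congrFun (congrArg Subtype.val hcS) x
    simpa [cS, c1] using this
  have hΘsurj : Function.Surjective Θ := by
    intro x
    obtain ⟨j, h⟩ := hSuniv x
    have hmod : p^[j] x0 = p^[j % n] x0 := (Function.iterate_mod_minimalPeriod_eq).symm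
    rcases h with h | h
    · refine ⟨(⟨j % n, Nat.mod_lt _ hn⟩, false), ?_⟩
      simp only [Θ]
      rw [if_neg (by simp), h, hmod]
    · refine ⟨(⟨j % n, Nat.mod_lt _ hn⟩, true), ?_⟩
      simp only [Θ]
      rw [if_pos trivial, h, hmod]
  have hcard : 2 * Fintype.card E = n := by
    have h := Fintype.card_congr (Equiv.ofBijective Θ ⟨hΘinj, hΘsurj⟩)
    simp only [Fintype.card_prod, Fintype.card_fin, Fintype.card_bool] at h
    omega
  refine ⟨fun j => p^[j] x0, hsucc, ?_, ?_⟩
  · rw [hcard]
    exact hper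
  · rw [hcard]
    exact ⟨hΘinj, hΘsurj⟩

end Tour

/-- TARGET: the tour around a spanning tree. -/
theorem tour {E : Type} [Fintype E] [DecidableEq E] [Nonempty E]
    (α : E × Bool × Bool → E × Bool × Bool) (hα : ∀ x, α (α x) = x) (hne : ∀ x, α x ≠ x)
    (T : E → Bool)
    (h1 : Nat.card (Lab α (rel T fun _ => 0) Bool) = 2)
    (h2 : ∀ e, Nat.card (Lab α (rel T fun x => if x = e then 1 else 0) Bool) = 4)
    (h3 : ∀ e e', e ≠ e' → T e = T e' →
      Nat.card (Lab α (rel T fun x => if x = e ∨ x = e' then 1 else 0) Bool) = 8) :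
    ∃ a b : E → Fin (2 * Fintype.card E), (∀ e, a e < b e) ∧ Function.Injective a ∧
      Function.Injective b ∧ (∀ e e', a e ≠ b e') ∧
      (∀ e e', T e = T e' → ¬ (a e < a e' ∧ a e' < b e ∧ b e < b e')) ∧
      ∀ (Q : Type) [Fintype Q] (χ : E → Fin 3),
        Nat.card (Lab α (rel T χ) Q) = Nat.card (ChLab a b χ Q) := by
  classical
  obtain ⟨inn, hinn, hN, hbij⟩ := exists_seq_tour α hα hne T h1
  set N := 2 * Fintype.card E with hNdef
  have hNpos : 0 < N := by
    have := Fintype.card_pos (α := E)
    omega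
  let Θ : Fin N × Bool ≃ E × Bool × Bool := Equiv.ofBijective _ hbij
  have hΘ0 : ∀ j : Fin N, Θ (j, false) = inn j := fun j => by simp [Θ, Equiv.ofBijective_apply]
  have hΘ1 : ∀ j : Fin N, Θ (j, true) = fl0 T (inn j) := fun j => by
    simp [Θ, Equiv.ofBijective_apply]
  have hfl0Θ : ∀ (j : Fin N) (c : Bool), fl0 T (Θ (j, c)) = Θ (j, !c) := by
    intro j c
    cases c
    · rw [hΘ0, Bool.not_false, hΘ1]
    · rw [hΘ1, Bool.not_true, hΘ0, fl0_fl0]
  let pos : E × Bool × Bool → Fin N := fun x => (Θ.symm x).1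
  have hposΘ : ∀ j c, pos (Θ (j, c)) = j := fun j c => by simp [pos]
  have hΘpos : ∀ x, ∃ c, x = Θ (pos x, c) := fun x => ⟨(Θ.symm x).2, by simp [pos]⟩
  have hposfl0 : ∀ x, pos (fl0 T x) = pos x := by
    intro x
    obtain ⟨c, hc⟩ := hΘpos x
    conv_lhs => rw [hc, hfl0Θ, hposΘ]
  have hposfl1 : ∀ x, pos (fl1 T x) ≠ pos x := by
    intro x h
    obtain ⟨c, hc⟩ := hΘpos x
    obtain ⟨d, hd⟩ := hΘpos (fl1 T x)
    rw [h] at hd
    by_cases hcd : c = d
    · subst hcd
      exact fl1_ne T x (hd.trans hc.symm)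
    · have : d = !c := bool_ne c d hcd
      rw [this, ← hfl0Θ, ← hc] at hd
      exact fl1_ne_fl0 T x hd
  let u : E → E × Bool × Bool := fun e => (e, false, false)
  let a : E → Fin N := fun e => min (pos (u e)) (pos (fl1 T (u e)))
  let b : E → Fin N := fun e => max (pos (u e)) (pos (fl1 T (u e)))
  have hab : ∀ e, a e < b e := by
    intro e
    have := hposfl1 (u e)
    exact min_lt_max.2 (Ne.symm this)
  have hposab : ∀ x, pos x = a x.1 ∨ pos x = b x.1 := by
    intro x
    have h4 : pos x = pos (u x.1) ∨ pos x = pos (fl1 T (u x.1)) := by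
      rcases flags T (u x.1) x rfl with h | h | h | h
      · left; conv_lhs => rw [h]
      · left; conv_lhs => rw [h, hposfl0]
      · right; conv_lhs => rw [h]
      · right; conv_lhs => rw [h, hposfl0]
    rcases le_total (pos (u x.1)) (pos (fl1 T (u x.1))) with hle | hle
    · have ea : a x.1 = pos (u x.1) := min_eq_left hle
      have eb : b x.1 = pos (fl1 T (u x.1)) := max_eq_right hle
      rw [ea, eb]
      exact h4
    · have ea : a x.1 = pos (fl1 T (u x.1)) := min_eq_right hle
      have eb : b x.1 = pos (u x.1) := max_eq_left hle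
      rw [ea, eb]
      exact h4.symm
  have hedge_pos : ∀ x c, (Θ (pos x, c)).1 = x.1 := by
    intro x c
    obtain ⟨d, hd⟩ := hΘpos x
    by_cases hcd : c = d
    · rw [hcd, ← hd]
    · have : c = !d := bool_ne d c (Ne.symm hcd)
      rw [this, ← hfl0Θ, ← hd, fl0_fst]
  have hedge_a : ∀ e c, (Θ (a e, c)).1 = e := by
    intro e c
    rcases min_choice (pos (u e)) (pos (fl1 T (u e))) with h | h
    · change (Θ (min (pos (u e)) (pos (fl1 T (u e))), c)).1 = e
      rw [h, hedge_pos]
    · change (Θ (min (pos (u e)) (pos (fl1 T (u e))), c)).1 = e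
      rw [h, hedge_pos, fl1_fst]
  have hedge_b : ∀ e c, (Θ (b e, c)).1 = e := by
    intro e c
    rcases max_choice (pos (u e)) (pos (fl1 T (u e))) with h | h
    · change (Θ (max (pos (u e)) (pos (fl1 T (u e))), c)).1 = e
      rw [h, hedge_pos]
    · change (Θ (max (pos (u e)) (pos (fl1 T (u e))), c)).1 = e
      rw [h, hedge_pos, fl1_fst]
  have hfl1a : ∀ e, ∃ c, fl1 T (Θ (a e, false)) = Θ (b e, c) := by
    intro e
    obtain ⟨c, hc⟩ := hΘpos (fl1 T (Θ (a e, false)))
    refine ⟨c, ?_⟩
    have h4 := hposab (fl1 T (Θ (a e, false)))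
    rw [fl1_fst, hedge_a] at h4
    rcases h4 with h4 | h4
    · exfalso
      apply hposfl1 (Θ (a e, false))
      rw [h4, hposΘ]
    · rw [h4] at hc
      exact hc
  -- values along the tour
  have hval : ∀ {Q : Type} {χ : E → Fin 3} (L : Lab α (rel T χ) Q) (j : ℕ),
      L.1 (fl0 T (inn j)) = L.1 (inn (j + 1)) := by
    intro Q χ L j
    rw [hinn, L.2.1]
  have hstep : ∀ {Q : Type} {χ : E → Fin 3} (L : Lab α (rel T χ) Q) (j : ℕ),
      χ (inn j).1 = 0 → L.1 (inn (j + 1)) = L.1 (inn j) := by
    intro Q χ L j h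
    rw [← hval]
    have := L.2.2 (inn j)
    rw [tau_rel, if_pos h] at this
    exact this
  have harc : ∀ {Q : Type} {χ : E → Fin 3} (L : Lab α (rel T χ) Q) (s t : ℕ), s ≤ t →
      (∀ j, s ≤ j → j < t → χ (inn j).1 = 0) → L.1 (inn t) = L.1 (inn s) := by
    intro Q χ L s t hst
    induction t, hst using Nat.le_induction with
    | base => intro _; rfl
    | succ t hst ih =>
      intro h
      rw [hstep L t (h t hst (Nat.lt_succ_self t))]
      exact ih fun j hj hj' => h j hj (hj'.trans (Nat.lt_succ_self t))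
  have hconst : ∀ {χ : E → Fin 3}, (∀ L : Lab α (rel T χ) Bool, ∀ j ≤ N, L.1 (inn j) = L.1 (inn 0)) →
      Nat.card (Lab α (rel T χ) Bool) ≤ 2 := by
    intro χ h
    have hinj : Function.Injective (fun L : Lab α (rel T χ) Bool => L.1 (inn 0)) := by
      intro L L' hLL
      apply Subtype.ext
      funext x
      have key : ∀ L : Lab α (rel T χ) Bool, L.1 x = L.1 (inn 0) := by
        intro L
        obtain ⟨c, hc⟩ := hΘpos x
        rw [hc]
        cases c
        · rw [hΘ0]
          exact h L _ (pos x).2.le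
        · rw [hΘ1, hval]
          exact h L _ (pos x).2
      rw [key L, key L']
      exact hLL
    have := Nat.card_le_card_of_injective _ hinj
    simpa using this
  have hedge_inn_a : ∀ e, (inn (a e)).1 = e := fun e => by rw [← hΘ0]; exact hedge_a e false
  have hedge_inn_b : ∀ e, (inn (b e)).1 = e := fun e => by rw [← hΘ0]; exact hedge_b e false
  have hjedge : ∀ j : ℕ, ∀ hj : j < N, ∀ e, (inn j).1 = e → j = a e ∨ j = b e := by
    intro j hj e he
    have h4 := hposab (inn j)
    have h5 : pos (inn j) = ⟨j, hj⟩ := by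
      rw [← hΘ0 ⟨j, hj⟩, hposΘ]
    rw [h5, he] at h4
    rcases h4 with h4 | h4
    · left; exact congrArg Fin.val h4
    · right; exact congrArg Fin.val h4
  have hfl1 : ∀ e c, fl1 T (Θ (a e, c)) = Θ (b e, !c) := by
    have base : ∀ e, fl1 T (Θ (a e, false)) = Θ (b e, true) := by
      intro e
      obtain ⟨c, hc⟩ := hfl1a e
      cases c
      · exfalso
        have h4 := h2 e
        have h5 : Nat.card (Lab α (rel T fun x => if x = e then 1 else 0) Bool) ≤ 2 := by
          apply hconst
          intro L j hj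
          have hz : ∀ j : ℕ, j < N → j ≠ a e → j ≠ b e →
              (fun x => if x = e then (1 : Fin 3) else 0) (inn j).1 = 0 := by
            intro j hj h6 h7
            have : (inn j).1 ≠ e := by
              intro h8
              rcases hjedge j hj e h8 with h9 | h9
              · exact h6 h9
              · exact h7 h9
            simp [this]
          have hlt := hab e
          have hlt' : (a e : ℕ) < b e := hlt
          have hbN : (b e : ℕ) < N := (b e).2
          have e1 : L.1 (inn (b e)) = L.1 (inn (a e)) := by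
            have h6 := L.2.2 (Θ (a e, false))
            rw [tau_rel, hedge_a, if_neg (by simp), if_pos (by simp), hc, hΘ0, hΘ0] at h6
            exact h6
          have e2 : L.1 (inn (a e)) = L.1 (inn 0) :=
            harc L 0 (a e) (Nat.zero_le _) fun j _ hj' => hz j (by omega) (by omega) (by omega)
          rcases le_or_gt j (a e) with hja | hja
          · exact harc L 0 j (Nat.zero_le _) fun i _ hi => hz i (by omega) (by omega) (by omega)
          rcases le_or_gt j (b e) with hjb | hjb
          · have e3 : L.1 (inn j) = L.1 (inn (a e + 1)) :=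
              harc L _ _ hja fun i hi hi' => hz i (by omega) (by omega) (by omega)
            have e4 : L.1 (inn (b e)) = L.1 (inn (a e + 1)) :=
              harc L _ _ hlt' fun i hi hi' => hz i (by omega) (by omega) (by omega)
            rw [e3, ← e4, e1, e2]
          · have e3 : L.1 (inn j) = L.1 (inn (b e + 1)) :=
              harc L _ _ hjb fun i hi hi' => hz i (by omega) (by omega) (by omega)
            have e4 : L.1 (inn N) = L.1 (inn (b e + 1)) :=
              harc L _ _ hbN fun i hi hi' => hz i (by omega) (by omega) (by omega)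
            rw [e3, ← e4, hN]
        omega
      · exact hc
    intro e c
    cases c
    · exact base e
    · have : Θ (a e, true) = fl0 T (Θ (a e, false)) := by rw [hfl0Θ]; rfl
      rw [this, ← fl0_fl1, base, hfl0Θ]
  have hcond : ∀ {Q : Type} (χ : E → Fin 3) (L : E × Bool × Bool → Q) (e : E),
      (∀ x : E × Bool × Bool, x.1 = e → L (tau (rel T χ) x) = L x) ↔
        okc (χ e) (L (Θ (a e, false))) (L (Θ (a e, true))) (L (Θ (b e, false)))
          (L (Θ (b e, true))) := by
    intro Q χ L e
    have hfl1b : ∀ c, fl1 T (Θ (b e, c)) = Θ (a e, !c) := by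
      intro c
      have := hfl1 e (!c)
      rw [Bool.not_not] at this
      rw [← this, fl1_fl1]
    have hx : ∀ x : E × Bool × Bool, x.1 = e → x = Θ (a e, false) ∨ x = Θ (a e, true) ∨
        x = Θ (b e, false) ∨ x = Θ (b e, true) := by
      intro x hx
      obtain ⟨c, hc⟩ := hΘpos x
      have h4 := hposab x
      rw [hx] at h4
      rcases h4 with h4 | h4 <;> rw [h4] at hc <;> cases c <;> simp [hc]
    unfold okc
    generalize hχ : χ e = o
    fin_cases o
    · simp only [Fin.zero_eta, if_true]
      have ht : ∀ x : E × Bool × Bool, x.1 = e → tau (rel T χ) x = fl0 T x := by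
        intro x hx
        rw [tau_rel, hx, hχ]
        simp
      constructor
      · intro h
        have h4 := h _ (hedge_a e false)
        have h5 := h _ (hedge_b e false)
        rw [ht _ (hedge_a e false), hfl0Θ] at h4
        rw [ht _ (hedge_b e false), hfl0Θ] at h5
        exact ⟨h4.symm, h5.symm⟩
      · rintro ⟨h4, h5⟩ x hxe
        rw [ht x hxe]
        rcases hx x hxe with rfl | rfl | rfl | rfl <;> rw [hfl0Θ]
        · exact h4.symm
        · exact h4
        · exact h5.symm
        · exact h5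
    · simp only [Fin.mk_one, Fin.isValue, one_ne_zero, if_false, if_true]
      have ht : ∀ x : E × Bool × Bool, x.1 = e → tau (rel T χ) x = fl1 T x := by
        intro x hx
        rw [tau_rel, hx, hχ]
        simp
      constructor
      · intro h
        have h4 := h _ (hedge_a e false)
        have h5 := h _ (hedge_a e true)
        rw [ht _ (hedge_a e false), hfl1] at h4
        rw [ht _ (hedge_a e true), hfl1] at h5
        exact ⟨h4.symm, h5⟩
      · rintro ⟨h4, h5⟩ x hxe
        rw [ht x hxe]
        rcases hx x hxe with rfl | rfl | rfl | rfl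
        · rw [hfl1]; exact h4.symm
        · rw [hfl1]; exact h5
        · rw [hfl1b]; exact h5.symm
        · rw [hfl1b]; exact h4
    · have ht : ∀ x : E × Bool × Bool, x.1 = e → tau (rel T χ) x = fl0 T (fl1 T x) := by
        intro x hx
        rw [tau_rel, hx, hχ]
        simp
      have e0 : ((⟨2, by omega⟩ : Fin 3) = 0) = False := by simp
      have e1 : ((⟨2, by omega⟩ : Fin 3) = 1) = False := by simp
      simp only [e0, e1, if_false]
      constructor
      · intro h
        have h4 := h _ (hedge_a e false)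
        have h5 := h _ (hedge_a e true)
        rw [ht _ (hedge_a e false), hfl1, hfl0Θ] at h4
        rw [ht _ (hedge_a e true), hfl1, hfl0Θ] at h5
        exact ⟨h4.symm, h5.symm⟩
      · rintro ⟨h4, h5⟩ x hxe
        rw [ht x hxe]
        rcases hx x hxe with rfl | rfl | rfl | rfl
        · rw [hfl1, hfl0Θ]; exact h4.symm
        · rw [hfl1, hfl0Θ]; exact h5.symm
        · rw [hfl1b, hfl0Θ]; exact h4
        · rw [hfl1b, hfl0Θ]; exact h5
  refine ⟨a, b, hab, ?_, ?_, ?_, ?_, ?_⟩
  · intro e e' h
    rw [← hedge_inn_a e, ← hedge_inn_a e', h]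
  · intro e e' h
    rw [← hedge_inn_b e, ← hedge_inn_b e', h]
  · intro e e' h
    have h4 : e = e' := by rw [← hedge_inn_a e, ← hedge_inn_b e', h]
    subst h4
    exact absurd h (hab e).ne
  · rintro e e' hT ⟨h4, h5, h6⟩
    have hee : e ≠ e' := by
      rintro rfl
      exact lt_irrefl _ h4
    have h7 := h3 e e' hee hT
    have h4' : (a e : ℕ) < a e' := h4
    have h5' : (a e' : ℕ) < b e := h5
    have h6' : (b e : ℕ) < b e' := h6
    have hbN : (b e' : ℕ) < N := (b e').2
    have h8 : Nat.card (Lab α (rel T fun x => if x = e ∨ x = e' then 1 else 0) Bool) ≤ 2 := by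
      apply hconst
      intro L j hj
      have hz : ∀ j : ℕ, j < N → j ≠ a e → j ≠ b e → j ≠ a e' → j ≠ b e' →
          (fun x => if x = e ∨ x = e' then (1 : Fin 3) else 0) (inn j).1 = 0 := by
        intro j hj g1 g2 g3 g4
        have g5 : (inn j).1 ≠ e := by
          intro h8
          rcases hjedge j hj e h8 with h9 | h9
          · exact g1 h9
          · exact g2 h9
        have g6 : (inn j).1 ≠ e' := by
          intro h8
          rcases hjedge j hj e' h8 with h9 | h9
          · exact g3 h9
          · exact g4 h9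
        simp [g5, g6]
      have hcomm : ∀ f, (f = e ∨ f = e') → L.1 (inn (b f + 1)) = L.1 (inn (a f)) ∧
          L.1 (inn (b f)) = L.1 (inn (a f + 1)) := by
        intro f hf
        have g1 := L.2.2 (Θ (a f, false))
        have g2 := L.2.2 (Θ (a f, true))
        rw [tau_rel, hedge_a, if_neg (by simp [hf]), if_pos (by simp [hf]), hfl1, Bool.not_false,
          hΘ0, hΘ1, hval] at g1
        rw [tau_rel, hedge_a, if_neg (by simp [hf]), if_pos (by simp [hf]), hfl1, Bool.not_true,
          hΘ0, hΘ1, hval] at g2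
        exact ⟨g1, g2⟩
      obtain ⟨c1, c2⟩ := hcomm e (Or.inl rfl)
      obtain ⟨c3, c4⟩ := hcomm e' (Or.inr rfl)
      have A0 : L.1 (inn (a e)) = L.1 (inn 0) :=
        harc L 0 _ (Nat.zero_le _) fun i _ hi => hz i (by omega) (by omega) (by omega) (by omega) (by omega)
      have A1 : L.1 (inn (a e')) = L.1 (inn (a e + 1)) :=
        harc L _ _ h4' fun i hi hi' => hz i (by omega) (by omega) (by omega) (by omega) (by omega)
      have A2 : L.1 (inn (b e)) = L.1 (inn (a e' + 1)) :=
        harc L _ _ h5' fun i hi hi' => hz i (by omega) (by omega) (by omega) (by omega) (by omega)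
      have A3 : L.1 (inn (b e')) = L.1 (inn (b e + 1)) :=
        harc L _ _ h6' fun i hi hi' => hz i (by omega) (by omega) (by omega) (by omega) (by omega)
      have A4 : L.1 (inn N) = L.1 (inn (b e' + 1)) :=
        harc L _ _ hbN fun i hi hi' => hz i (by omega) (by omega) (by omega) (by omega) (by omega)
      rw [hN] at A4
      rcases le_or_gt j (a e) with hja | hja
      · exact harc L 0 j (Nat.zero_le _) fun i _ hi => hz i (by omega) (by omega) (by omega) (by omega) (by omega)
      rcases le_or_gt j (a e') with hja' | hja'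
      · have B : L.1 (inn j) = L.1 (inn (a e + 1)) :=
          harc L _ _ hja fun i hi hi' => hz i (by omega) (by omega) (by omega) (by omega) (by omega)
        rw [B, ← A1, ← c3, ← A4]
      rcases le_or_gt j (b e) with hjb | hjb
      · have B : L.1 (inn j) = L.1 (inn (a e' + 1)) :=
          harc L _ _ hja' fun i hi hi' => hz i (by omega) (by omega) (by omega) (by omega) (by omega)
        rw [B, ← c4, A3, c1, A0]
      rcases le_or_gt j (b e') with hjb' | hjb'
      · have B : L.1 (inn j) = L.1 (inn (b e + 1)) :=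
          harc L _ _ hjb fun i hi hi' => hz i (by omega) (by omega) (by omega) (by omega) (by omega)
        rw [B, c1, A0]
      · have B : L.1 (inn j) = L.1 (inn (b e' + 1)) :=
          harc L _ _ hjb' fun i hi hi' => hz i (by omega) (by omega) (by omega) (by omega) (by omega)
        rw [B, ← A4]
    omega
  · intro Q _ χ
    let fwd : Lab α (rel T χ) Q → ChLab a b χ Q := fun L => ⟨fun k => L.1 (inn k), by
      refine ⟨?_, fun e => ?_⟩
      · simp only [Fin.val_zero, Fin.val_last]
        rw [hN]
      · have h4 := (hcond χ L.1 e).1 fun x _ => L.2.2 x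
        rw [hΘ0, hΘ1, hΘ0, hΘ1, hval, hval] at h4
        exact h4⟩
    refine Nat.card_congr (Equiv.ofBijective fwd ⟨?_, ?_⟩)
    · intro L L' h
      apply Subtype.ext
      funext x
      have h4 : ∀ k : ℕ, k ≤ N → L.1 (inn k) = L'.1 (inn k) := by
        intro k hk
        exact congrFun (congrArg Subtype.val h) ⟨k, Nat.lt_succ_of_le hk⟩
      obtain ⟨c, hc⟩ := hΘpos x
      rw [hc]
      cases c
      · rw [hΘ0]
        exact h4 _ (pos x).2.le
      · rw [hΘ1, hval, hval]
        exact h4 _ (pos x).2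
    · rintro ⟨y, hy0, hy⟩
      let L : E × Bool × Bool → Q := fun x =>
        if (Θ.symm x).2 = true then y (Θ.symm x).1.succ else y (Θ.symm x).1.castSucc
      have hL0 : ∀ j : Fin N, L (Θ (j, false)) = y j.castSucc := fun j => by simp [L]
      have hL1 : ∀ j : Fin N, L (Θ (j, true)) = y j.succ := fun j => by simp [L]
      have hLinn : ∀ (j : ℕ) (hj : j ≤ N), L (inn j) = y ⟨j, Nat.lt_succ_of_le hj⟩ := by
        intro j hj
        rcases hj.eq_or_lt with h | h
        · subst h
          rw [hN]
          have h4 := hL0 ⟨0, hNpos⟩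
          rw [hΘ0] at h4
          exact h4.trans hy0
        · have h4 := hL0 ⟨j, h⟩
          rw [hΘ0] at h4
          exact h4
      have hα1 : ∀ j : Fin N, L (α (Θ (j, true))) = L (Θ (j, true)) := by
        intro j
        rw [hΘ1, ← hinn, hLinn _ j.2, ← hΘ1, hL1]
        rfl
      refine ⟨⟨L, ?_, ?_⟩, ?_⟩
      · intro x
        obtain ⟨c, hc⟩ := hΘpos x
        rw [hc]
        cases c
        · -- x = inn j, its image under α is an out flag
          have h4 : ∃ k : Fin N, α (Θ (pos x, false)) = Θ (k, true) := by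
            rcases Nat.eq_zero_or_pos (pos x : ℕ) with hj | hj
            · refine ⟨⟨N - 1, by omega⟩, ?_⟩
              have h5 := hinn (N - 1)
              rw [Nat.sub_add_cancel hNpos, hN] at h5
              rw [hΘ0, hΘ1, hj, h5, hα]
            · refine ⟨⟨(pos x : ℕ) - 1, by omega⟩, ?_⟩
              have h5 := hinn ((pos x : ℕ) - 1)
              rw [Nat.sub_add_cancel hj] at h5
              rw [hΘ0, hΘ1, h5, hα]
          obtain ⟨k, hk⟩ := h4
          have h5 := hα1 k
          rw [← hk, hα] at h5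
          exact h5.symm
        · exact hα1 _
      · intro x
        refine (hcond χ L x.1).2 ?_ x rfl
        rw [hL0, hL1, hL0, hL1]
        exact hy x.1
      · apply Subtype.ext
        funext k
        exact hLinn k (Nat.lt_succ_iff.1 k.2)

end Pool.Agent.Helper607.Tutte.Tour
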