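import Pool.Agent.Helper607.Tutte.Plat
import Pool.Agent.Helper607.Tutte.General
import Pool.Agent.Helper607.Tutte.Tour
import Pool.Agent.Helper607.Tutte.Mullin
import Pool.Agent.Helper607.Tutte.MapPair
import Pool.Agent.Helper607.Tutte.Decomp
import Pool.Agent.Helper607.Tutte.Frozen

/-!
# The final assembly
-/

set_option linter.unusedSectionVars false

namespace Pool.Agent.Helper607.Tutte

open Finset Polynomial

/-! ### powers of the ideal `(2, X)` -/

lemma mem_pow_imp (n : ℕ) (p : ℤ[X]) (hp : p ∈ (Ideal.span {C 2, X} : Ideal ℤ[X]) ^ n) :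
    ∀ i, (2 : ℤ) ^ (n - i) ∣ p.coeff i := by
  induction n generalizing p with
  | zero => intro i; simp
  | succ n ih =>
    rw [pow_succ'] at hp
    refine Submodule.mul_induction_on hp ?_ ?_
    · intro a ha b hb i
      obtain ⟨u, v, rfl⟩ := Ideal.mem_span_pair.1 ha
      have hub : ∀ i, (2 : ℤ) ^ (n - i) ∣ (u * b).coeff i := ih _ (Ideal.mul_mem_left _ _ hb)
      have hvb : ∀ i, (2 : ℤ) ^ (n - i) ∣ (v * b).coeff i := ih _ (Ideal.mul_mem_left _ _ hb)
      have e : (u * C 2 + v * X) * b = C 2 * (u * b) + X * (v * b) := by ring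
      rw [e, coeff_add, coeff_C_mul]
      refine dvd_add ?_ ?_
      · have h1 : (2 : ℤ) ^ (n + 1 - i) ∣ 2 ^ (n - i + 1) := pow_dvd_pow _ (by omega)
        refine h1.trans ?_
        rw [pow_succ']
        exact mul_dvd_mul_left _ (hub i)
      · cases i with
        | zero => simp
        | succ i =>
          rw [coeff_X_mul]
          have : n + 1 - (i + 1) = n - i := by omega
          rw [this]
          exact hvb i
    · intro a b ha hb i
      rw [coeff_add]
      exact dvd_add (ha i) (hb i)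

lemma mem_pow_of (n : ℕ) (p : ℤ[X]) (h : ∀ i, (2 : ℤ) ^ (n - i) ∣ p.coeff i) :
    p ∈ (Ideal.span {C 2, X} : Ideal ℤ[X]) ^ n := by
  rw [p.as_sum_support_C_mul_X_pow]
  refine Ideal.sum_mem _ fun i _ => ?_
  obtain ⟨z, hz⟩ := h i
  have h1 : C (p.coeff i) * X ^ i = C z * ((C 2) ^ (n - i) * X ^ i) := by
    rw [hz, C_mul, C_pow]; ring
  rw [h1]
  refine Ideal.mul_mem_left _ _ ?_
  have h2 : (C 2 : ℤ[X]) ^ (n - i) * X ^ i ∈ (Ideal.span {C 2, X} : Ideal ℤ[X]) ^ (n - i + i) := by
    rw [pow_add]
    exact Ideal.mul_mem_mul (Ideal.pow_mem_pow memI_two _) (Ideal.pow_mem_pow memI_X _)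
  exact Ideal.pow_le_pow_right (by omega) h2

lemma cancel_X (n : ℕ) (p : ℤ[X]) (h : X * p ∈ (Ideal.span {C 2, X} : Ideal ℤ[X]) ^ (n + 1)) :
    p ∈ (Ideal.span {C 2, X} : Ideal ℤ[X]) ^ n := by
  refine mem_pow_of n p fun i => ?_
  have := mem_pow_imp _ _ h (i + 1)
  rw [coeff_X_mul] at this
  have e : n + 1 - (i + 1) = n - i := by omega
  rw [e] at this
  exact this

lemma poly_eq_of (p r : ℤ[X]) (h : ∀ q : ℕ, p.eval ((q : ℤ) + 1) = r.eval ((q : ℤ) + 1)) : p = r := by
  refine Polynomial.eq_of_infinite_eval_eq p r ?_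
  refine Set.Infinite.mono (s := Set.range fun q : ℕ => (q : ℤ) + 1) ?_ ?_
  · rintro _ ⟨q, rfl⟩
    exact h q
  · refine Set.infinite_range_of_injective ?_
    intro a b hab
    have : (a : ℤ) + 1 = b + 1 := hab
    omega

/-! ### dimensions -/

section Dims

variable {E : Type} [Fintype E] [DecidableEq E]

lemma finrank_suppE (A : Finset E) : Module.finrank (ZMod 2) (supp A) = A.card := by
  have e : supp A ≃ₗ[ZMod 2] (A → ZMod 2) :=
    { toFun := fun x e => x.1 e
      map_add' := fun _ _ => rfl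
      map_smul' := fun _ _ => rfl
      invFun := fun y => ⟨fun e => if h : e ∈ A then y ⟨e, h⟩ else 0, fun e he => by simp [he]⟩
      left_inv := by
        intro x
        apply Subtype.ext
        funext e
        by_cases h : e ∈ A
        · simp [h]
        · simp only [h, dite_false]; exact (x.2 e h).symm
      right_inv := by
        intro y
        funext e
        simp }
  rw [e.finrank_eq, Module.finrank_fintype_fun_eq_card, Fintype.card_coe]

lemma perp_sup (C D : Submodule (ZMod 2) (E → ZMod 2)) : perp (C ⊔ D) = perp C ⊓ perp D := by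
  ext x
  constructor
  · intro h
    exact ⟨fun c hc => h c (Submodule.mem_sup_left hc), fun c hc => h c (Submodule.mem_sup_right hc)⟩
  · rintro ⟨h1, h2⟩ c hc
    obtain ⟨a, ha, b, hb, rfl⟩ := Submodule.mem_sup.1 hc
    simp only [Pi.add_apply, mul_add, Finset.sum_add_distrib]
    rw [h1 a ha, h2 b hb, add_zero]

lemma perp_supp (A : Finset E) : perp (supp A) = supp Aᶜ := by
  ext x
  constructor
  · intro h e he
    have he' : e ∈ A := by simpa using he
    have := h (Pi.single e 1) (by
      intro f hf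
      have : f ≠ e := fun h => hf (h ▸ he')
      exact Pi.single_eq_of_ne this 1)
    rw [Finset.sum_eq_single e] at this
    · simpa using this
    · intro b _ hb; rw [Pi.single_eq_of_ne hb, mul_zero]
    · simp
  · intro h c hc
    refine Finset.sum_eq_zero fun e _ => ?_
    by_cases he : e ∈ A
    · rw [h e (by simpa using he), zero_mul]
    · rw [hc e he, mul_zero]

/-- duality of dimensions -/
lemma dim_dual (C : Submodule (ZMod 2) (E → ZMod 2)) (A : Finset E) :
    Module.finrank (ZMod 2) ↥(C ⊓ supp A) + Fintype.card E =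
      Module.finrank (ZMod 2) ↥(perp C ⊓ supp Aᶜ) + Module.finrank (ZMod 2) ↥C + A.card := by
  have h1 : C ⊓ supp A = perp (perp C ⊔ supp Aᶜ) := by
    rw [perp_sup, MapPair.perp_perp, perp_supp, compl_compl]
  have h2 := MapPair.finrank_perp (perp C ⊔ supp Aᶜ)
  have h3 := Submodule.finrank_sup_add_finrank_inf_eq (perp C) (supp Aᶜ)
  have h4 := MapPair.finrank_perp C
  have h5 := finrank_suppE (Aᶜ)
  have h6 : Aᶜ.card + A.card = Fintype.card E := by
    rw [Finset.card_compl]
    have := Finset.card_le_univ A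
    omega
  rw [h1]
  omega

/-- a basis of the code complementary to a basis of the dual code -/
lemma exists_basis (C : Submodule (ZMod 2) (E → ZMod 2)) :
    ∃ T : Finset E, C ⊓ supp T = ⊥ ∧ perp C ⊓ supp Tᶜ = ⊥ := by
  classical
  obtain ⟨T, hT, hmax⟩ := Finset.exists_max_image
    (univ.filter fun T : Finset E => C ⊓ supp T = ⊥) Finset.card ⟨∅, by
      rw [Finset.mem_filter]
      refine ⟨Finset.mem_univ _, ?_⟩
      rw [eq_bot_iff]
      rintro x ⟨_, hx⟩
      rw [Submodule.mem_bot]
      funext e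
      exact hx e (by simp)⟩
  rw [Finset.mem_filter] at hT
  refine ⟨T, hT.2, ?_⟩
  rw [eq_bot_iff]
  rintro b ⟨hb1, hb2⟩
  rw [Submodule.mem_bot]
  funext e
  by_cases he : e ∈ T
  · exact hb2 e (by simpa using he)
  · -- there is a word in `C` supported on `T ∪ {e}`
    have h1 : C ⊓ supp (insert e T) ≠ ⊥ := by
      intro h
      have := hmax (insert e T) (by rw [Finset.mem_filter]; exact ⟨Finset.mem_univ _, h⟩)
      rw [Finset.card_insert_of_notMem he] at this
      omega
    obtain ⟨x, hx, hx0⟩ := Submodule.exists_mem_ne_zero_of_ne_bot h1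
    have hxe : x e ≠ 0 := by
      intro h0
      apply hx0
      have : x ∈ C ⊓ supp T := by
        refine ⟨hx.1, fun f hf => ?_⟩
        by_cases hfe : f = e
        · rw [hfe, h0]
        · exact hx.2 f (by rw [Finset.mem_insert]; tauto)
      rw [hT.2, Submodule.mem_bot] at this
      exact this
    have h2 := hb1 x hx.1
    rw [Finset.sum_eq_single e] at h2
    · rcases mul_eq_zero.1 h2 with h | h
      · exact h
      · exact absurd h hxe
    · intro f _ hf
      by_cases hfT : f ∈ T
      · rw [hb2 f (by simpa using hfT), zero_mul]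
      · rw [hx.2 f (by rw [Finset.mem_insert]; tauto), mul_zero]
    · simp

/-- dimension of `LL` for transitions `0`, `1` -/
lemma LL_dim01 (C : Submodule (ZMod 2) (E → ZMod 2)) (χ : E → Fin 3) (A : Finset E)
    (h0 : ∀ e ∈ A, χ e = 0) (h1 : ∀ e ∉ A, χ e = 1) :
    Module.finrank (ZMod 2) ↥(LL C χ) = Module.finrank (ZMod 2) ↥(C ⊓ supp A) +
      Module.finrank (ZMod 2) ↥(perp C ⊓ supp Aᶜ) := by
  let e : ↥(LL C χ) ≃ₗ[ZMod 2] ↥(C ⊓ supp A) × ↥(perp C ⊓ supp Aᶜ) :=
    { toFun := fun p => (⟨p.1.1, p.2.1, fun e he => (p.2.2.2 e).2.1 (h1 e he)⟩,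
        ⟨p.1.2, p.2.2.1, fun e he => (p.2.2.2 e).1 (h0 e (by simpa using he))⟩)
      map_add' := fun _ _ => rfl
      map_smul' := fun _ _ => rfl
      invFun := fun p => ⟨(p.1.1, p.2.1), p.1.2.1, p.2.2.1, fun e => by
        by_cases he : e ∈ A
        · refine ⟨fun _ => p.2.2.2 e (by simpa using he), fun h => ?_, fun h => ?_⟩
          · rw [h0 e he] at h; exact absurd h (by decide)
          · rw [h0 e he] at h; exact absurd h (by decide)
        · refine ⟨fun h => ?_, fun _ => p.1.2.2 e he, fun h => ?_⟩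
          · rw [h1 e he] at h; exact absurd h (by decide)
          · rw [h1 e he] at h; exact absurd h (by decide)⟩
      left_inv := fun _ => rfl
      right_inv := fun _ => rfl }
  rw [e.finrank_eq, Module.finrank_prod]

/-- dimension of `LL` for transitions `2` -/
lemma LL_dim2 (C : Submodule (ZMod 2) (E → ZMod 2)) :
    Module.finrank (ZMod 2) ↥(LL C fun _ => 2) = Module.finrank (ZMod 2) ↥(C ⊓ perp C) := by
  let e : ↥(LL C fun _ => 2) ≃ₗ[ZMod 2] ↥(C ⊓ perp C) :=
    { toFun := fun p => ⟨p.1.1, p.2.1, by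
        have : p.1.1 = p.1.2 := by funext e; exact (p.2.2.2 e).2.2 rfl
        rw [this]; exact p.2.2.1⟩
      map_add' := fun _ _ => rfl
      map_smul' := fun _ _ => rfl
      invFun := fun p => ⟨(p.1, p.1), p.2.1, p.2.2, fun e =>
        ⟨fun h => absurd h (by change ¬ ((2 : Fin 3) = 0); decide),
          fun h => absurd h (by change ¬ ((2 : Fin 3) = 1); decide), fun _ => rfl⟩⟩
      left_inv := fun p => by
        apply Subtype.ext
        apply Prod.ext
        · rfl
        · have : p.1.1 = p.1.2 := by funext e; exact (p.2.2.2 e).2.2 rfl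
          exact this
      right_inv := fun _ => rfl }
  exact e.finrank_eq

lemma inf_supp_mono {C : Submodule (ZMod 2) (E → ZMod 2)} {A B : Finset E} (h : A ⊆ B)
    (hB : C ⊓ supp B = ⊥) : C ⊓ supp A = ⊥ := by
  rw [eq_bot_iff] at hB ⊢
  rintro x ⟨h1, h2⟩
  exact hB ⟨h1, fun e he => h2 e fun h' => he (h h')⟩

lemma dims_sdiff {C : Submodule (ZMod 2) (E → ZMod 2)} {T : Finset E} (h1 : C ⊓ supp T = ⊥)
    (h2 : perp C ⊓ supp Tᶜ = ⊥) (S : Finset E) (hS : S ⊆ T) :
    Module.finrank (ZMod 2) ↥(C ⊓ supp (T \ S)) +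
      Module.finrank (ZMod 2) ↥(perp C ⊓ supp (T \ S)ᶜ) = S.card := by
  have e1 := dim_dual C T
  have e2 := dim_dual C (T \ S)
  have e3 : C ⊓ supp (T \ S) = ⊥ := inf_supp_mono Finset.sdiff_subset h1
  have e4 : (T \ S).card + S.card = T.card := Finset.card_sdiff_add_card_eq_card hS
  rw [h1, h2, finrank_bot] at e1
  rw [e3, finrank_bot] at e2 ⊢
  omega

lemma dims_union {C : Submodule (ZMod 2) (E → ZMod 2)} {T : Finset E} (h1 : C ⊓ supp T = ⊥)
    (h2 : perp C ⊓ supp Tᶜ = ⊥) (S : Finset E) (hS : Disjoint T S) :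
    Module.finrank (ZMod 2) ↥(C ⊓ supp (T ∪ S)) +
      Module.finrank (ZMod 2) ↥(perp C ⊓ supp (T ∪ S)ᶜ) = S.card := by
  have e1 := dim_dual C T
  have e2 := dim_dual C (T ∪ S)
  have e3 : perp C ⊓ supp (T ∪ S)ᶜ = ⊥ :=
    inf_supp_mono (Finset.compl_subset_compl.2 Finset.subset_union_left) h2
  have e4 : (T ∪ S).card = T.card + S.card := Finset.card_union_of_disjoint hS
  rw [h1, h2, finrank_bot] at e1
  rw [e3, finrank_bot] at e2 ⊢
  omega

end Dims

lemma rel_zero {E : Type} (T χ : E → Bool) (e : E) (h : χ e ≠ T e) :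
    rel T (fun e => if χ e then 1 else 0) e = 0 := by
  rcases hx : χ e with _ | _ <;> rcases hy : T e with _ | _ <;> simp [rel, hx, hy] at h ⊢

lemma rel_one {E : Type} (T χ : E → Bool) (e : E) (h : χ e = T e) :
    rel T (fun e => if χ e then 1 else 0) e = 1 := by
  rcases hx : χ e with _ | _ <;> rcases hy : T e with _ | _ <;> simp [rel, hx, hy] at h ⊢

/-- toggling and subsets -/
def tog {E : Type} [Fintype E] [DecidableEq E] (T : E → Bool) : (E → Bool) ≃ Finset E where
  toFun := fun χ => univ.filter fun e => χ e ≠ T e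
  invFun := fun A e => if e ∈ A then !(T e) else T e
  left_inv := by
    intro χ
    funext e
    simp only [Finset.mem_filter, Finset.mem_univ, true_and, ne_eq]
    generalize χ e = x
    generalize T e = y
    cases x <;> cases y <;> simp
  right_inv := by
    intro A
    ext e
    rw [Finset.mem_filter]
    by_cases h : e ∈ A
    · simp [h]
    · simp [h]

theorem indec_case (E : Type) [Fintype E] [DecidableEq E] (D : Submodule (ZMod 2) (E → ZMod 2))
    (hP : Planar D) (hI : Indec D) (hE : 2 ≤ Fintype.card E) :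
    pC D ∈ (Ideal.span {C 2, X} : Ideal ℤ[X]) ^ Module.finrank (ZMod 2) ↥(D ⊓ perp D) := by
  obtain ⟨n, n', s, t, s', t', hC, hC'⟩ := hP
  obtain ⟨α, hα, hne, hL⟩ := MapPair.map_of_pair s t s' t' D hC hC' hI hE
  have : Nonempty E := Fintype.card_pos_iff.1 (by omega)
  obtain ⟨T0, hT1, hT2⟩ := exists_basis D
  let T : E → Bool := fun e => decide (e ∈ T0)
  have hTt : ∀ e, T e = true ↔ e ∈ T0 := fun e => decide_eq_true_iff
  have hTf : ∀ e, T e = false ↔ e ∉ T0 := fun e => decide_eq_false_iff_not
  have key : ∀ (Q : Type) [Fintype Q] (χ : E → Fin 3) (A : Finset E),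
      (∀ e ∈ A, rel T χ e = 0) → (∀ e ∉ A, rel T χ e = 1) →
      Nat.card (Lab α (rel T χ) Q) = Fintype.card Q ^ (1 +
        (Module.finrank (ZMod 2) ↥(D ⊓ supp A) + Module.finrank (ZMod 2) ↥(perp D ⊓ supp Aᶜ))) := by
    intro Q _ χ A h0 h1
    rw [hL Q (rel T χ), LL_dim01 D (rel T χ) A h0 h1]
  have h1 : Nat.card (Lab α (rel T fun _ => 0) Bool) = 2 := by
    rw [key Bool _ T0, hT1, hT2, finrank_bot, Fintype.card_bool]
    · norm_num
    · intro e he; simp [rel, (hTt e).2 he]
    · intro e he; simp [rel, (hTf e).2 he]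
  have h2 : ∀ e, Nat.card (Lab α (rel T fun x => if x = e then 1 else 0) Bool) = 4 := by
    intro e
    by_cases he : e ∈ T0
    · rw [key Bool _ (T0 \ {e}), dims_sdiff hT1 hT2 {e} (by simpa using he), Fintype.card_bool]
      · norm_num
      · intro f hf
        have hf1 : f ∈ T0 := (Finset.mem_sdiff.1 hf).1
        have hf2 : f ≠ e := by simpa using (Finset.mem_sdiff.1 hf).2
        simp [rel, (hTt f).2 hf1, hf2]
      · intro f hf
        by_cases hfe : f = e
        · simp [rel, hfe, (hTt e).2 he]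
        · have hf1 : f ∉ T0 := fun h => hf (by simp [h, hfe])
          simp [rel, (hTf f).2 hf1, hfe]
    · rw [key Bool _ (T0 ∪ {e}), dims_union hT1 hT2 {e} (by simpa using he), Fintype.card_bool]
      · norm_num
      · intro f hf
        by_cases hfe : f = e
        · simp [rel, hfe, (hTf e).2 he]
        · have hf1 : f ∈ T0 := by simpa [hfe] using hf
          simp [rel, (hTt f).2 hf1, hfe]
      · intro f hf
        have hfe : f ≠ e := fun h => hf (by simp [h])
        have hf1 : f ∉ T0 := fun h => hf (by simp [h])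
        simp [rel, (hTf f).2 hf1, hfe]
  have h3 : ∀ e e', e ≠ e' → T e = T e' →
      Nat.card (Lab α (rel T fun x => if x = e ∨ x = e' then 1 else 0) Bool) = 8 := by
    intro e e' hee hT
    have hcard : ({e, e'} : Finset E).card = 2 := Finset.card_pair hee
    by_cases he : e ∈ T0
    · have he' : e' ∈ T0 := (hTt e').1 (by rw [← hT]; exact (hTt e).2 he)
      rw [key Bool _ (T0 \ {e, e'}), dims_sdiff hT1 hT2 {e, e'} (by
          intro x hx
          rcases Finset.mem_insert.1 hx with h | h
          · rw [h]; exact he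
          · rw [Finset.mem_singleton.1 h]; exact he'), Fintype.card_bool, hcard]
      · norm_num
      · intro f hf
        have hf1 : f ∈ T0 := (Finset.mem_sdiff.1 hf).1
        have hf2 : ¬ (f = e ∨ f = e') := by simpa using (Finset.mem_sdiff.1 hf).2
        simp [rel, (hTt f).2 hf1, hf2]
      · intro f hf
        by_cases hfe : f = e ∨ f = e'
        · have hf1 : f ∈ T0 := by
            rcases hfe with h | h
            · rw [h]; exact he
            · rw [h]; exact he'
          simp [rel, hfe, (hTt f).2 hf1]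
        · have hf1 : f ∉ T0 := fun h => hf (by
            rw [Finset.mem_sdiff]; exact ⟨h, by simpa using hfe⟩)
          simp [rel, (hTf f).2 hf1, hfe]
    · have he' : e' ∉ T0 := (hTf e').1 (by rw [← hT]; exact (hTf e).2 he)
      rw [key Bool _ (T0 ∪ {e, e'}), dims_union hT1 hT2 {e, e'} (by
          rw [Finset.disjoint_right]
          intro x hx
          rcases Finset.mem_insert.1 hx with h | h
          · rw [h]; exact he
          · rw [Finset.mem_singleton.1 h]; exact he'), Fintype.card_bool, hcard]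
      · norm_num
      · intro f hf
        by_cases hfe : f = e ∨ f = e'
        · have hf1 : f ∉ T0 := by
            rcases hfe with h | h
            · rw [h]; exact he
            · rw [h]; exact he'
          simp [rel, hfe, (hTf f).2 hf1]
        · have hf1 : f ∈ T0 := by
            rcases Finset.mem_union.1 hf with h | h
            · exact h
            · exact absurd (by simpa using h) hfe
          simp [rel, (hTt f).2 hf1, hfe]
      · intro f hf
        have hfe : ¬ (f = e ∨ f = e') := fun h => hf (Finset.mem_union_right _ (by simpa using h))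
        have hf1 : f ∉ T0 := fun h => hf (Finset.mem_union_left _ h)
        simp [rel, (hTf f).2 hf1, hfe]
  obtain ⟨a, b, hab, ha, hb, hanb, hnc, hQ⟩ := Tour.tour α hα hne T h1 h2 h3
  obtain ⟨W, hW, hWQ⟩ := Mullin.mullin a b T hab ha hb hanb hnc
  -- straight count
  have hsc : sc W = 2 ^ (Module.finrank (ZMod 2) ↥(D ⊓ perp D) + 1) := by
    have e1 : sc W = (Nat.card (ChLab a b (fun _ => 2) (ZMod 2)) : ℤ) := (hWQ (ZMod 2) 0).2
    have e2 : (rel T fun _ => 2) = fun _ => 2 := by funext e; simp [rel]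
    rw [e1, ← hQ (ZMod 2) (fun _ => 2), hL, e2, LL_dim2, ZMod.card, add_comm]
    push_cast
    rfl
  have hmem := General.words_of_plat plat_mem hpow hineq W hW _ hsc
  obtain ⟨P, hPm, hPe⟩ := hmem
  -- state sum
  have hZZ : ∀ q : ℕ, ZZ W q = (X * pC D).eval ((q : ℤ) + 1) := by
    intro q
    have e1 : ZZ W q = ∑ χ : E → Bool,
        (Nat.card (ChLab a b (fun e => if χ e then 1 else 0) (Fin (q + 1))) : ℤ) :=
      (hWQ (Fin (q + 1)) 0).1
    rw [e1, eval_mul, eval_X, pC, eval_finsetSum, Finset.mul_sum]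
    refine Fintype.sum_equiv (tog T) _ _ fun χ => ?_
    have e3 : ∀ e ∈ tog T χ, rel T (fun e => if χ e then 1 else 0) e = 0 := by
      intro e he
      exact rel_zero T χ e (Finset.mem_filter.1 he).2
    have e4 : ∀ e ∉ tog T χ, rel T (fun e => if χ e then 1 else 0) e = 1 := by
      intro e he
      refine rel_one T χ e ?_
      by_contra h
      exact he (Finset.mem_filter.2 ⟨Finset.mem_univ _, h⟩)
    rw [← hQ, key _ _ (tog T χ) e3 e4, Fintype.card_fin, eval_pow, eval_X, pow_add, pow_one]
    push_cast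
    ring
  have hPX : P = X * pC D := poly_eq_of _ _ fun q => by rw [← hPe, hZZ]
  rw [hPX] at hPm
  exact cancel_X _ _ hPm

/-- the divisibility statement for planar codes -/
theorem planar_code (E : Type) [Fintype E] [DecidableEq E] (D : Submodule (ZMod 2) (E → ZMod 2))
    (hP : Planar D) :
    pC D ∈ (Ideal.span {C 2, X} : Ideal ℤ[X]) ^ Module.finrank (ZMod 2) ↥(D ⊓ perp D) :=
  Decomp.decomp (fun E _ _ D h1 h2 h3 => indec_case E D h1 h2 h3) E D hP

end Pool.Agent.Helper607.Tutte
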