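import Mathlib

/-!
# Normal forms of words in crossings
-/

set_option linter.unusedSectionVars false

namespace Pool.Agent.Helper607.Tutte

/-- the list `b - 1, b - 2, ..., a` -/
def dsc (a : ℕ) : ℕ → List ℕ
  | 0 => []
  | b + 1 => if a ≤ b then b :: dsc a b else []

lemma dsc_succ {a b : ℕ} (h : a ≤ b) : dsc a (b + 1) = b :: dsc a b := by simp [dsc, h]

lemma dsc_nil {a b : ℕ} (h : b ≤ a) : dsc a b = [] := by
  cases b with
  | zero => rfl
  | succ b => simp only [dsc]; rw [if_neg (by omega)]

lemma mem_dsc {a b x : ℕ} (h : x ∈ dsc a b) : a ≤ x ∧ x < b := by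
  induction b with
  | zero => simp [dsc] at h
  | succ b ih =>
    simp only [dsc] at h
    split_ifs at h with h1
    · rcases List.mem_cons.1 h with h2 | h2
      · omega
      · have := ih h2; omega
    · simp at h

lemma dsc_split {a c b : ℕ} (h1 : a ≤ c) (h2 : c ≤ b) : dsc a b = dsc c b ++ dsc a c := by
  induction b with
  | zero =>
    have : c = 0 := by omega
    subst this; simp [dsc]
  | succ b ih =>
    by_cases h : c ≤ b
    · rw [dsc_succ (by omega), dsc_succ h, ih h]; rfl
    · have : c = b + 1 := by omega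
      subst this
      rw [dsc_nil (le_refl (b + 1))]; rfl

lemma dsc_last {a b : ℕ} (h : a < b) : dsc a b = dsc (a + 1) b ++ [a] := by
  rw [dsc_split (Nat.le_succ a) h, dsc_succ (le_refl a), dsc_nil (le_refl a)]

lemma dsc_map (a b : ℕ) : dsc (a + 1) (b + 1) = (dsc a b).map (· + 1) := by
  induction b with
  | zero => simp [dsc]
  | succ b ih =>
    by_cases h : a ≤ b
    · rw [dsc_succ (show a + 1 ≤ b + 1 by omega), ih, dsc_succ h]; rfl
    · rw [dsc_nil (show b + 1 + 1 ≤ a + 1 by omega), dsc_nil (show b + 1 ≤ a by omega)]; rfl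

/-- elementary moves inside a word -/
inductive BStp : List ℕ → List ℕ → Prop
  | comm (u v : List ℕ) (i j : ℕ) (h : i + 2 ≤ j) : BStp (u ++ [i, j] ++ v) (u ++ [j, i] ++ v)
  | braid (u v : List ℕ) (i : ℕ) :
      BStp (u ++ [i, i + 1, i] ++ v) (u ++ [i + 1, i, i + 1] ++ v)

/-- elementary moves, including the slide at the beginning -/
inductive EStp (k : ℕ) : List ℕ → List ℕ → Prop
  | base (w w' : List ℕ) (h : BStp w w') : EStp k w w'
  | slide (v : List ℕ) (j : ℕ) (h : 2 * j + 4 ≤ 2 * k) :
      EStp k ([2 * j + 1, 2 * j] ++ v) ([2 * j + 1, 2 * j + 2] ++ v)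

/-- equivalence generated by the moves inside a word -/
abbrev BE : List ℕ → List ℕ → Prop := Relation.EqvGen BStp

/-- equivalence generated by all moves -/
abbrev EE (k : ℕ) : List ℕ → List ℕ → Prop := Relation.EqvGen (EStp k)

lemma BE.ctx {w w' : List ℕ} (h : BE w w') (u v : List ℕ) : BE (u ++ w ++ v) (u ++ w' ++ v) := by
  induction h with
  | rel x y h =>
    cases h with
    | comm a b i j h =>
      have := Relation.EqvGen.rel _ _ (BStp.comm (u ++ a) (b ++ v) i j h)
      simpa [List.append_assoc] using this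
    | braid a b i =>
      have := Relation.EqvGen.rel _ _ (BStp.braid (u ++ a) (b ++ v) i)
      simpa [List.append_assoc] using this
  | refl x => exact Relation.EqvGen.refl _
  | symm x y _ ih => exact Relation.EqvGen.symm _ _ ih
  | trans x y z _ _ ih1 ih2 => exact Relation.EqvGen.trans _ _ _ ih1 ih2

lemma BE.left {w w' : List ℕ} (h : BE w w') (u : List ℕ) : BE (u ++ w) (u ++ w') := by
  simpa using h.ctx u []

lemma BE.right {w w' : List ℕ} (h : BE w w') (v : List ℕ) : BE (w ++ v) (w' ++ v) := by
  simpa using h.ctx [] v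

lemma BE.toEE {w w' : List ℕ} (h : BE w w') (k : ℕ) : EE k w w' := by
  induction h with
  | rel x y h => exact Relation.EqvGen.rel _ _ (EStp.base x y h)
  | refl x => exact Relation.EqvGen.refl _
  | symm x y _ ih => exact Relation.EqvGen.symm _ _ ih
  | trans x y z _ _ ih1 ih2 => exact Relation.EqvGen.trans _ _ _ ih1 ih2

lemma EE.right {k : ℕ} {w w' : List ℕ} (h : EE k w w') (v : List ℕ) : EE k (w ++ v) (w' ++ v) := by
  induction h with
  | rel x y h =>
    cases h with
    | base _ _ h => exact (BE.right (Relation.EqvGen.rel _ _ h) v).toEE k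
    | slide a j h =>
      have := Relation.EqvGen.rel _ _ (EStp.slide (a ++ v) j h)
      simpa [List.append_assoc] using this
  | refl x => exact Relation.EqvGen.refl _
  | symm x y _ ih => exact Relation.EqvGen.symm _ _ ih
  | trans x y z _ _ ih1 ih2 => exact Relation.EqvGen.trans _ _ _ ih1 ih2

lemma EE.mono {k : ℕ} {w w' : List ℕ} (h : EE k w w') : EE (k + 1) w w' := by
  induction h with
  | rel x y h =>
    cases h with
    | base _ _ h => exact Relation.EqvGen.rel _ _ (EStp.base _ _ h)
    | slide a j h => exact Relation.EqvGen.rel _ _ (EStp.slide a j (by omega))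
  | refl x => exact Relation.EqvGen.refl _
  | symm x y _ ih => exact Relation.EqvGen.symm _ _ ih
  | trans x y z _ _ ih1 ih2 => exact Relation.EqvGen.trans _ _ _ ih1 ih2

lemma BE.swap (i j : ℕ) (h : i + 2 ≤ j ∨ j + 2 ≤ i) : BE [i, j] [j, i] := by
  rcases h with h | h
  · exact Relation.EqvGen.rel _ _ (BStp.comm [] [] i j h)
  · exact Relation.EqvGen.symm _ _ (Relation.EqvGen.rel _ _ (BStp.comm [] [] j i h))

lemma comm_letter (l : List ℕ) (i : ℕ) (h : ∀ x ∈ l, x + 2 ≤ i ∨ i + 2 ≤ x) :
    BE (l ++ [i]) ([i] ++ l) := by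
  induction l with
  | nil => exact Relation.EqvGen.refl _
  | cons x l ih =>
    have h1 : BE (x :: (l ++ [i])) (x :: ([i] ++ l)) :=
      BE.left (ih fun y hy => h y (List.mem_cons_of_mem _ hy)) [x]
    have h2 : BE ([x, i] ++ l) ([i, x] ++ l) :=
      BE.right (BE.swap x i (h x (List.mem_cons_self))) l
    exact Relation.EqvGen.trans _ _ _ h1 h2

lemma comm_lists (l m : List ℕ) (h : ∀ x ∈ l, ∀ z ∈ m, x + 2 ≤ z ∨ z + 2 ≤ x) :
    BE (l ++ m) (m ++ l) := by
  induction m with
  | nil => simpa using Relation.EqvGen.refl _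
  | cons z m ih =>
    have h1 : BE (l ++ [z] ++ m) ([z] ++ l ++ m) :=
      BE.right (comm_letter l z fun x hx => h x hx z (List.mem_cons_self)) m
    have h2 : BE ([z] ++ (l ++ m)) ([z] ++ (m ++ l)) :=
      BE.left (ih fun x hx y hy => h x hx y (List.mem_cons_of_mem _ hy)) [z]
    have h3 := Relation.EqvGen.trans _ _ _ h1 (by simpa [List.append_assoc] using h2)
    simpa [List.append_assoc] using h3

lemma braid_dsc (a b i : ℕ) (h1 : a ≤ i) (h2 : i + 1 < b) :
    BE (dsc a b ++ [i + 1]) ([i] ++ dsc a b) := by
  have hs : dsc a b = dsc (i + 2) b ++ ([i + 1, i] ++ dsc a i) := by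
    rw [dsc_split (show a ≤ i + 2 by omega) (show i + 2 ≤ b by omega),
      dsc_succ (show a ≤ i + 1 by omega), dsc_succ h1]
    rfl
  rw [hs]
  have s1 : BE (dsc a i ++ [i + 1]) ([i + 1] ++ dsc a i) :=
    comm_letter _ _ fun x hx => Or.inl (by have := mem_dsc hx; omega)
  have s2 : BE (dsc (i + 2) b ++ [i]) ([i] ++ dsc (i + 2) b) :=
    comm_letter _ _ fun x hx => Or.inr (by have := mem_dsc hx; omega)
  have s3 : BE [i + 1, i, i + 1] [i, i + 1, i] :=
    Relation.EqvGen.symm _ _ (Relation.EqvGen.rel _ _ (BStp.braid [] [] i))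
  have t1 := BE.left s1 (dsc (i + 2) b ++ [i + 1, i])
  have t2 := BE.ctx s3 (dsc (i + 2) b) (dsc a i)
  have t3 := BE.right s2 ([i + 1, i] ++ dsc a i)
  refine Relation.EqvGen.trans _ (dsc (i + 2) b ++ [i + 1, i, i + 1] ++ dsc a i) _ ?_ ?_
  · simpa [List.append_assoc] using t1
  refine Relation.EqvGen.trans _ (dsc (i + 2) b ++ [i, i + 1, i] ++ dsc a i) _ ?_ ?_
  · simpa [List.append_assoc] using t2
  · simpa [List.append_assoc] using t3

lemma shift_dsc (b c : ℕ) (l : List ℕ) (h : ∀ x ∈ l, b ≤ x ∧ x + 1 < c) :
    BE (dsc b c ++ l.map (· + 1)) (l ++ dsc b c) := by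
  induction l with
  | nil => simpa using Relation.EqvGen.refl _
  | cons x l ih =>
    have h1 := BE.right (braid_dsc b c x (h x (List.mem_cons_self)).1
      (h x (List.mem_cons_self)).2) (l.map (· + 1))
    have h2 := BE.left (ih fun y hy => h y (List.mem_cons_of_mem _ hy)) [x]
    refine Relation.EqvGen.trans _ ([x] ++ dsc b c ++ l.map (· + 1)) _ ?_ ?_
    · simpa [List.append_assoc] using h1
    · simpa [List.append_assoc] using h2

/-- canonical words -/
inductive Canon : ℕ → List ℕ → Prop
  | nil : Canon 0 []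
  | snoc (k : ℕ) (w : List ℕ) (a : ℕ) (h : Canon k w) (ha : a ≤ 2 * k) :
      Canon (k + 1) (w ++ dsc a (2 * k))

/-- reducible words -/
def Red (w : List ℕ) : Prop := (∃ u i v, w = u ++ [i, i] ++ v) ∨ ∃ j v, w = (2 * j) :: v

lemma Red.append {w : List ℕ} (h : Red w) (x : List ℕ) : Red (w ++ x) := by
  rcases h with ⟨u, i, v, rfl⟩ | ⟨j, v, rfl⟩
  · exact Or.inl ⟨u, i, v ++ x, by simp [List.append_assoc]⟩
  · exact Or.inr ⟨j, v ++ x, rfl⟩

lemma Canon.valid {k : ℕ} {w : List ℕ} (h : Canon k w) : ∀ x ∈ w, x + 2 ≤ 2 * k := by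
  induction h with
  | nil => intro x hx; simp at hx
  | snoc k w a h ha ih =>
    intro x hx
    rcases List.mem_append.1 hx with h1 | h1
    · have := ih x h1; omega
    · have := mem_dsc h1; omega

theorem app {k : ℕ} {w : List ℕ} (hw : Canon k w) :
    ∀ i, i + 2 ≤ 2 * k → ∃ w', EE k (w ++ [i]) w' ∧ (Red w' ∨ Canon k w') := by
  induction hw with
  | nil => intro i hi; omega
  | snoc k w a hw ha ih =>
    intro i hi
    by_cases c1 : i = 2 * k
    · by_cases c2 : a = 2 * k
      · -- both at the end: the letter moves to the front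
        refine ⟨[i] ++ w, ?_, Or.inl (Or.inr ⟨k, w, by rw [c1]; rfl⟩)⟩
        rw [c2, dsc_nil (le_refl _), List.append_nil]
        exact (comm_letter w i fun x hx => Or.inl (by have := hw.valid x hx; omega)).toEE _
      · -- slide
        cases hw with
        | nil => omega
        | snoc k w2 b hw2 hb =>
          have ek : 2 * (k + 1) = 2 * k + 2 := by ring
          rw [ek] at *
          subst c1
          have e1 : dsc a (2 * k + 2) = [2 * k + 1] ++ dsc a (2 * k + 1) := by
            rw [dsc_succ (show a ≤ 2 * k + 1 by omega)]; rfl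
          have s1 : BE (dsc a (2 * k + 1) ++ [2 * k + 2]) ([2 * k + 2] ++ dsc a (2 * k + 1)) :=
            comm_letter _ _ fun x hx => Or.inl (by have := mem_dsc hx; omega)
          have s2 : BE ((w2 ++ dsc b (2 * k)) ++ [2 * k + 1, 2 * k + 2])
              ([2 * k + 1, 2 * k + 2] ++ (w2 ++ dsc b (2 * k))) := by
            apply comm_lists
            intro x hx z hz
            left
            have hx' : x < 2 * k := by
              rcases List.mem_append.1 hx with h1 | h1
              · have := hw2.valid x h1; omega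
              · exact (mem_dsc h1).2
            simp only [List.mem_cons, List.not_mem_nil, or_false] at hz
            omega
          have s3 : EE (k + 1 + 1) ([2 * k + 1, 2 * k] ++ ((w2 ++ dsc b (2 * k)) ++ dsc a (2 * k + 1)))
              ([2 * k + 1, 2 * k + 2] ++ ((w2 ++ dsc b (2 * k)) ++ dsc a (2 * k + 1))) :=
            Relation.EqvGen.rel _ _ (EStp.slide _ k (by omega))
          have s4 : BE (w2 ++ [2 * k + 1, 2 * k]) ([2 * k + 1, 2 * k] ++ w2) := by
            apply comm_lists
            intro x hx z hz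
            left
            have := hw2.valid x hx
            simp only [List.mem_cons, List.not_mem_nil, or_false] at hz
            omega
          have e2 : [2 * k + 1, 2 * k] ++ dsc b (2 * k) = dsc b (2 * k + 2) := by
            rw [dsc_succ (show b ≤ 2 * k + 1 by omega), dsc_succ hb]; rfl
          -- first part: reach `w2 ++ dsc b (2k+2) ++ dsc a (2k+1)`
          have main : EE (k + 1 + 1) (w2 ++ dsc b (2 * k) ++ dsc a (2 * k + 2) ++ [2 * k + 2])
              (w2 ++ dsc b (2 * k + 2) ++ dsc a (2 * k + 1)) := by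
            rw [e1]
            refine Relation.EqvGen.trans _
              (w2 ++ dsc b (2 * k) ++ [2 * k + 1, 2 * k + 2] ++ dsc a (2 * k + 1)) _ ?_ ?_
            · have := (BE.left s1 (w2 ++ dsc b (2 * k) ++ [2 * k + 1])).toEE (k + 1 + 1)
              simpa [List.append_assoc] using this
            refine Relation.EqvGen.trans _
              ([2 * k + 1, 2 * k + 2] ++ ((w2 ++ dsc b (2 * k)) ++ dsc a (2 * k + 1))) _ ?_ ?_
            · have := (BE.right s2 (dsc a (2 * k + 1))).toEE (k + 1 + 1)
              simpa [List.append_assoc] using this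
            refine Relation.EqvGen.trans _ _ _ (Relation.EqvGen.symm _ _ s3) ?_
            have := (BE.right (Relation.EqvGen.symm _ _ s4)
              (dsc b (2 * k) ++ dsc a (2 * k + 1))).toEE (k + 1 + 1)
            rw [← e2]
            simpa [List.append_assoc] using this
          by_cases c3 : b < a
          · -- canonical
            obtain ⟨a', rfl⟩ : ∃ a', a = a' + 1 := ⟨a - 1, by omega⟩
            have s5 : BE (dsc b (2 * k + 2) ++ dsc (a' + 1) (2 * k + 1))
                (dsc a' (2 * k) ++ dsc b (2 * k + 2)) := by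
              rw [dsc_map]
              exact shift_dsc b (2 * k + 2) _ fun x hx => by have := mem_dsc hx; omega
            refine ⟨(w2 ++ dsc a' (2 * k)) ++ dsc b (2 * k + 2), ?_, Or.inr ?_⟩
            · refine Relation.EqvGen.trans _ _ _ main ?_
              have := (BE.left s5 w2).toEE (k + 1 + 1)
              simpa [List.append_assoc] using this
            · have h1 := Canon.snoc k w2 a' hw2 (by omega)
              have h2 := Canon.snoc (k + 1) _ b h1 (by omega)
              have ek' : 2 * (k + 1) = 2 * k + 2 := by ring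
              rw [ek'] at h2
              exact h2
          · -- reducible
            have e3 : dsc a (2 * k + 1) = dsc (b + 1) (2 * k + 1) ++ ([b] ++ dsc a b) := by
              rw [dsc_split (show a ≤ b by omega) (show b ≤ 2 * k + 1 by omega),
                dsc_last (show b < 2 * k + 1 by omega)]
              simp [List.append_assoc]
            have s5 : BE (dsc b (2 * k + 2) ++ dsc (b + 1) (2 * k + 1))
                (dsc b (2 * k) ++ dsc b (2 * k + 2)) := by
              rw [dsc_map]
              exact shift_dsc b (2 * k + 2) _ fun x hx => by have := mem_dsc hx; omega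
            refine ⟨w2 ++ dsc b (2 * k) ++ dsc b (2 * k + 2) ++ ([b] ++ dsc a b), ?_,
              Or.inl (Or.inl ⟨w2 ++ dsc b (2 * k) ++ dsc (b + 1) (2 * k + 2), b, dsc a b, ?_⟩)⟩
            · refine Relation.EqvGen.trans _ _ _ main ?_
              rw [e3]
              have := (BE.ctx s5 w2 ([b] ++ dsc a b)).toEE (k + 1 + 1)
              simpa [List.append_assoc] using this
            · rw [dsc_last (show b < 2 * k + 2 by omega)]
              simp [List.append_assoc]
    · have hi2 : i < 2 * k := by omega
      rcases lt_trichotomy i a with c2 | c2 | c2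
      · by_cases c3 : a = i + 1
        · subst c3
          refine ⟨w ++ dsc i (2 * k), ?_, Or.inr (Canon.snoc k w i hw (by omega))⟩
          rw [dsc_last hi2, List.append_assoc]
          exact Relation.EqvGen.refl _
        · obtain ⟨w', h1, h2⟩ := ih i (by omega)
          refine ⟨w' ++ dsc a (2 * k), ?_, ?_⟩
          · have s1 : BE (dsc a (2 * k) ++ [i]) ([i] ++ dsc a (2 * k)) :=
              comm_letter _ _ fun x hx => Or.inr (by have := mem_dsc hx; omega)
            refine Relation.EqvGen.trans _ ((w ++ [i]) ++ dsc a (2 * k)) _ ?_ ?_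
            · have := (BE.left s1 w).toEE (k + 1)
              simpa [List.append_assoc] using this
            · exact (EE.mono h1).right _
          · rcases h2 with h2 | h2
            · exact Or.inl (h2.append _)
            · exact Or.inr (Canon.snoc k w' a h2 ha)
      · subst c2
        refine ⟨_, Relation.EqvGen.refl _, Or.inl (Or.inl ⟨w ++ dsc (i + 1) (2 * k), i, [], ?_⟩)⟩
        rw [dsc_last hi2]
        simp [List.append_assoc]
      · obtain ⟨i', rfl⟩ : ∃ i', i = i' + 1 := ⟨i - 1, by omega⟩
        obtain ⟨w', h1, h2⟩ := ih i' (by omega)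
        refine ⟨w' ++ dsc a (2 * k), ?_, ?_⟩
        · have s1 := braid_dsc a (2 * k) i' (by omega) hi2
          refine Relation.EqvGen.trans _ ((w ++ [i']) ++ dsc a (2 * k)) _ ?_ ?_
          · have := (BE.left s1 w).toEE (k + 1)
            simpa [List.append_assoc] using this
          · exact (EE.mono h1).right _
        · rcases h2 with h2 | h2
          · exact Or.inl (h2.append _)
          · exact Or.inr (Canon.snoc k w' a h2 ha)

/-- the canonical word without crossings -/
lemma canon_nil (k : ℕ) : Canon k [] := by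
  induction k with
  | zero => exact Canon.nil
  | succ k ih =>
    have := Canon.snoc k [] (2 * k) ih (le_refl _)
    rw [dsc_nil (le_refl _)] at this
    exact this

theorem nf (k : ℕ) (w : List ℕ) (hw : ∀ i ∈ w, i + 2 ≤ 2 * k) :
    ∃ w', EE k w w' ∧ (Red w' ∨ Canon k w') := by
  induction w using List.reverseRecOn with
  | nil => exact ⟨[], Relation.EqvGen.refl _, Or.inr (canon_nil k)⟩
  | append_singleton w i ih =>
    obtain ⟨w1, h1, h2⟩ := ih fun j hj => hw j (List.mem_append_left _ hj)
    rcases h2 with h2 | h2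
    · exact ⟨w1 ++ [i], h1.right _, Or.inl (h2.append _)⟩
    · obtain ⟨w2, h3, h4⟩ := app h2 i (hw i (by simp))
      exact ⟨w2, Relation.EqvGen.trans _ _ _ (h1.right _) h3, h4⟩

end Pool.Agent.Helper607.Tutte
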