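import Pool.Agent.Helper607.Tutte.PlatOps

/-!
# State sums of plats
-/

set_option linter.unusedSectionVars false
set_option linter.unusedSimpArgs false

namespace Pool.Agent.Helper607.Tutte

open Finset Polynomial

/-- value of an operator at the constant function `1` and the constant labels `z` -/
def vac {Q : Type} (z : Q) (M : Module.End ℤ ((ℕ → Q) → ℤ)) : ℤ := M (fun _ => 1) (fun _ => z)

/-- value of a plat with an arbitrary operator in the middle -/
def fn (q k : ℕ) (u v : List ℕ) : Module.End ℤ ((ℕ → Fin (q + 1)) → ℤ) →ₗ[ℤ] ℤ where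
  toFun M := vac 0 (evL (cups k) * YW u * M * YW v * evL (caps k))
  map_add' M N := by simp only [mul_add, add_mul]; rfl
  map_smul' c M := by simp only [mul_smul_comm, smul_mul_assoc]; rfl

lemma ZZ_plat (k : ℕ) (w : List ℕ) (q : ℕ) :
    ZZ (plat k w) q = vac (0 : Fin (q + 1)) (evL (cups k) * YW w * evL (caps k)) := by
  rw [ZZ, ev_eq, plat, evL_append, evL_append, vac, YW]

lemma sc_plat (k : ℕ) (w : List ℕ) :
    sc (plat k w) = vac (0 : ZMod 2) (svL (cups k) * SW w * svL (caps k)) := by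
  rw [sc, sv_eq, plat, svL_append, svL_append, vac, SW]

lemma fn_YW (q k : ℕ) (u v w : List ℕ) :
    fn q k u v (YW w) = ZZ (plat k (u ++ w ++ v)) q := by
  rw [ZZ_plat, YW_append, YW_append]
  simp only [fn, LinearMap.coe_mk, AddHom.coe_mk, mul_assoc]

lemma fn_one (q k : ℕ) (u v : List ℕ) : fn q k u v 1 = ZZ (plat k (u ++ v)) q := by
  have := fn_YW q k u v []
  rw [YW_nil] at this
  simpa using this

lemma fn_y (q k : ℕ) (u v : List ℕ) (i : ℕ) : fn q k u v (yL i) = ZZ (plat k (u ++ [i] ++ v)) q := by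
  have := fn_YW q k u v [i]
  rw [YW_cons, YW_nil, mul_one] at this
  exact this

lemma fn_y2 (q k : ℕ) (u v : List ℕ) (i j : ℕ) :
    fn q k u v (yL i * yL j) = ZZ (plat k (u ++ [i, j] ++ v)) q := by
  have := fn_YW q k u v [i, j]
  rw [YW_cons, YW_cons, YW_nil, mul_one] at this
  exact this

lemma fn_y3 (q k : ℕ) (u v : List ℕ) (i j l : ℕ) :
    fn q k u v (yL i * yL j * yL l) = ZZ (plat k (u ++ [i, j, l] ++ v)) q := by
  have := fn_YW q k u v [i, j, l]
  rw [YW_cons, YW_cons, YW_cons, YW_nil, mul_one, ← mul_assoc] at this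
  exact this

lemma Z_sq (k : ℕ) (u v : List ℕ) (i q : ℕ) :
    ZZ (plat k (u ++ [i, i] ++ v)) q =
      (1 - (((q : ℤ) + 1) + 2)) * ZZ (plat k (u ++ v)) q +
        (((q : ℤ) + 1) + 2) * ZZ (plat k (u ++ [i] ++ v)) q := by
  rw [← fn_y2, y_sq, map_add, map_smul, map_smul, fn_one, fn_y, Fintype.card_fin]
  push_cast
  simp only [smul_eq_mul]

lemma Z_comm (k : ℕ) (u v : List ℕ) (i j q : ℕ) (h : i + 2 ≤ j) :
    ZZ (plat k (u ++ [i, j] ++ v)) q = ZZ (plat k (u ++ [j, i] ++ v)) q := by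
  rw [← fn_y2, y_comm _ _ h, fn_y2]

lemma Z_braid (k : ℕ) (u v : List ℕ) (i q : ℕ) :
    ZZ (plat k (u ++ [i, i + 1, i] ++ v)) q - ZZ (plat k (u ++ [i + 1, i, i + 1] ++ v)) q =
      ((q : ℤ) + 1 + 2) * (ZZ (plat k (u ++ [i] ++ v)) q - ZZ (plat k (u ++ [i + 1] ++ v)) q) := by
  rw [← fn_y3, ← fn_y3, ← map_sub, y_braid, map_smul, map_sub, fn_y, fn_y, Fintype.card_fin]
  push_cast
  simp only [smul_eq_mul]

lemma Z_tl (k : ℕ) (u v : List ℕ) (i q : ℕ) :
    ZZ (plat k (u ++ [i, i + 1, i] ++ v)) q =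
      ZZ (plat k (u ++ [i, i + 1] ++ v)) q + ZZ (plat k (u ++ [i + 1, i] ++ v)) q
      - ZZ (plat k (u ++ [i] ++ v)) q - ZZ (plat k (u ++ [i + 1] ++ v)) q
      + ZZ (plat k (u ++ v)) q
      + ((q : ℤ) + 1 + 2) * (ZZ (plat k (u ++ [i] ++ v)) q - ZZ (plat k (u ++ v)) q) := by
  rw [← fn_y3, y_tl, map_add, map_add, map_sub, map_sub, map_add, map_smul, map_sub, fn_y, fn_y,
    fn_y2, fn_y2, fn_one, Fintype.card_fin]
  push_cast
  simp only [smul_eq_mul]

lemma Z_even (k j : ℕ) (v : List ℕ) (q : ℕ) (h : j < k) :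
    ZZ (plat k ((2 * j) :: v)) q = ((q : ℤ) + 1 + 1) * ZZ (plat k v) q := by
  rw [ZZ_plat, ZZ_plat, YW_cons, ← mul_assoc, cups_y k j h, Fintype.card_fin, smul_mul_assoc,
    smul_mul_assoc]
  push_cast
  rfl

lemma Z_slide (k j : ℕ) (v : List ℕ) (q : ℕ) (h : 2 * j + 4 ≤ 2 * k) :
    ZZ (plat k ([2 * j + 1, 2 * j] ++ v)) q = ZZ (plat k ([2 * j + 1, 2 * j + 2] ++ v)) q := by
  rw [ZZ_plat, ZZ_plat, YW_append, YW_append, YW_cons, YW_cons, YW_nil, YW_cons, YW_cons, YW_nil,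
    mul_one, mul_one, ← mul_assoc, ← mul_assoc (evL (cups k)) (yL (2 * j + 1) * yL (2 * j + 2)),
    cups_slide_y k j (by omega)]

lemma sc_sq (k : ℕ) (u v : List ℕ) (i : ℕ) :
    sc (plat k (u ++ [i, i] ++ v)) = sc (plat k (u ++ v)) := by
  rw [sc_plat, sc_plat, SW_append, SW_append, SW_cons, SW_cons, SW_nil, mul_one, s_sq, mul_one,
    SW_append]

lemma sc_comm (k : ℕ) (u v : List ℕ) (i j : ℕ) (h : i + 2 ≤ j) :
    sc (plat k (u ++ [i, j] ++ v)) = sc (plat k (u ++ [j, i] ++ v)) := by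
  rw [sc_plat, sc_plat, SW_append, SW_append, SW_append, SW_append, SW_cons, SW_cons, SW_nil,
    SW_cons, SW_cons, SW_nil, mul_one, mul_one, s_comm _ _ h]

lemma sc_braid (k : ℕ) (u v : List ℕ) (i : ℕ) :
    sc (plat k (u ++ [i, i + 1, i] ++ v)) = sc (plat k (u ++ [i + 1, i, i + 1] ++ v)) := by
  have h := s_braid (Q := ZMod 2) i
  rw [mul_assoc, mul_assoc] at h
  rw [sc_plat, sc_plat, SW_append, SW_append, SW_append, SW_append, SW_cons, SW_cons, SW_cons,
    SW_nil, SW_cons, SW_cons, SW_cons, SW_nil, mul_one, mul_one, h]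

lemma sc_even (k j : ℕ) (v : List ℕ) (h : j < k) :
    sc (plat k ((2 * j) :: v)) = sc (plat k v) := by
  rw [sc_plat, sc_plat, SW_cons, ← mul_assoc, cups_s k j h]

lemma sc_slide (k j : ℕ) (v : List ℕ) (h : 2 * j + 4 ≤ 2 * k) :
    sc (plat k ([2 * j + 1, 2 * j] ++ v)) = sc (plat k ([2 * j + 1, 2 * j + 2] ++ v)) := by
  rw [sc_plat, sc_plat, SW_append, SW_append, SW_cons, SW_cons, SW_nil, SW_cons, SW_cons, SW_nil,
    mul_one, mul_one, ← mul_assoc, ← mul_assoc (svL (cups k)) (sL (2 * j + 1) * sL (2 * j + 2)),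
    cups_slide_s k j (by omega)]

lemma Z_loop (k : ℕ) (w : List ℕ) (q : ℕ) (h : ∀ x ∈ w, x + 2 ≤ 2 * k) :
    ZZ (plat (k + 1) w) q = ((q : ℤ) + 1) * ZZ (plat k w) q := by
  rw [ZZ_plat, ZZ_plat, close_loop k w h, Fintype.card_fin]
  push_cast
  rfl

lemma sc_loop (k : ℕ) (w : List ℕ) (h : ∀ x ∈ w, x + 2 ≤ 2 * k) :
    sc (plat (k + 1) w) = 2 * sc (plat k w) := by
  rw [sc_plat, sc_plat, close_loop_s k w h, ZMod.card]
  rfl

lemma Z_kink (k : ℕ) (w m : List ℕ) (q : ℕ) (h : ∀ x ∈ w, x + 2 ≤ 2 * (k + 1))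
    (h' : ∀ x ∈ m, x + 2 ≤ 2 * (k + 1)) :
    ZZ (plat (k + 2) (w ++ [2 * k + 1] ++ m)) q =
      ((q : ℤ) + 1 + 1) * ZZ (plat (k + 1) (w ++ m)) q := by
  rw [ZZ_plat, ZZ_plat, close_kink k w m h h', Fintype.card_fin]
  push_cast
  rfl

lemma sc_kink (k : ℕ) (w m : List ℕ) (h : ∀ x ∈ w, x + 2 ≤ 2 * (k + 1))
    (h' : ∀ x ∈ m, x + 2 ≤ 2 * (k + 1)) :
    sc (plat (k + 2) (w ++ [2 * k + 1] ++ m)) = sc (plat (k + 1) (w ++ m)) := by
  rw [sc_plat, sc_plat, close_kink_s k w m h h']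

/-! ### inequalities -/

lemma iq (k : ℕ) (u v w1 w2 : List ℕ) (i j : ℕ)
    (h : ∀ L : ℕ → ZMod 2, L i = L j → sws w1 L = sws w2 L) (c c' : ℕ)
    (hc : sc (plat k (u ++ w1 ++ v)) = 2 ^ c) (hc' : sc (plat k (u ++ w2 ++ v)) = 2 ^ c') :
    c ≤ c' + 1 := by
  refine ineq_swap (cups k ++ u.map Lt.y) (v.map Lt.y ++ caps k) w1 w2 i j h c c' ?_ ?_
  · rw [← hc]; simp only [plat, List.map_append, List.append_assoc]
  · rw [← hc']; simp only [plat, List.map_append, List.append_assoc]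

lemma sws_one (i : ℕ) (L : ℕ → ZMod 2) (h : L i = L (i + 1)) : sws [i] L = L := by
  funext n
  simp only [sws, sw]
  split_ifs with h1 h2
  · rw [h1, h]
  · rw [h2, h]
  · rfl

lemma iq_one (k : ℕ) (u v : List ℕ) (i c c' : ℕ)
    (hc : sc (plat k (u ++ v)) = 2 ^ c) (hc' : sc (plat k (u ++ [i] ++ v)) = 2 ^ c') :
    c ≤ c' + 1 :=
  iq k u v [] [i] i (i + 1) (fun L h => (sws_one i L h).symm) c c' (by simpa using hc) hc'

lemma iq_one' (k : ℕ) (u v : List ℕ) (i c c' : ℕ)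
    (hc : sc (plat k (u ++ [i] ++ v)) = 2 ^ c) (hc' : sc (plat k (u ++ v)) = 2 ^ c') :
    c ≤ c' + 1 :=
  iq k u v [i] [] i (i + 1) (fun L h => (sws_one i L h)) c c' hc (by simpa using hc')

lemma sw_at (i : ℕ) (L : ℕ → ZMod 2) : sw i L i = L (i + 1) := by simp [sw]
lemma sw_at1 (i : ℕ) (L : ℕ → ZMod 2) : sw i L (i + 1) = L i := by simp [sw]
lemma sw_ne (i n : ℕ) (L : ℕ → ZMod 2) (h : n ≠ i) (h' : n ≠ i + 1) : sw i L n = L n := by
  simp [sw, h, h']

lemma sws_ext (i : ℕ) (L M : ℕ → ZMod 2) (h0 : L i = M i) (h1 : L (i + 1) = M (i + 1))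
    (h2 : L (i + 2) = M (i + 2)) (h3 : ∀ n, n ≠ i → n ≠ i + 1 → n ≠ i + 2 → L n = M n) : L = M := by
  funext n
  by_cases c0 : n = i
  · rw [c0, h0]
  by_cases c1 : n = i + 1
  · rw [c1, h1]
  by_cases c2 : n = i + 2
  · rw [c2, h2]
  exact h3 n c0 c1 c2

lemma a0 (i : ℕ) (L : ℕ → ZMod 2) : sw i L i = L (i + 1) := sw_at i L
lemma a1 (i : ℕ) (L : ℕ → ZMod 2) : sw i L (i + 1) = L i := sw_at1 i L
lemma a2 (i : ℕ) (L : ℕ → ZMod 2) : sw i L (i + 2) = L (i + 2) := sw_ne i _ L (by omega) (by omega)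
lemma b0 (i : ℕ) (L : ℕ → ZMod 2) : sw (i + 1) L i = L i := sw_ne _ _ L (by omega) (by omega)
lemma b1 (i : ℕ) (L : ℕ → ZMod 2) : sw (i + 1) L (i + 1) = L (i + 2) := sw_at (i + 1) L
lemma b2 (i : ℕ) (L : ℕ → ZMod 2) : sw (i + 1) L (i + 2) = L (i + 1) := sw_at1 (i + 1) L
lemma a3 (i n : ℕ) (L : ℕ → ZMod 2) (h0 : n ≠ i) (h1 : n ≠ i + 1) (_ : n ≠ i + 2) :
    sw i L n = L n := sw_ne _ _ L (by omega) (by omega)
lemma b3 (i n : ℕ) (L : ℕ → ZMod 2) (_ : n ≠ i) (h1 : n ≠ i + 1) (h2 : n ≠ i + 2) :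
    sw (i + 1) L n = L n := sw_ne _ _ L (by omega) (by omega)

lemma iq_aba_nil (k : ℕ) (u v : List ℕ) (i c c' : ℕ)
    (hc : sc (plat k (u ++ [i, i + 1, i] ++ v)) = 2 ^ c) (hc' : sc (plat k (u ++ v)) = 2 ^ c') :
    c ≤ c' + 1 := by
  refine iq k u v [i, i + 1, i] [] i (i + 2) ?_ c c' hc (by simpa using hc')
  intro L h
  refine sws_ext i _ _ ?_ ?_ ?_ ?_
  · simp only [sws, a0, a1, a2, b0, b1, b2, h]
  · simp only [sws, a0, a1, a2, b0, b1, b2, h]
  · simp only [sws, a0, a1, a2, b0, b1, b2, h]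
  · intro n c0 c1 c2; simp only [sws, a3 _ _ _ c0 c1 c2, b3 _ _ _ c0 c1 c2]

lemma iq_aba_ab (k : ℕ) (u v : List ℕ) (i c c' : ℕ)
    (hc : sc (plat k (u ++ [i, i + 1, i] ++ v)) = 2 ^ c)
    (hc' : sc (plat k (u ++ [i, i + 1] ++ v)) = 2 ^ c') :
    c ≤ c' + 1 := by
  refine iq k u v [i, i + 1, i] [i, i + 1] (i + 1) (i + 2) ?_ c c' hc hc'
  intro L h
  refine sws_ext i _ _ ?_ ?_ ?_ ?_
  · simp only [sws, a0, a1, a2, b0, b1, b2, h]
  · simp only [sws, a0, a1, a2, b0, b1, b2, h]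
  · simp only [sws, a0, a1, a2, b0, b1, b2, h]
  · intro n c0 c1 c2; simp only [sws, a3 _ _ _ c0 c1 c2, b3 _ _ _ c0 c1 c2]

lemma iq_aba_ba (k : ℕ) (u v : List ℕ) (i c c' : ℕ)
    (hc : sc (plat k (u ++ [i, i + 1, i] ++ v)) = 2 ^ c)
    (hc' : sc (plat k (u ++ [i + 1, i] ++ v)) = 2 ^ c') :
    c ≤ c' + 1 := by
  refine iq k u v [i, i + 1, i] [i + 1, i] i (i + 1) ?_ c c' hc hc'
  intro L h
  refine sws_ext i _ _ ?_ ?_ ?_ ?_
  · simp only [sws, a0, a1, a2, b0, b1, b2, h]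
  · simp only [sws, a0, a1, a2, b0, b1, b2, h]
  · simp only [sws, a0, a1, a2, b0, b1, b2, h]
  · intro n c0 c1 c2; simp only [sws, a3 _ _ _ c0 c1 c2, b3 _ _ _ c0 c1 c2]

lemma iq_ab_a (k : ℕ) (u v : List ℕ) (i c c' : ℕ)
    (hc : sc (plat k (u ++ [i, i + 1] ++ v)) = 2 ^ c)
    (hc' : sc (plat k (u ++ [i] ++ v)) = 2 ^ c') :
    c ≤ c' + 1 := by
  refine iq k u v [i, i + 1] [i] i (i + 2) ?_ c c' hc hc'
  intro L h
  refine sws_ext i _ _ ?_ ?_ ?_ ?_
  · simp only [sws, a0, a1, a2, b0, b1, b2, h]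
  · simp only [sws, a0, a1, a2, b0, b1, b2, h]
  · simp only [sws, a0, a1, a2, b0, b1, b2, h]
  · intro n c0 c1 c2; simp only [sws, a3 _ _ _ c0 c1 c2, b3 _ _ _ c0 c1 c2]

lemma iq_ba_b (k : ℕ) (u v : List ℕ) (i c c' : ℕ)
    (hc : sc (plat k (u ++ [i + 1, i] ++ v)) = 2 ^ c)
    (hc' : sc (plat k (u ++ [i + 1] ++ v)) = 2 ^ c') :
    c ≤ c' + 1 := by
  refine iq k u v [i + 1, i] [i + 1] i (i + 2) ?_ c c' hc hc'
  intro L h
  refine sws_ext i _ _ ?_ ?_ ?_ ?_
  · simp only [sws, a0, a1, a2, b0, b1, b2, h]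
  · simp only [sws, a0, a1, a2, b0, b1, b2, h]
  · simp only [sws, a0, a1, a2, b0, b1, b2, h]
  · intro n c0 c1 c2; simp only [sws, a3 _ _ _ c0 c1 c2, b3 _ _ _ c0 c1 c2]

/-! ### the plat theorem -/

/-- the statement for one word, with loss `d` -/
def Good (d k : ℕ) (w : List ℕ) : Prop := ∀ c, sc (plat k w) = 2 ^ c → Mem (ZZ (plat k w)) (c - d)

/-- no position is out of range -/
def InR (k : ℕ) (w : List ℕ) : Prop := ∀ i ∈ w, i + 2 ≤ 2 * k

lemma InR_app {k : ℕ} {u v : List ℕ} : InR k (u ++ v) ↔ InR k u ∧ InR k v := by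
  constructor
  · intro h
    exact ⟨fun i hi => h i (List.mem_append_left _ hi), fun i hi => h i (List.mem_append_right _ hi)⟩
  · rintro ⟨h1, h2⟩ i hi
    rcases List.mem_append.1 hi with h | h
    · exact h1 i h
    · exact h2 i h

lemma InR_cons {k i : ℕ} {v : List ℕ} : InR k (i :: v) ↔ i + 2 ≤ 2 * k ∧ InR k v := by
  constructor
  · intro h
    exact ⟨h i (List.mem_cons_self), fun j hj => h j (List.mem_cons_of_mem _ hj)⟩
  · rintro ⟨h1, h2⟩ j hj
    rcases List.mem_cons.1 hj with h | h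
    · rw [h]; exact h1
    · exact h2 j h

lemma InR_nil {k : ℕ} : InR k [] := by intro i hi; simp at hi

/-- reducible words of length `n` are good when all shorter ones are -/
lemma red_good (n k : ℕ) (IH : ∀ k w, w.length < n → InR k w → Good 0 k w) (w : List ℕ)
    (hn : w.length = n) (hw : InR k w) (hr : Red w) : Good 0 k w := by
  rcases hr with ⟨u, i, v, rfl⟩ | ⟨j, v, rfl⟩
  · intro c hc
    have hR := hw
    rw [InR_app, InR_app, InR_cons, InR_cons] at hR
    have hc0 : sc (plat k (u ++ v)) = 2 ^ c := by rw [← sc_sq k u v i]; exact hc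
    obtain ⟨c1, hc1⟩ := hpow (plat k (u ++ [i] ++ v))
    have hle := iq_one k u v i c c1 hc0 hc1
    have l0 : (u ++ v).length < n := by rw [← hn]; simp
    have l1 : (u ++ [i] ++ v).length < n := by rw [← hn]; simp
    have m0 := IH k (u ++ v) l0 (InR_app.2 ⟨hR.1.1, hR.2⟩) c hc0
    have m1 := IH k (u ++ [i] ++ v) l1 (InR_app.2 ⟨InR_app.2 ⟨hR.1.1, InR_cons.2 ⟨hR.1.2.1, InR_nil⟩⟩, hR.2⟩) c1 hc1
    have m2 := (m0.poly (1 - (X + C 2))).add (m1.theta.mono (show c ≤ c1 + 1 by omega))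
    refine m2.congr fun q => ?_
    rw [Z_sq]
    simp
  · intro c hc
    have hR := InR_cons.1 hw
    have hc0 : sc (plat k v) = 2 ^ c := by rw [← sc_even k j v (by omega)]; exact hc
    have m0 := IH k v (by rw [← hn]; simp) hR.2 c hc0
    refine (m0.poly (X + 1)).congr fun q => ?_
    rw [Z_even _ _ _ _ (by omega)]
    simp

/-- canonical words are good when all shorter words are -/
lemma canon_good (n : ℕ) (IH : ∀ k w, w.length < n → InR k w → Good 0 k w) (k : ℕ) (w : List ℕ)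
    (hc : Canon k w) : w.length = n → Good 0 k w := by
  induction hc with
  | nil =>
    intro _ c hc
    have h1 : sc (plat 0 []) = 1 := by simp [plat, cups, caps, sc, sv]
    have h2 : c = 0 := by
      rw [h1] at hc
      exact (pow_inj' (c := 0) (by simpa using hc)).symm
    subst h2
    refine ⟨1, by simp, fun q => ?_⟩
    simp [plat, cups, caps, ZZ, ev]
  | snoc k w a hcan ha ih =>
    intro hn c hc
    by_cases h : a = 2 * k
    · rw [h, dsc_nil (le_refl _), List.append_nil] at hn hc ⊢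
      obtain ⟨c1, hc1⟩ := hpow (plat k w)
      have h3 : c = c1 + 1 := by
        rw [sc_loop k w hcan.valid, hc1, ← pow_succ'] at hc
        exact (pow_inj' hc).symm
      have m0 := ih hn c1 hc1
      subst h3
      exact m0.X.congr fun q => Z_loop k w q hcan.valid
    · obtain ⟨k', rfl⟩ : ∃ k', k = k' + 1 := ⟨k - 1, by omega⟩
      have e : 2 * (k' + 1) = 2 * k' + 1 + 1 := by ring
      rw [e, dsc_succ (show a ≤ 2 * k' + 1 by omega)] at hn hc ⊢
      have e2 : w ++ (2 * k' + 1) :: dsc a (2 * k' + 1) = w ++ [2 * k' + 1] ++ dsc a (2 * k' + 1) := by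
        simp
      rw [e2] at hn hc ⊢
      have hw := hcan.valid
      have hm : ∀ x ∈ dsc a (2 * k' + 1), x + 2 ≤ 2 * (k' + 1) := fun x hx => by
        have := mem_dsc hx; omega
      have m0 := IH (k' + 1) (w ++ dsc a (2 * k' + 1)) (by rw [← hn]; simp) (InR_app.2 ⟨hw, hm⟩) c
        (by rw [← hc]; exact (sc_kink k' w _ hw hm).symm)
      refine (m0.poly (X + 1)).congr fun q => ?_
      rw [Z_kink k' w _ q hw hm]
      simp

lemma BStp.len {w w' : List ℕ} (h : BStp w w') : w.length = w'.length := by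
  cases h <;> simp

lemma BStp.inr {w w' : List ℕ} (h : BStp w w') (k : ℕ) : InR k w ↔ InR k w' := by
  cases h with
  | comm u v i j h =>
    simp only [InR_app, InR_cons]; tauto
  | braid u v i =>
    simp only [InR_app, InR_cons]; tauto

lemma EStp.len {k : ℕ} {w w' : List ℕ} (h : EStp k w w') : w.length = w'.length := by
  cases h with
  | base _ _ h => exact h.len
  | slide v j h => simp

lemma EStp.inr {k : ℕ} {w w' : List ℕ} (h : EStp k w w') : InR k w ↔ InR k w' := by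
  cases h with
  | base _ _ h => exact h.inr k
  | slide v j h =>
    simp only [InR_app, InR_cons, InR_nil, and_true]
    constructor
    · rintro ⟨h1, h2⟩; exact ⟨by omega, h2⟩
    · rintro ⟨h1, h2⟩; exact ⟨by omega, h2⟩

/-- from braid moves to all words of length `n` -/
lemma good_of_braid (d n k : ℕ) (IH : ∀ k w, w.length < n → InR k w → Good 0 k w)
    (hbr : ∀ u v i, (u ++ [i, i + 1, i] ++ v).length = n → InR k (u ++ [i, i + 1, i] ++ v) →
      ∀ c, sc (plat k (u ++ [i, i + 1, i] ++ v)) = 2 ^ c →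
      Mem (fun q => ((q : ℤ) + 1 + 2) * (ZZ (plat k (u ++ [i] ++ v)) q -
        ZZ (plat k (u ++ [i + 1] ++ v)) q)) (c - d))
    (w : List ℕ) (hn : w.length = n) (hw : InR k w) : Good d k w := by
  have step : ∀ w w', EStp k w w' → w.length = n → InR k w → (Good d k w ↔ Good d k w') := by
    intro w w' h hn hw
    cases h with
    | base _ _ h =>
      cases h with
      | comm u v i j hij =>
        constructor
        · intro hg c hc
          exact (hg c (by rw [← hc]; exact sc_comm k u v i j hij)).congr fun q =>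
            (Z_comm k u v i j q hij).symm
        · intro hg c hc
          exact (hg c (by rw [← hc]; exact (sc_comm k u v i j hij).symm)).congr fun q =>
            (Z_comm k u v i j q hij)
      | braid u v i =>
        constructor
        · intro hg c hc
          have hc' : sc (plat k (u ++ [i, i + 1, i] ++ v)) = 2 ^ c := by
            rw [← hc]; exact sc_braid k u v i
          refine ((hg c hc').sub (hbr u v i hn hw c hc')).congr fun q => ?_
          have := Z_braid k u v i q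
          linarith
        · intro hg c hc
          have hc' : sc (plat k (u ++ [i + 1, i, i + 1] ++ v)) = 2 ^ c := by
            rw [← hc]; exact (sc_braid k u v i).symm
          refine ((hg c hc').add (hbr u v i hn hw c hc)).congr fun q => ?_
          have := Z_braid k u v i q
          linarith
    | slide v j hj =>
      constructor
      · intro hg c hc
        exact (hg c (by rw [← hc]; exact sc_slide k j v hj)).congr fun q =>
          (Z_slide k j v q hj).symm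
      · intro hg c hc
        exact (hg c (by rw [← hc]; exact (sc_slide k j v hj).symm)).congr fun q =>
          (Z_slide k j v q hj)
  have stepE : ∀ w w', EE k w w' → (w.length = w'.length) ∧ (InR k w ↔ InR k w') ∧
      (w.length = n → InR k w → (Good d k w ↔ Good d k w')) := by
    intro w w' h
    induction h with
    | rel x y h => exact ⟨h.len, h.inr, step x y h⟩
    | refl x => exact ⟨rfl, Iff.rfl, fun _ _ => Iff.rfl⟩
    | symm x y _ ih =>
      refine ⟨ih.1.symm, ih.2.1.symm, fun hn hw => (ih.2.2 (by rw [ih.1]; exact hn) (ih.2.1.2 hw)).symm⟩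
    | trans x y z _ _ ih1 ih2 =>
      refine ⟨ih1.1.trans ih2.1, ih1.2.1.trans ih2.2.1, fun hn hw => ?_⟩
      exact (ih1.2.2 hn hw).trans (ih2.2.2 (by rw [← ih1.1]; exact hn) (ih1.2.1.1 hw))
  obtain ⟨w', h1, h2⟩ := nf k w hw
  obtain ⟨e1, e2, e3⟩ := stepE w w' h1
  rw [e3 hn hw]
  have g0 : Good 0 k w' := by
    rcases h2 with h2 | h2
    · exact red_good n k IH w' (by rw [← e1]; exact hn) (e2.1 hw) h2
    · exact canon_good n IH k w' h2 (by rw [← e1]; exact hn)
  intro c hc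
  exact (g0 c hc).mono (by omega)

theorem plat_good (n : ℕ) : ∀ k w, w.length = n → InR k w → Good 0 k w := by
  induction n using Nat.strong_induction_on with
  | _ n IH0 =>
    have IH : ∀ k w, w.length < n → InR k w → Good 0 k w := fun k w h1 h2 => IH0 _ h1 k w rfl h2
    intro k
    -- phase 1
    have ph1 : ∀ w, w.length = n → InR k w → Good 1 k w := by
      intro w hn hw
      refine good_of_braid 1 n k IH ?_ w hn hw
      intro u v i hn hw c hc
      have hR := hw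
      simp only [InR_app, InR_cons] at hR
      obtain ⟨c1, hc1⟩ := hpow (plat k (u ++ [i] ++ v))
      obtain ⟨c2, hc2⟩ := hpow (plat k (u ++ [i + 1] ++ v))
      obtain ⟨c12, hc12⟩ := hpow (plat k (u ++ [i, i + 1] ++ v))
      obtain ⟨c21, hc21⟩ := hpow (plat k (u ++ [i + 1, i] ++ v))
      have i1 := iq_aba_ab k u v i c c12 hc hc12
      have i2 := iq_aba_ba k u v i c c21 hc hc21
      have i3 := iq_ab_a k u v i c12 c1 hc12 hc1
      have i4 := iq_ba_b k u v i c21 c2 hc21 hc2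
      have m1 := IH k (u ++ [i] ++ v) (by rw [← hn]; simp) (by simp only [InR_app, InR_cons]; tauto) c1 hc1
      have m2 := IH k (u ++ [i + 1] ++ v) (by rw [← hn]; simp) (by simp only [InR_app, InR_cons]; tauto) c2 hc2
      have m3 := ((m1.theta.mono (show c - 1 ≤ c1 + 1 by omega)).sub
        (m2.theta.mono (show c - 1 ≤ c2 + 1 by omega)))
      exact m3.congr fun q => by ring
    intro w hn hw
    refine good_of_braid 0 n k IH ?_ w hn hw
    intro u v i hn hw c hc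
    have hR := hw
    simp only [InR_app, InR_cons] at hR
    obtain ⟨c0, hc0⟩ := hpow (plat k (u ++ v))
    obtain ⟨c1, hc1⟩ := hpow (plat k (u ++ [i] ++ v))
    obtain ⟨c2, hc2⟩ := hpow (plat k (u ++ [i + 1] ++ v))
    obtain ⟨c12, hc12⟩ := hpow (plat k (u ++ [i, i + 1] ++ v))
    obtain ⟨c21, hc21⟩ := hpow (plat k (u ++ [i + 1, i] ++ v))
    have i1 := iq_aba_ab k u v i c c12 hc hc12
    have i2 := iq_aba_ba k u v i c c21 hc hc21
    have i3 := iq_ab_a k u v i c12 c1 hc12 hc1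
    have i4 := iq_ba_b k u v i c21 c2 hc21 hc2
    have i5 := iq_aba_nil k u v i c c0 hc hc0
    have m0 := IH k (u ++ v) (by rw [← hn]; simp; omega) (by simp only [InR_app]; tauto) c0 hc0
    have m1 := IH k (u ++ [i] ++ v) (by rw [← hn]; simp) (by simp only [InR_app, InR_cons]; tauto) c1 hc1
    have m2 := IH k (u ++ [i + 1] ++ v) (by rw [← hn]; simp) (by simp only [InR_app, InR_cons]; tauto) c2 hc2
    have m12 := IH k (u ++ [i, i + 1] ++ v) (by rw [← hn]; simp) (by simp only [InR_app, InR_cons]; tauto) c12 hc12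
    have m21 := IH k (u ++ [i + 1, i] ++ v) (by rw [← hn]; simp) (by simp only [InR_app, InR_cons]; tauto) c21 hc21
    have mw := ph1 _ hn hw c hc
    have s1 := (m12.mono (show c - 1 ≤ c12 - 0 by omega)).add (m21.mono (show c - 1 ≤ c21 - 0 by omega))
    have s2 := s1.add (m0.mono (show c - 1 ≤ c0 - 0 by omega))
    have s3 := s2.add (m1.theta.mono (show c - 1 ≤ c1 - 0 + 1 by omega))
    have s4 := s3.sub ((m0.poly (X + C 2)).mono (show c - 1 ≤ c0 - 0 by omega))
    have s5 := s4.sub mw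
    have s6 := s5.sub (m2.two.mono (show c - 1 ≤ c2 - 0 + 1 by omega))
    have s7 : Mem (fun q => ZZ (plat k (u ++ [i] ++ v)) q - ZZ (plat k (u ++ [i + 1] ++ v)) q) (c - 1) := by
      refine s6.congr fun q => ?_
      have := Z_tl k u v i q
      simp only [eval_add, eval_X, eval_C]
      linarith
    exact s7.theta.mono (by omega)

theorem plat_mem (k : ℕ) (w : List ℕ) (hw : ∀ i ∈ w, i + 2 ≤ 2 * k) (c : ℕ)
    (hc : sc (plat k w) = 2 ^ c) : Mem (ZZ (plat k w)) c :=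
  plat_good w.length k w rfl hw c hc

end Pool.Agent.Helper607.Tutte
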