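import Pool.Agent.Helper607.Tutte.Straight
import Pool.Agent.Helper607.Tutte.NF

/-!
# Plat closures of words in crossings
-/

set_option linter.unusedSectionVars false

namespace Pool.Agent.Helper607.Tutte

open Finset Polynomial

section Mem

lemma Mem.mono {F : ℕ → ℤ} {c c' : ℕ} (h : Mem F c) (hc : c' ≤ c) : Mem F c' := by
  obtain ⟨P, hP, h⟩ := h
  exact ⟨P, Ideal.pow_le_pow_right hc hP, h⟩

lemma Mem.add {F G : ℕ → ℤ} {c : ℕ} (h : Mem F c) (h' : Mem G c) : Mem (fun q => F q + G q) c := by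
  obtain ⟨P, hP, h⟩ := h
  obtain ⟨P', hP', h'⟩ := h'
  exact ⟨P + P', Ideal.add_mem _ hP hP', fun q => by simp only [h, h', eval_add]⟩

lemma Mem.neg {F : ℕ → ℤ} {c : ℕ} (h : Mem F c) : Mem (fun q => - F q) c := by
  obtain ⟨P, hP, h⟩ := h
  exact ⟨-P, neg_mem hP, fun q => by simp only [h, eval_neg]⟩

lemma Mem.sub {F G : ℕ → ℤ} {c : ℕ} (h : Mem F c) (h' : Mem G c) : Mem (fun q => F q - G q) c := by
  have := h.add h'.neg
  simpa [sub_eq_add_neg] using this

lemma Mem.poly {F : ℕ → ℤ} {c : ℕ} (h : Mem F c) (R : ℤ[X]) :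
    Mem (fun q => R.eval ((q : ℤ) + 1) * F q) c := by
  obtain ⟨P, hP, h⟩ := h
  exact ⟨R * P, Ideal.mul_mem_left _ _ hP, fun q => by simp only [h, eval_mul]⟩

lemma Mem.polyI {F : ℕ → ℤ} {c : ℕ} (h : Mem F c) (R : ℤ[X])
    (hR : R ∈ (Ideal.span {C 2, X} : Ideal ℤ[X])) :
    Mem (fun q => R.eval ((q : ℤ) + 1) * F q) (c + 1) := by
  obtain ⟨P, hP, h⟩ := h
  exact ⟨R * P, by rw [pow_succ']; exact Ideal.mul_mem_mul hR hP, fun q => by simp only [h, eval_mul]⟩

lemma memI_two : (C 2 : ℤ[X]) ∈ (Ideal.span {C 2, X} : Ideal ℤ[X]) :=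
  Ideal.subset_span (by simp)

lemma memI_X : (X : ℤ[X]) ∈ (Ideal.span {C 2, X} : Ideal ℤ[X]) :=
  Ideal.subset_span (by simp)

lemma Mem.two {F : ℕ → ℤ} {c : ℕ} (h : Mem F c) : Mem (fun q => 2 * F q) (c + 1) := by
  have := h.polyI _ memI_two
  simpa using this

lemma Mem.X {F : ℕ → ℤ} {c : ℕ} (h : Mem F c) : Mem (fun q => ((q : ℤ) + 1) * F q) (c + 1) := by
  have := h.polyI _ memI_X
  simpa using this

lemma Mem.theta {F : ℕ → ℤ} {c : ℕ} (h : Mem F c) :
    Mem (fun q => ((q : ℤ) + 1 + 2) * F q) (c + 1) := by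
  have := h.polyI _ (Ideal.add_mem _ memI_X memI_two)
  simpa using this

lemma Mem.congr {F G : ℕ → ℤ} {c : ℕ} (h : Mem F c) (hFG : ∀ q, G q = F q) : Mem G c := by
  obtain ⟨P, hP, h⟩ := h
  exact ⟨P, hP, fun q => by rw [hFG, h]⟩

end Mem

section Ops

variable {Q : Type} [Fintype Q] [DecidableEq Q]

/-- operator of a word in crossings -/
def YW (w : List ℕ) : Module.End ℤ ((ℕ → Q) → ℤ) := evL (w.map Lt.y)

/-- straight operator of a word in crossings -/
def SW (w : List ℕ) : Module.End ℤ ((ℕ → Q) → ℤ) := svL (w.map Lt.y)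

lemma YW_append (u v : List ℕ) : YW (Q := Q) (u ++ v) = YW u * YW v := by
  simp only [YW, List.map_append, evL_append]

lemma SW_append (u v : List ℕ) : SW (Q := Q) (u ++ v) = SW u * SW v := by
  simp only [SW, List.map_append, svL_append]

lemma YW_cons (i : ℕ) (v : List ℕ) : YW (Q := Q) (i :: v) = yL i * YW v := rfl
lemma SW_cons (i : ℕ) (v : List ℕ) : SW (Q := Q) (i :: v) = sL i * SW v := rfl
lemma YW_nil : YW (Q := Q) [] = 1 := rfl
lemma SW_nil : SW (Q := Q) [] = 1 := rfl

lemma cups_succ (k : ℕ) : cups (k + 1) = cups k ++ [Lt.cup (2 * k)] := by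
  simp [cups, List.range_succ]

lemma caps_succ (k : ℕ) : caps (k + 1) = [Lt.cap (2 * k)] ++ caps k := by
  simp [caps, List.range_succ]

lemma evL_cups_succ (k : ℕ) : evL (Q := Q) (cups (k + 1)) = evL (cups k) * cupL (2 * k) := by
  rw [cups_succ, evL_append]; simp [evL]

lemma evL_caps_succ (k : ℕ) : evL (Q := Q) (caps (k + 1)) = capL (2 * k) * evL (caps k) := by
  rw [caps_succ, evL_append]; simp [evL]

lemma svL_cups_succ (k : ℕ) : svL (Q := Q) (cups (k + 1)) = svL (cups k) * cupL (2 * k) := by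
  rw [cups_succ, svL_append]; simp [svL]

lemma svL_caps_succ (k : ℕ) : svL (Q := Q) (caps (k + 1)) = capL (2 * k) * svL (caps k) := by
  rw [caps_succ, svL_append]; simp [svL]

lemma cup_YW (N : ℕ) (w : List ℕ) (h : ∀ x ∈ w, x + 2 ≤ N) :
    cupL (Q := Q) N * YW w = YW w * cupL N := by
  induction w with
  | nil => simp [YW_nil]
  | cons i w ih =>
    rw [YW_cons, ← mul_assoc, cup_y_far N i (h i (List.mem_cons_self)), mul_assoc,
      ih (fun x hx => h x (List.mem_cons_of_mem _ hx)), mul_assoc]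

lemma YW_cap (N : ℕ) (w : List ℕ) (h : ∀ x ∈ w, x + 2 ≤ N) :
    YW (Q := Q) w * capL N = capL N * YW w := by
  induction w with
  | nil => simp [YW_nil]
  | cons i w ih =>
    rw [YW_cons, mul_assoc, ih (fun x hx => h x (List.mem_cons_of_mem _ hx)), ← mul_assoc,
      y_cap_far N i (h i (List.mem_cons_self)), mul_assoc]

lemma cup_SW (N : ℕ) (w : List ℕ) (h : ∀ x ∈ w, x + 2 ≤ N) :
    cupL (Q := Q) N * SW w = SW w * cupL N := by
  induction w with
  | nil => simp [SW_nil]
  | cons i w ih =>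
    rw [SW_cons, ← mul_assoc, cup_s_far N i (h i (List.mem_cons_self)), mul_assoc,
      ih (fun x hx => h x (List.mem_cons_of_mem _ hx)), mul_assoc]

lemma SW_cap (N : ℕ) (w : List ℕ) (h : ∀ x ∈ w, x + 2 ≤ N) :
    SW (Q := Q) w * capL N = capL N * SW w := by
  induction w with
  | nil => simp [SW_nil]
  | cons i w ih =>
    rw [SW_cons, mul_assoc, ih (fun x hx => h x (List.mem_cons_of_mem _ hx)), ← mul_assoc,
      s_cap_far N i (h i (List.mem_cons_self)), mul_assoc]

lemma cups_y (k j : ℕ) (h : j < k) :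
    evL (Q := Q) (cups k) * yL (2 * j) = ((Fintype.card Q : ℤ) + 1) • evL (cups k) := by
  induction k with
  | zero => omega
  | succ k ih =>
    rw [evL_cups_succ]
    by_cases h1 : j = k
    · subst h1; rw [mul_assoc, cup_y, mul_smul_comm]
    · rw [mul_assoc, cup_y_far (2 * k) (2 * j) (by omega), ← mul_assoc, ih (by omega),
        smul_mul_assoc]

lemma cups_s (k j : ℕ) (h : j < k) :
    svL (Q := Q) (cups k) * sL (2 * j) = svL (cups k) := by
  induction k with
  | zero => omega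
  | succ k ih =>
    rw [svL_cups_succ]
    by_cases h1 : j = k
    · subst h1; rw [mul_assoc, cup_s]
    · rw [mul_assoc, cup_s_far (2 * k) (2 * j) (by omega), ← mul_assoc, ih (by omega)]

lemma cups_slide_y (k j : ℕ) (h : j + 2 ≤ k) :
    evL (Q := Q) (cups k) * (yL (2 * j + 1) * yL (2 * j)) =
      evL (cups k) * (yL (2 * j + 1) * yL (2 * j + 2)) := by
  induction k with
  | zero => omega
  | succ k ih =>
    by_cases h1 : j + 2 = k + 1
    · obtain rfl : k = j + 1 := by omega
      rw [evL_cups_succ, evL_cups_succ]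
      have := y_slide (Q := Q) (2 * j)
      have e : 2 * (j + 1) = 2 * j + 2 := by ring
      rw [e]
      simp only [mul_assoc] at this ⊢
      rw [this]
    · rw [evL_cups_succ]
      have ih' := ih (by omega)
      have c1 := cup_y_far (Q := Q) (2 * k) (2 * j + 1) (by omega)
      have c2 := cup_y_far (Q := Q) (2 * k) (2 * j) (by omega)
      have c3 := cup_y_far (Q := Q) (2 * k) (2 * j + 2) (by omega)
      have e1 : evL (cups k) * cupL (Q := Q) (2 * k) * (yL (2 * j + 1) * yL (2 * j)) =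
          evL (cups k) * (yL (2 * j + 1) * yL (2 * j)) * cupL (2 * k) := by
        simp only [mul_assoc]; rw [← mul_assoc (cupL (2 * k)), c1, mul_assoc, c2]
      have e2 : evL (cups k) * cupL (Q := Q) (2 * k) * (yL (2 * j + 1) * yL (2 * j + 2)) =
          evL (cups k) * (yL (2 * j + 1) * yL (2 * j + 2)) * cupL (2 * k) := by
        simp only [mul_assoc]; rw [← mul_assoc (cupL (2 * k)), c1, mul_assoc, c3]
      rw [e1, e2, ih']

lemma cups_slide_s (k j : ℕ) (h : j + 2 ≤ k) :
    svL (Q := Q) (cups k) * (sL (2 * j + 1) * sL (2 * j)) =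
      svL (cups k) * (sL (2 * j + 1) * sL (2 * j + 2)) := by
  induction k with
  | zero => omega
  | succ k ih =>
    by_cases h1 : j + 2 = k + 1
    · obtain rfl : k = j + 1 := by omega
      rw [svL_cups_succ, svL_cups_succ]
      have := s_slide (Q := Q) (2 * j)
      have e : 2 * (j + 1) = 2 * j + 2 := by ring
      rw [e]
      simp only [mul_assoc] at this ⊢
      rw [this]
    · rw [svL_cups_succ]
      have ih' := ih (by omega)
      have c1 := cup_s_far (Q := Q) (2 * k) (2 * j + 1) (by omega)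
      have c2 := cup_s_far (Q := Q) (2 * k) (2 * j) (by omega)
      have c3 := cup_s_far (Q := Q) (2 * k) (2 * j + 2) (by omega)
      have e1 : svL (cups k) * cupL (Q := Q) (2 * k) * (sL (2 * j + 1) * sL (2 * j)) =
          svL (cups k) * (sL (2 * j + 1) * sL (2 * j)) * cupL (2 * k) := by
        simp only [mul_assoc]; rw [← mul_assoc (cupL (2 * k)), c1, mul_assoc, c2]
      have e2 : svL (cups k) * cupL (Q := Q) (2 * k) * (sL (2 * j + 1) * sL (2 * j + 2)) =
          svL (cups k) * (sL (2 * j + 1) * sL (2 * j + 2)) * cupL (2 * k) := by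
        simp only [mul_assoc]; rw [← mul_assoc (cupL (2 * k)), c1, mul_assoc, c3]
      rw [e1, e2, ih']

/-- closed loop at the end -/
lemma close_loop (k : ℕ) (w : List ℕ) (h : ∀ x ∈ w, x + 2 ≤ 2 * k) :
    evL (Q := Q) (cups (k + 1)) * YW w * evL (caps (k + 1)) =
      (Fintype.card Q : ℤ) • (evL (cups k) * YW w * evL (caps k)) := by
  rw [evL_cups_succ, evL_caps_succ]
  calc evL (Q := Q) (cups k) * cupL (2 * k) * YW w * (capL (2 * k) * evL (caps k))
      = evL (cups k) * (cupL (2 * k) * YW w) * capL (2 * k) * evL (caps k) := by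
        simp only [mul_assoc]
    _ = evL (cups k) * YW w * (cupL (2 * k) * capL (2 * k)) * evL (caps k) := by
        rw [cup_YW _ _ h]; simp only [mul_assoc]
    _ = _ := by rw [cup_cap]; simp only [mul_smul_comm, smul_mul_assoc, mul_one]

lemma close_loop_s (k : ℕ) (w : List ℕ) (h : ∀ x ∈ w, x + 2 ≤ 2 * k) :
    svL (Q := Q) (cups (k + 1)) * SW w * svL (caps (k + 1)) =
      (Fintype.card Q : ℤ) • (svL (cups k) * SW w * svL (caps k)) := by
  rw [svL_cups_succ, svL_caps_succ]
  calc svL (Q := Q) (cups k) * cupL (2 * k) * SW w * (capL (2 * k) * svL (caps k))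
      = svL (cups k) * (cupL (2 * k) * SW w) * capL (2 * k) * svL (caps k) := by
        simp only [mul_assoc]
    _ = svL (cups k) * SW w * (cupL (2 * k) * capL (2 * k)) * svL (caps k) := by
        rw [cup_SW _ _ h]; simp only [mul_assoc]
    _ = _ := by rw [cup_cap]; simp only [mul_smul_comm, smul_mul_assoc, mul_one]

/-- kink at the end -/
lemma close_kink (k : ℕ) (w m : List ℕ) (h : ∀ x ∈ w, x + 2 ≤ 2 * (k + 1))
    (h' : ∀ x ∈ m, x + 2 ≤ 2 * (k + 1)) :
    evL (Q := Q) (cups (k + 2)) * YW (w ++ [2 * k + 1] ++ m) * evL (caps (k + 2)) =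
      ((Fintype.card Q : ℤ) + 1) • (evL (cups (k + 1)) * YW (w ++ m) * evL (caps (k + 1))) := by
  have e : 2 * (k + 1) = 2 * k + 1 + 1 := by ring
  rw [evL_cups_succ (k + 1), evL_caps_succ (k + 1), YW_append, YW_append, YW_append]
  have e3 : YW (Q := Q) [2 * k + 1] = yL (2 * k + 1) := by simp [YW_cons, YW_nil]
  rw [e3]
  calc evL (Q := Q) (cups (k + 1)) * cupL (2 * (k + 1)) * (YW w * yL (2 * k + 1) * YW m) *
        (capL (2 * (k + 1)) * evL (caps (k + 1)))
      = evL (cups (k + 1)) * (cupL (2 * (k + 1)) * YW w) * yL (2 * k + 1) *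
          (YW m * capL (2 * (k + 1))) * evL (caps (k + 1)) := by simp only [mul_assoc]
    _ = evL (cups (k + 1)) * YW w * (cupL (2 * (k + 1)) * yL (2 * k + 1) *
          capL (2 * (k + 1))) * YW m * evL (caps (k + 1)) := by
        rw [cup_YW _ _ h, YW_cap _ _ h']; simp only [mul_assoc]
    _ = _ := by rw [e, cup_y_cap]; simp only [mul_smul_comm, smul_mul_assoc, mul_one, mul_assoc]

lemma close_kink_s (k : ℕ) (w m : List ℕ) (h : ∀ x ∈ w, x + 2 ≤ 2 * (k + 1))
    (h' : ∀ x ∈ m, x + 2 ≤ 2 * (k + 1)) :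
    svL (Q := Q) (cups (k + 2)) * SW (w ++ [2 * k + 1] ++ m) * svL (caps (k + 2)) =
      svL (cups (k + 1)) * SW (w ++ m) * svL (caps (k + 1)) := by
  have e : 2 * (k + 1) = 2 * k + 1 + 1 := by ring
  rw [svL_cups_succ (k + 1), svL_caps_succ (k + 1), SW_append, SW_append, SW_append]
  have e3 : SW (Q := Q) [2 * k + 1] = sL (2 * k + 1) := by simp [SW_cons, SW_nil]
  rw [e3]
  calc svL (Q := Q) (cups (k + 1)) * cupL (2 * (k + 1)) * (SW w * sL (2 * k + 1) * SW m) *
        (capL (2 * (k + 1)) * svL (caps (k + 1)))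
      = svL (cups (k + 1)) * (cupL (2 * (k + 1)) * SW w) * sL (2 * k + 1) *
          (SW m * capL (2 * (k + 1))) * svL (caps (k + 1)) := by simp only [mul_assoc]
    _ = svL (cups (k + 1)) * SW w * (cupL (2 * (k + 1)) * sL (2 * k + 1) *
          capL (2 * (k + 1))) * SW m * svL (caps (k + 1)) := by
        rw [cup_SW _ _ h, SW_cap _ _ h']; simp only [mul_assoc]
    _ = _ := by rw [e, cup_s_cap]; simp only [mul_one, mul_assoc]

end Ops

end Pool.Agent.Helper607.Tutte
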