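import Pool.Agent.Helper607.Tutte.Defs

/-!
# The operators of the letters as elements of a ring, and their relations
-/

set_option linter.unusedSectionVars false

namespace Pool.Agent.Helper607.Tutte

open Finset

section Rels

variable {Q : Type} [Fintype Q] [DecidableEq Q]

/-- operator of a cup -/
def cupL (i : ℕ) : Module.End ℤ ((ℕ → Q) → ℤ) where
  toFun := opCup i
  map_add' F G := by funext L; simp [opCup, Finset.sum_add_distrib]
  map_smul' c F := by funext L; simp [opCup, Finset.mul_sum]

/-- operator of a cap -/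
def capL (i : ℕ) : Module.End ℤ ((ℕ → Q) → ℤ) where
  toFun := opCap i
  map_add' F G := by funext L; simp only [opCap, Pi.add_apply]; split_ifs <;> simp
  map_smul' c F := by funext L; simp only [opCap, Pi.smul_apply, RingHom.id_apply]; split_ifs <;> simp

/-- operator of a cap followed by a cup -/
def eL (i : ℕ) : Module.End ℤ ((ℕ → Q) → ℤ) where
  toFun := opE i
  map_add' F G := by
    funext L; simp only [opE, Pi.add_apply]; split_ifs <;> simp [Finset.sum_add_distrib]
  map_smul' c F := by
    funext L; simp only [opE, Pi.smul_apply, RingHom.id_apply]; split_ifs <;> simp [Finset.mul_sum]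

/-- operator of a straight crossing -/
def sL (i : ℕ) : Module.End ℤ ((ℕ → Q) → ℤ) where
  toFun F := fun L => F (sw i L)
  map_add' F G := by funext L; simp
  map_smul' c F := by funext L; simp

/-- crossing -/
def yL (i : ℕ) : Module.End ℤ ((ℕ → Q) → ℤ) := 1 + eL i

/-- `ev` as an element of the ring -/
def evL : List Lt → Module.End ℤ ((ℕ → Q) → ℤ)
  | [] => 1
  | Lt.cup i :: W => cupL i * evL W
  | Lt.cap i :: W => capL i * evL W
  | Lt.y i :: W => yL i * evL W

/-- `sv` as an element of the ring -/
def svL : List Lt → Module.End ℤ ((ℕ → Q) → ℤ)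
  | [] => 1
  | Lt.cup i :: W => cupL i * svL W
  | Lt.cap i :: W => capL i * svL W
  | Lt.y i :: W => sL i * svL W

lemma ev_eq (W : List Lt) (F : (ℕ → Q) → ℤ) : ev W F = evL W F := by
  induction W with
  | nil => rfl
  | cons l W ih =>
    cases l with
    | cup i => simp only [ev, evL, Module.End.mul_apply, ← ih]; rfl
    | cap i => simp only [ev, evL, Module.End.mul_apply, ← ih]; rfl
    | y i => simp only [ev, evL, Module.End.mul_apply, ← ih]; rfl

lemma sv_eq (W : List Lt) (F : (ℕ → Q) → ℤ) : sv W F = svL W F := by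
  induction W with
  | nil => rfl
  | cons l W ih =>
    cases l with
    | cup i => simp only [sv, svL, Module.End.mul_apply, ← ih]; rfl
    | cap i => simp only [sv, svL, Module.End.mul_apply, ← ih]; rfl
    | y i => simp only [sv, svL, Module.End.mul_apply, ← ih]; rfl

lemma evL_append (W W' : List Lt) : evL (Q := Q) (W ++ W') = evL W * evL W' := by
  induction W with
  | nil => simp [evL]
  | cons l W ih => cases l <;> simp [evL, ih, mul_assoc]

lemma svL_append (W W' : List Lt) : svL (Q := Q) (W ++ W') = svL W * svL W' := by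
  induction W with
  | nil => simp [svL]
  | cons l W ih => cases l <;> simp [svL, ih, mul_assoc]

/-! ### relations -/

lemma cupL_apply (i : ℕ) (F : (ℕ → Q) → ℤ) (L : ℕ → Q) : cupL i F L = ∑ x, F (ins i x L) := rfl
lemma capL_apply (i : ℕ) (F : (ℕ → Q) → ℤ) (L : ℕ → Q) :
    capL i F L = if L i = L (i + 1) then F (del i L) else 0 := rfl
lemma eL_apply (i : ℕ) (F : (ℕ → Q) → ℤ) (L : ℕ → Q) :
    eL i F L = if L i = L (i + 1) then ∑ x, F (st i x L) else 0 := rfl
lemma sL_apply (i : ℕ) (F : (ℕ → Q) → ℤ) (L : ℕ → Q) : sL i F L = F (sw i L) := rfl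

lemma st_st (i : ℕ) (x z : Q) (L : ℕ → Q) : st i z (st i x L) = st i z L := by
  funext n; simp only [st]; split_ifs <;> rfl

lemma e_sq (i : ℕ) : eL (Q := Q) i * eL i = (Fintype.card Q : ℤ) • eL i := by
  ext F L
  simp only [Module.End.mul_apply, eL_apply, LinearMap.smul_apply, Pi.smul_apply, st_st]
  by_cases h : L i = L (i + 1)
  · have h1 : ∀ x : Q, (st i x L) i = (st i x L) (i + 1) := by intro x; simp [st]
    simp only [h, if_true, h1, Finset.sum_const, Finset.card_univ]
    simp
  · simp [h]

lemma e_comm (i j : ℕ) (h : i + 2 ≤ j) : eL (Q := Q) i * eL j = eL j * eL i := by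
  ext F L
  simp only [Module.End.mul_apply, eL_apply]
  have h1 : ∀ x : Q, (st i x L) j = L j ∧ (st i x L) (j + 1) = L (j + 1) := by
    intro x; constructor <;> simp only [st] <;> rw [if_neg (by omega)]
  have h2 : ∀ x : Q, (st j x L) i = L i ∧ (st j x L) (i + 1) = L (i + 1) := by
    intro x; constructor <;> simp only [st] <;> rw [if_neg (by omega)]
  have h3 : ∀ x z : Q, st j z (st i x L) = st i x (st j z L) := by
    intro x z; funext n; simp only [st]
    by_cases a : n = i ∨ n = i + 1 <;> by_cases b : n = j ∨ n = j + 1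
    · omega
    · simp [a, b]
    · simp [a, b]
    · simp [a, b]
  simp only [(h1 _).1, (h1 _).2, (h2 _).1, (h2 _).2]
  by_cases a : L i = L (i + 1) <;> by_cases b : L j = L (j + 1)
  · simp only [a, b, if_true]
    rw [Finset.sum_comm]
    exact Finset.sum_congr rfl fun x _ => Finset.sum_congr rfl fun z _ => by rw [h3]
  · simp [a, b]
  · simp [a, b]
  · simp [a, b]

lemma e_e1_e (i : ℕ) : eL (Q := Q) i * eL (i + 1) * eL i = eL i := by
  ext F L
  simp only [Module.End.mul_apply, eL_apply]
  by_cases a : L i = L (i + 1)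
  · simp only [a, if_true]
    have h1 : ∀ x : Q, (st i x L) (i + 1) = x ∧ (st i x L) (i + 1 + 1) = L (i + 2) := by
      intro x; constructor
      · simp [st]
      · simp only [st]; rw [if_neg (by omega)]
    have h2 : ∀ x z : Q, (st (i + 1) z (st i x L)) i = x ∧ (st (i + 1) z (st i x L)) (i + 1) = z := by
      intro x z; constructor
      · simp only [st]; rw [if_neg (by omega), if_pos (by simp)]
      · simp [st]
    simp only [(h1 _).1, (h1 _).2, (h2 _ _).1, (h2 _ _).2]
    rw [Finset.sum_ite_eq' Finset.univ (L (i + 2)), if_pos (Finset.mem_univ _),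
      Finset.sum_ite_eq Finset.univ (L (i + 2)), if_pos (Finset.mem_univ _)]
    refine Finset.sum_congr rfl fun x _ => congrArg F ?_
    funext n
    simp only [st]
    by_cases b : n = i ∨ n = i + 1
    · simp [b]
    · by_cases c : n = i + 2
      · subst c; simp
      · rw [if_neg b, if_neg (by omega), if_neg b, if_neg b]
  · simp [a]

lemma e1_e_e1 (i : ℕ) : eL (Q := Q) (i + 1) * eL i * eL (i + 1) = eL (i + 1) := by
  ext F L
  simp only [Module.End.mul_apply, eL_apply]
  by_cases a : L (i + 1) = L (i + 1 + 1)
  · simp only [a, if_true]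
    have h1 : ∀ x : Q, (st (i + 1) x L) i = L i ∧ (st (i + 1) x L) (i + 1) = x := by
      intro x; constructor
      · simp only [st]; rw [if_neg (by omega)]
      · simp [st]
    have h2 : ∀ x z : Q, (st i z (st (i + 1) x L)) (i + 1) = z ∧
        (st i z (st (i + 1) x L)) (i + 1 + 1) = x := by
      intro x z; constructor
      · simp [st]
      · have : ¬ (i + 1 + 1 = i ∨ i + 1 + 1 = i + 1) := by omega
        simp only [st]; rw [if_neg this]; simp
    simp only [(h1 _).1, (h1 _).2, (h2 _ _).1, (h2 _ _).2]
    rw [Finset.sum_ite_eq Finset.univ (L i), if_pos (Finset.mem_univ _),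
      Finset.sum_ite_eq' Finset.univ (L i), if_pos (Finset.mem_univ _)]
    refine Finset.sum_congr rfl fun x _ => congrArg F ?_
    funext n
    simp only [st]
    by_cases b : n = i + 1 ∨ n = i + 1 + 1
    · simp [b]
    · by_cases c : n = i
      · subst c; simp
      · rw [if_neg b, if_neg (by omega), if_neg b, if_neg b]
  · simp [a]

/-! ### relations with cups and caps -/

lemma cup_e (i : ℕ) : cupL (Q := Q) i * eL i = (Fintype.card Q : ℤ) • cupL i := by
  ext F L
  simp only [Module.End.mul_apply, cupL_apply, eL_apply, LinearMap.smul_apply, Pi.smul_apply]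
  have h1 : ∀ x : Q, (ins i x L) i = x ∧ (ins i x L) (i + 1) = x := by
    intro x; constructor <;> simp [ins]
  have h2 : ∀ x z : Q, st i z (ins i x L) = ins i z L := by
    intro x z; funext n; simp only [st, ins]
    by_cases a : n = i ∨ n = i + 1
    · rw [if_pos a, if_neg (by omega), if_pos (by omega)]
    · rw [if_neg a]
      by_cases b : n < i
      · rw [if_pos b, if_pos b]
      · rw [if_neg b, if_neg (by omega), if_neg b, if_neg (by omega)]
  simp only [(h1 _).1, (h1 _).2, h2, if_true, Finset.sum_const, Finset.card_univ]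
  simp

lemma cup_cap (i : ℕ) : cupL (Q := Q) i * capL i = (Fintype.card Q : ℤ) • 1 := by
  ext F L
  simp only [Module.End.mul_apply, cupL_apply, capL_apply, LinearMap.smul_apply, Pi.smul_apply,
    Module.End.one_apply]
  have h1 : ∀ x : Q, (ins i x L) i = x ∧ (ins i x L) (i + 1) = x := by
    intro x; constructor <;> simp [ins]
  have h2 : ∀ x : Q, del i (ins i x L) = L := by
    intro x; funext n; simp only [del, ins]
    by_cases b : n < i
    · rw [if_pos b, if_pos b]
    · rw [if_neg b, if_neg (by omega), if_neg (by omega)]; simp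
  simp only [(h1 _).1, (h1 _).2, h2, if_true, Finset.sum_const, Finset.card_univ]
  simp

/-- a strand with a kink -/
lemma cup_e_cap (i : ℕ) : cupL (Q := Q) (i + 1) * eL i * capL (i + 1) = 1 := by
  ext F L
  simp only [Module.End.mul_apply, cupL_apply, capL_apply, eL_apply, Module.End.one_apply]
  have h1 : ∀ x : Q, (ins (i + 1) x L) i = L i ∧ (ins (i + 1) x L) (i + 1) = x := by
    intro x; constructor <;> simp [ins]
  have h3 : ∀ x z : Q, (st i z (ins (i + 1) x L)) (i + 1) = z ∧
      (st i z (ins (i + 1) x L)) (i + 1 + 1) = x := by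
    intro x z; constructor
    · simp [st]
    · simp only [st]
      have : ¬ (i + 1 + 1 = i ∨ i + 1 + 1 = i + 1) := by omega
      rw [if_neg this]; simp [ins]
  simp only [(h1 _).1, (h1 _).2, (h3 _ _).1, (h3 _ _).2]
  rw [Finset.sum_ite_eq Finset.univ (L i), if_pos (Finset.mem_univ _),
    Finset.sum_ite_eq' Finset.univ (L i), if_pos (Finset.mem_univ _)]
  congr 1
  funext n
  simp only [del, st, ins]
  by_cases a : n < i + 1
  · rw [if_pos a]
    by_cases b : n = i
    · rw [if_pos (Or.inl b), b]
    · rw [if_neg (by omega), if_pos a]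
  · rw [if_neg a, if_neg (by omega), if_neg (by omega), if_neg (by omega)]; simp

lemma cup_e_far (N j : ℕ) (h : j + 2 ≤ N) : cupL (Q := Q) N * eL j = eL j * cupL N := by
  ext F L
  simp only [Module.End.mul_apply, cupL_apply, eL_apply]
  have h1 : ∀ x : Q, (ins N x L) j = L j ∧ (ins N x L) (j + 1) = L (j + 1) := by
    intro x; constructor <;> simp only [ins] <;> rw [if_pos (by omega)]
  have h2 : ∀ x z : Q, st j z (ins N x L) = ins N x (st j z L) := by
    intro x z; funext n; simp only [st, ins]
    by_cases a : n = j ∨ n = j + 1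
    · rw [if_pos a, if_pos (by omega), if_pos a]
    · rw [if_neg a]
      by_cases b : n < N
      · rw [if_pos b, if_pos b, if_neg a]
      · rw [if_neg b, if_neg b]
        by_cases c : n < N + 2
        · rw [if_pos c, if_pos c]
        · rw [if_neg c, if_neg c, if_neg (by omega)]
  simp only [(h1 _).1, (h1 _).2, h2]
  by_cases a : L j = L (j + 1)
  · simp only [a, if_true]; rw [Finset.sum_comm]
  · simp [a]

lemma e_cap_far (N j : ℕ) (h : j + 2 ≤ N) : eL (Q := Q) j * capL N = capL N * eL j := by
  ext F L
  simp only [Module.End.mul_apply, capL_apply, eL_apply]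
  have h1 : ∀ x : Q, (st j x L) N = L N ∧ (st j x L) (N + 1) = L (N + 1) := by
    intro x; constructor <;> simp only [st] <;> rw [if_neg (by omega)]
  have h0 : (del N L) j = L j ∧ (del N L) (j + 1) = L (j + 1) := by
    constructor <;> simp only [del] <;> rw [if_pos (by omega)]
  have h2 : ∀ z : Q, st j z (del N L) = del N (st j z L) := by
    intro z; funext n; simp only [st, del]
    by_cases a : n = j ∨ n = j + 1
    · rw [if_pos a, if_pos (by omega), if_pos a]
    · rw [if_neg a]
      by_cases b : n < N
      · rw [if_pos b, if_pos b, if_neg a]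
      · rw [if_neg b, if_neg b, if_neg (by omega)]
  simp only [(h1 _).1, (h1 _).2, h0.1, h0.2, h2]
  by_cases a : L j = L (j + 1) <;> by_cases b : L N = L (N + 1) <;> simp [a, b]

/-- two cups side by side: sliding a strand over the left or the right one -/
lemma cup_cup_e_e (i : ℕ) :
    cupL (Q := Q) i * cupL (i + 2) * eL (i + 1) * eL i = cupL i * cupL (i + 2) ∧
    cupL (Q := Q) i * cupL (i + 2) * eL (i + 1) * eL (i + 2) = cupL i * cupL (i + 2) := by
  have key : ∀ (F : (ℕ → Q) → ℤ) (L : ℕ → Q), (cupL (Q := Q) i * cupL (i + 2) * eL (i + 1) :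
      Module.End ℤ ((ℕ → Q) → ℤ)) F L = ∑ x, ∑ z, F (st (i + 1) z (ins (i + 2) x (ins i x L))) := by
    intro F L
    simp only [Module.End.mul_apply, cupL_apply, eL_apply]
    have h1 : ∀ x z : Q, (ins (i + 2) z (ins i x L)) (i + 1) = x ∧
        (ins (i + 2) z (ins i x L)) (i + 1 + 1) = z := by
      intro x z; constructor
      · simp [ins]
      · simp [ins]
    simp only [(h1 _ _).1, (h1 _ _).2]
    refine Finset.sum_congr rfl fun x _ => ?_
    rw [Finset.sum_ite_eq Finset.univ x, if_pos (Finset.mem_univ _)]
  constructor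
  · ext F L
    rw [Module.End.mul_apply, key]
    simp only [Module.End.mul_apply, cupL_apply, eL_apply]
    have h1 : ∀ x z : Q, (st (i + 1) z (ins (i + 2) x (ins i x L))) i = x ∧
        (st (i + 1) z (ins (i + 2) x (ins i x L))) (i + 1) = z := by
      intro x z; constructor
      · have : ¬ (i = i + 1 ∨ i = i + 1 + 1) := by omega
        simp only [st]; rw [if_neg this]; simp [ins]
      · simp [st]
    simp only [(h1 _ _).1, (h1 _ _).2]
    have h2 : ∀ x, (∑ z, if x = z then ∑ u, F (st i u (st (i + 1) z (ins (i + 2) x (ins i x L)))) else 0)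
        = ∑ u, F (ins (i + 2) x (ins i u L)) := by
      intro x
      rw [Finset.sum_ite_eq Finset.univ x, if_pos (Finset.mem_univ _)]
      refine Finset.sum_congr rfl fun u _ => congrArg F ?_
      funext n
      simp only [st, ins]
      by_cases a : n = i ∨ n = i + 1
      · rw [if_pos a, if_pos (by omega), if_neg (by omega), if_pos (by omega)]
      · rw [if_neg a]
        by_cases b : n = i + 2
        · subst b; simp
        · rw [if_neg (by omega)]
          by_cases c : n < i + 2
          · have hn : n < i := by omega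
            simp [c, hn]
          · rw [if_neg c, if_neg c]
            by_cases d : n < i + 2 + 2
            · rw [if_pos d, if_pos d]
            · have d1 : ¬ n - 2 < i := by omega
              have d2 : ¬ n - 2 < i + 2 := by omega
              simp [d, d1, d2]
    simp only [h2]
    rw [Finset.sum_comm]
  · ext F L
    rw [Module.End.mul_apply, key]
    simp only [Module.End.mul_apply, cupL_apply, eL_apply]
    have h1 : ∀ x z : Q, (st (i + 1) z (ins (i + 2) x (ins i x L))) (i + 2) = z ∧
        (st (i + 1) z (ins (i + 2) x (ins i x L))) (i + 2 + 1) = x := by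
      intro x z; constructor
      · simp [st]
      · have : ¬ (i + 2 + 1 = i + 1 ∨ i + 2 + 1 = i + 1 + 1) := by omega
        simp only [st]; rw [if_neg this]; simp [ins]
    simp only [(h1 _ _).1, (h1 _ _).2]
    refine Finset.sum_congr rfl fun x _ => ?_
    rw [Finset.sum_ite_eq' Finset.univ x, if_pos (Finset.mem_univ _)]
    refine Finset.sum_congr rfl fun u _ => congrArg F ?_
    funext n
    simp only [st, ins]
    by_cases a : n = i + 2 ∨ n = i + 2 + 1
    · rw [if_pos a, if_neg (by omega), if_pos (by omega)]
    · rw [if_neg a]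
      by_cases b : n = i + 1
      · subst b; simp
      · rw [if_neg (by omega)]
        by_cases c : n < i + 2
        · simp [c]
        · have d : ¬ n < i + 2 + 2 := by omega
          rw [if_neg c, if_neg c, if_neg d, if_neg d]

/-! ### relations of crossings -/

lemma y_comm (i j : ℕ) (h : i + 2 ≤ j) : yL (Q := Q) i * yL j = yL j * yL i := by
  simp only [yL, mul_add, add_mul, one_mul, mul_one, e_comm i j h]
  abel

lemma y_sq (i : ℕ) : yL (Q := Q) i * yL i =
    (1 - ((Fintype.card Q : ℤ) + 2)) • 1 + ((Fintype.card Q : ℤ) + 2) • yL i := by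
  simp only [yL, mul_add, add_mul, one_mul, mul_one, e_sq i]
  module

lemma y_braid (i : ℕ) : yL (Q := Q) i * yL (i + 1) * yL i - yL (i + 1) * yL i * yL (i + 1) =
    ((Fintype.card Q : ℤ) + 2) • (yL i - yL (i + 1)) := by
  have h1 := e_sq (Q := Q) i
  have h2 := e_sq (Q := Q) (i + 1)
  have h3 := e_e1_e (Q := Q) i
  have h4 := e_e1_e (Q := Q) i
  have h5 := e1_e_e1 (Q := Q) i
  simp only [yL, mul_add, add_mul, one_mul, mul_one, h1, h2, h3, h5]
  module

lemma y_tl (i : ℕ) : yL (Q := Q) i * yL (i + 1) * yL i =
    yL i * yL (i + 1) + yL (i + 1) * yL i - yL i - yL (i + 1) + 1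
      + ((Fintype.card Q : ℤ) + 2) • (yL i - 1) := by
  have h1 := e_sq (Q := Q) i
  have h3 := e_e1_e (Q := Q) i
  simp only [yL, mul_add, add_mul, one_mul, mul_one, h1, h3]
  module

lemma cup_y (i : ℕ) : cupL (Q := Q) i * yL i = ((Fintype.card Q : ℤ) + 1) • cupL i := by
  simp only [yL, mul_add, mul_one, cup_e]
  module

lemma cup_y_far (N j : ℕ) (h : j + 2 ≤ N) : cupL (Q := Q) N * yL j = yL j * cupL N := by
  simp only [yL, mul_add, add_mul, one_mul, mul_one, cup_e_far N j h]

lemma y_cap_far (N j : ℕ) (h : j + 2 ≤ N) : yL (Q := Q) j * capL N = capL N * yL j := by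
  simp only [yL, mul_add, add_mul, one_mul, mul_one, e_cap_far N j h]

lemma cup_y_cap (i : ℕ) :
    cupL (Q := Q) (i + 1) * yL i * capL (i + 1) = ((Fintype.card Q : ℤ) + 1) • 1 := by
  simp only [yL, mul_add, add_mul, mul_one, cup_cap, cup_e_cap]
  module

lemma y_slide (i : ℕ) : cupL (Q := Q) i * cupL (i + 2) * yL (i + 1) * yL i
    = cupL i * cupL (i + 2) * yL (i + 1) * yL (i + 2) := by
  have h1 : cupL (Q := Q) i * cupL (i + 2) * eL i = (Fintype.card Q : ℤ) • (cupL i * cupL (i + 2)) := by
    rw [mul_assoc, cup_e_far (i + 2) i (by omega), ← mul_assoc, cup_e, smul_mul_assoc]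
  have h2 : cupL (Q := Q) i * cupL (i + 2) * eL (i + 2)
      = (Fintype.card Q : ℤ) • (cupL i * cupL (i + 2)) := by
    rw [mul_assoc, cup_e, mul_smul_comm]
  obtain ⟨h3, h4⟩ := cup_cup_e_e (Q := Q) i
  simp only [yL, mul_add, mul_one, add_mul, h1, h2, h3, h4]

/-! ### straight crossings -/

lemma sw_sw (i : ℕ) (L : ℕ → Q) : sw i (sw i L) = L := by
  funext n; simp only [sw]
  by_cases a : n = i
  · subst a; simp
  · by_cases b : n = i + 1
    · subst b; simp
    · simp [a, b]

lemma sw_comm (i j : ℕ) (h : i + 2 ≤ j) (L : ℕ → Q) : sw i (sw j L) = sw j (sw i L) := by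
  funext n; simp only [sw]
  by_cases a : n = i
  · subst a
    rw [if_pos rfl, if_neg (by omega), if_neg (by omega), if_neg (by omega), if_neg (by omega),
      if_pos rfl]
  · by_cases b : n = i + 1
    · subst b
      rw [if_neg a, if_pos rfl, if_neg (by omega), if_neg (by omega), if_neg (by omega),
        if_neg (by omega), if_neg (by omega), if_pos rfl]
    · rw [if_neg a, if_neg b]
      by_cases c : n = j
      · rw [if_pos c, if_pos c, if_neg (by omega), if_neg (by omega)]
      · rw [if_neg c, if_neg c]
        by_cases d : n = j + 1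
        · rw [if_pos d, if_pos d, if_neg (by omega), if_neg (by omega)]
        · rw [if_neg d, if_neg d, if_neg a, if_neg b]

lemma sw_braid (i : ℕ) (L : ℕ → Q) :
    sw i (sw (i + 1) (sw i L)) = sw (i + 1) (sw i (sw (i + 1) L)) := by
  have f1 : ¬ i + 1 = i := by omega
  have f2 : ¬ i = i + 1 := by omega
  have f3 : ¬ i + 1 + 1 = i := by omega
  have f4 : ¬ i = i + 1 + 1 := by omega
  have f5 : ¬ i + 1 + 1 = i + 1 := by omega
  have f6 : ¬ i + 1 = i + 1 + 1 := by omega
  funext n; simp only [sw]
  by_cases a : n = i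
  · subst a; simp only [f1, f2, f3, f4, f5, f6, if_true, if_false]
  · by_cases b : n = i + 1
    · subst b; simp only [f1, f2, f3, f4, f5, f6, if_true, if_false]
    · by_cases c : n = i + 1 + 1
      · subst c; simp only [f1, f2, f3, f4, f5, f6, if_true, if_false]
      · simp [a, b, c]

lemma s_sq (i : ℕ) : sL (Q := Q) i * sL i = 1 := by
  ext F L; simp only [Module.End.mul_apply, sL_apply, sw_sw, Module.End.one_apply]

lemma s_comm (i j : ℕ) (h : i + 2 ≤ j) : sL (Q := Q) i * sL j = sL j * sL i := by
  ext F L; simp only [Module.End.mul_apply, sL_apply, sw_comm i j h]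

lemma s_braid (i : ℕ) : sL (Q := Q) i * sL (i + 1) * sL i = sL (i + 1) * sL i * sL (i + 1) := by
  ext F L; simp only [Module.End.mul_apply, sL_apply, sw_braid]

lemma sw_ins_self (i : ℕ) (x : Q) (L : ℕ → Q) : sw i (ins i x L) = ins i x L := by
  funext n; simp only [sw, ins]
  by_cases a : n = i
  · subst a; simp
  · by_cases b : n = i + 1
    · subst b; simp
    · simp [a, b]

lemma sw_ins_far (N j : ℕ) (h : j + 2 ≤ N) (x : Q) (L : ℕ → Q) :
    sw j (ins N x L) = ins N x (sw j L) := by
  funext n; simp only [sw, ins]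
  by_cases a : n = j
  · subst a
    rw [if_pos rfl, if_pos (by omega), if_pos (by omega), if_pos rfl]
  · rw [if_neg a]
    by_cases b : n = j + 1
    · subst b
      rw [if_pos rfl, if_pos (by omega), if_pos (by omega), if_neg (by omega), if_pos rfl]
    · rw [if_neg b]
      by_cases c : n < N
      · rw [if_pos c, if_pos c, if_neg a, if_neg b]
      · rw [if_neg c, if_neg c]
        by_cases d : n < N + 2
        · rw [if_pos d, if_pos d]
        · rw [if_neg d, if_neg d, if_neg (by omega), if_neg (by omega)]

lemma sw_del_far (N j : ℕ) (h : j + 2 ≤ N) (L : ℕ → Q) : sw j (del N L) = del N (sw j L) := by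
  funext n; simp only [sw, del]
  by_cases a : n = j
  · subst a
    rw [if_pos rfl, if_pos (by omega), if_pos (by omega), if_pos rfl]
  · rw [if_neg a]
    by_cases b : n = j + 1
    · subst b
      rw [if_pos rfl, if_pos (by omega), if_pos (by omega), if_neg (by omega), if_pos rfl]
    · rw [if_neg b]
      by_cases c : n < N
      · rw [if_pos c, if_pos c, if_neg a, if_neg b]
      · rw [if_neg c, if_neg c, if_neg (by omega), if_neg (by omega)]

lemma cup_s (i : ℕ) : cupL (Q := Q) i * sL i = cupL i := by
  ext F L; simp only [Module.End.mul_apply, sL_apply, cupL_apply, sw_ins_self]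

lemma cup_s_far (N j : ℕ) (h : j + 2 ≤ N) : cupL (Q := Q) N * sL j = sL j * cupL N := by
  ext F L; simp only [Module.End.mul_apply, sL_apply, cupL_apply, sw_ins_far N j h]

lemma s_cap_far (N j : ℕ) (h : j + 2 ≤ N) : sL (Q := Q) j * capL N = capL N * sL j := by
  ext F L
  simp only [Module.End.mul_apply, sL_apply, capL_apply, sw_del_far N j h]
  have h1 : (sw j L) N = L N := by simp only [sw]; rw [if_neg (by omega), if_neg (by omega)]
  have h2 : (sw j L) (N + 1) = L (N + 1) := by
    simp only [sw]; rw [if_neg (by omega), if_neg (by omega)]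
  rw [h1, h2]

lemma cup_s_cap (i : ℕ) : cupL (Q := Q) (i + 1) * sL i * capL (i + 1) = 1 := by
  ext F L
  simp only [Module.End.mul_apply, cupL_apply, capL_apply, sL_apply, Module.End.one_apply]
  have h1 : ∀ x : Q, (sw i (ins (i + 1) x L)) (i + 1) = L i ∧
      (sw i (ins (i + 1) x L)) (i + 1 + 1) = x := by
    intro x; constructor <;> simp [sw, ins]
  simp only [(h1 _).1, (h1 _).2]
  rw [Finset.sum_ite_eq Finset.univ (L i), if_pos (Finset.mem_univ _)]
  congr 1
  funext n
  simp only [del, sw, ins]
  by_cases a : n < i + 1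
  · rw [if_pos a]
    by_cases b : n = i
    · rw [if_pos b]; subst b; simp
    · rw [if_neg b, if_neg (by omega), if_pos a]
  · rw [if_neg a, if_neg (by omega), if_neg (by omega), if_neg (by omega), if_neg (by omega)]; simp

lemma s_slide (i : ℕ) : cupL (Q := Q) i * cupL (i + 2) * sL (i + 1) * sL i
    = cupL i * cupL (i + 2) * sL (i + 1) * sL (i + 2) := by
  ext F L
  simp only [Module.End.mul_apply, cupL_apply, sL_apply]
  rw [Finset.sum_comm]
  refine Finset.sum_congr rfl fun x _ => Finset.sum_congr rfl fun z _ => congrArg F ?_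
  funext n
  simp only [sw, ins]
  by_cases a : n = i
  · subst a; simp
  · by_cases b : n = i + 1
    · subst b; simp
    · by_cases c : n = i + 2
      · subst c; simp
      · by_cases d : n = i + 2 + 1
        · subst d; simp
        · by_cases e : n < i
          · have e1 : n < i + 2 := by omega
            simp [a, b, c, d, e, e1]
          · have e1 : ¬ n < i + 2 := by omega
            have e2 : ¬ n < i + 2 + 2 := by omega
            have e3 : ¬ n - 2 < i := by omega
            have e4 : ¬ n - 2 < i + 2 := by omega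
            simp [a, b, c, d, e, e1, e2, e3, e4]

end Rels

end Pool.Agent.Helper607.Tutte
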