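import Pool.Agent.Helper607.Tutte.Rels

/-!
# Straight labelings: powers of two and the basic inequality
-/

set_option linter.unusedSectionVars false

namespace Pool.Agent.Helper607.Tutte

open Finset

lemma ncup_append (u v : List Lt) : ncup (u ++ v) = ncup u + ncup v := by
  induction u with
  | nil => simp [ncup]
  | cons l u ih => cases l <;> simp [ncup, ih] <;> omega

lemma run_append (u v : List Lt) (t : ℕ) (L x : ℕ → ZMod 2) :
    run (u ++ v) t L x = run v (t + ncup u) (run u t L x) x := by
  induction u generalizing t L with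
  | nil => simp [run, ncup]
  | cons l u ih =>
    cases l with
    | cup i =>
      simp only [List.cons_append, run, ncup, ih]
      congr 1; omega
    | cap i => simp only [List.cons_append, run, ncup, ih]
    | y i => simp only [List.cons_append, run, ncup, ih]

lemma acc_append (u v : List Lt) (t : ℕ) (L x : ℕ → ZMod 2) :
    acc (u ++ v) t L x ↔ acc u t L x ∧ acc v (t + ncup u) (run u t L x) x := by
  induction u generalizing t L with
  | nil => simp [acc, run, ncup]
  | cons l u ih =>
    cases l with
    | cup i =>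
      simp only [List.cons_append, acc, run, ncup, ih]
      have : t + 1 + ncup u = t + (ncup u + 1) := by omega
      rw [this]
    | cap i => simp only [List.cons_append, acc, run, ncup, ih, and_assoc]
    | y i => simp only [List.cons_append, acc, run, ncup, ih]

lemma ins_add (i : ℕ) (a b : ZMod 2) (L M : ℕ → ZMod 2) :
    ins i (a + b) (L + M) = ins i a L + ins i b M := by
  funext n; simp only [ins, Pi.add_apply]; split_ifs <;> rfl

lemma del_add (i : ℕ) (L M : ℕ → ZMod 2) : del i (L + M) = del i L + del i M := by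
  funext n; simp only [del, Pi.add_apply]; split_ifs <;> rfl

lemma sw_add (i : ℕ) (L M : ℕ → ZMod 2) : sw i (L + M) = sw i L + sw i M := by
  funext n; simp only [sw, Pi.add_apply]; split_ifs <;> rfl

lemma run_add (u : List Lt) (t : ℕ) (L M x y : ℕ → ZMod 2) :
    run u t (L + M) (x + y) = run u t L x + run u t M y := by
  induction u generalizing t L M with
  | nil => rfl
  | cons l u ih =>
    cases l with
    | cup i => simp only [run, Pi.add_apply, ins_add, ih]
    | cap i => simp only [run, del_add, ih]
    | y i => simp only [run, sw_add, ih]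

lemma acc_add (u : List Lt) (t : ℕ) (L M x y : ℕ → ZMod 2) (h1 : acc u t L x) (h2 : acc u t M y) :
    acc u t (L + M) (x + y) := by
  induction u generalizing t L M with
  | nil => trivial
  | cons l u ih =>
    cases l with
    | cup i => simp only [acc, Pi.add_apply, ins_add] at *; exact ih _ _ _ h1 h2
    | cap i =>
      simp only [acc, del_add, Pi.add_apply] at *
      exact ⟨by rw [h1.1, h2.1], ih _ _ _ h1.2 h2.2⟩
    | y i => simp only [acc, sw_add] at *; exact ih _ _ _ h1 h2

lemma ins_zero (i : ℕ) : ins i (0 : ZMod 2) (0 : ℕ → ZMod 2) = 0 := by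
  funext n; simp only [ins, Pi.zero_apply]; split_ifs <;> rfl

lemma acc_zero (u : List Lt) (t : ℕ) : acc u t 0 0 := by
  induction u generalizing t with
  | nil => trivial
  | cons l u ih =>
    cases l with
    | cup i =>
      simp only [acc, Pi.zero_apply, ins_zero]; exact ih _
    | cap i =>
      refine ⟨rfl, ?_⟩
      have : del i (0 : ℕ → ZMod 2) = 0 := by funext n; simp [del]
      rw [this]; exact ih _
    | y i =>
      simp only [acc]
      have : sw i (0 : ℕ → ZMod 2) = 0 := by funext n; simp [sw]
      rw [this]; exact ih _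

/-- extension by zero -/
def ext0 {K : ℕ} (x : Fin K → ZMod 2) : ℕ → ZMod 2 := fun n => if h : n < K then x ⟨n, h⟩ else 0

lemma ext0_add {K : ℕ} (x y : Fin K → ZMod 2) : ext0 (x + y) = ext0 x + ext0 y := by
  funext n; simp only [ext0, Pi.add_apply]; split_ifs <;> simp

lemma ext0_zero {K : ℕ} : ext0 (0 : Fin K → ZMod 2) = 0 := by
  funext n; simp only [ext0]; split_ifs <;> rfl

lemma acc_congr (u : List Lt) (t : ℕ) (L x y : ℕ → ZMod 2) (h : ∀ n, t ≤ n → n < t + ncup u → x n = y n) :
    acc u t L x ↔ acc u t L y := by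
  induction u generalizing t L with
  | nil => simp [acc]
  | cons l u ih =>
    cases l with
    | cup i =>
      simp only [acc, ncup] at *
      rw [h t (le_refl _) (by omega)]
      exact ih _ _ fun n h1 h2 => h n (by omega) (by omega)
    | cap i =>
      simp only [acc, ncup] at *
      rw [ih _ _ h]
    | y i =>
      simp only [acc, ncup] at *
      exact ih _ _ h

lemma acc_shift (u : List Lt) (t : ℕ) (L x : ℕ → ZMod 2) :
    acc u (t + 1) L x ↔ acc u t L (fun n => x (n + 1)) := by
  induction u generalizing t L with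
  | nil => simp [acc]
  | cons l u ih =>
    cases l with
    | cup i => simp only [acc]; exact ih _ _
    | cap i => simp only [acc]; rw [ih]
    | y i => simp only [acc]; exact ih _ _

open Classical in
lemma sv_count (W : List Lt) (L : ℕ → ZMod 2) :
    sv W (fun _ => 1) L = ∑ x : Fin (ncup W) → ZMod 2, if acc W 0 L (ext0 x) then (1 : ℤ) else 0 := by
  induction W generalizing L with
  | nil =>
    change (1 : ℤ) = ∑ x : Fin 0 → ZMod 2, if acc [] 0 L (ext0 x) then (1 : ℤ) else 0
    simp [acc]
  | cons l W ih =>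
    cases l with
    | cup i =>
      change ∑ a, sv W (fun _ => 1) (ins i a L) = ∑ x : Fin (ncup W + 1) → ZMod 2,
        if acc W (0 + 1) (ins i (ext0 x 0) L) (ext0 x) then (1 : ℤ) else 0
      rw [← (Fin.consEquiv (fun _ => ZMod 2)).sum_comp, Fintype.sum_prod_type]
      refine Finset.sum_congr rfl fun a _ => ?_
      rw [ih]
      refine Finset.sum_congr rfl fun x _ => ?_
      have e0 : ext0 (Fin.cons a x : Fin (ncup W + 1) → ZMod 2) 0 = a := by
        simp [ext0]
      have e1 : (fun n => ext0 (Fin.cons a x : Fin (ncup W + 1) → ZMod 2) (n + 1)) = ext0 x := by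
        funext n
        simp only [ext0]
        by_cases h : n < ncup W
        · rw [dif_pos h, dif_pos (by omega)]
          exact Fin.cons_succ (α := fun _ => ZMod 2) a x ⟨n, h⟩
        · rw [dif_neg h, dif_neg (by omega)]
      have e2 : acc W (0 + 1) (ins i (ext0 (Fin.cons a x : Fin (ncup W + 1) → ZMod 2) 0) L)
          (ext0 (Fin.cons a x : Fin (ncup W + 1) → ZMod 2)) ↔ acc W 0 (ins i a L) (ext0 x) := by
        rw [acc_shift, e0, e1]
      simp only [Fin.consEquiv, Equiv.coe_fn_mk]
      simp only [e2]
    | cap i =>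
      simp only [sv, opCap, acc, ncup]
      by_cases h : L i = L (i + 1)
      · simp only [h, if_true, true_and]; exact ih _
      · simp [h]
    | y i => simp only [sv, acc, ncup]; exact ih _

/-- the space of straight labelings -/
def Sol (K : ℕ) (W : List Lt) : Submodule (ZMod 2) (Fin K → ZMod 2) where
  carrier := {x | acc W 0 0 (ext0 x)}
  add_mem' := by
    intro a b ha hb
    change acc W 0 0 (ext0 (a + b))
    rw [ext0_add, ← add_zero (0 : ℕ → ZMod 2)]
    exact acc_add _ _ _ _ _ _ ha hb
  zero_mem' := by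
    change acc W 0 0 (ext0 0)
    rw [ext0_zero]; exact acc_zero _ _
  smul_mem' := by
    intro c x hx
    change acc W 0 0 (ext0 (c • x))
    have hc : c = 0 ∨ c = 1 := by revert c; decide
    rcases hc with rfl | rfl
    · rw [zero_smul, ext0_zero]; exact acc_zero _ _
    · rw [one_smul]; exact hx

lemma sc_eq (W : List Lt) : sc W = 2 ^ Module.finrank (ZMod 2) (Sol (ncup W) W) := by
  classical
  have h1 : sc W = ∑ x : Fin (ncup W) → ZMod 2, if acc W 0 0 (ext0 x) then (1 : ℤ) else 0 :=
    sv_count W _
  have h2 : (∑ x : Fin (ncup W) → ZMod 2, if acc W 0 0 (ext0 x) then (1 : ℤ) else 0)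
      = (Nat.card (Sol (ncup W) W) : ℤ) := by
    rw [← Finset.sum_filter, Finset.sum_const, nsmul_eq_mul, mul_one, Nat.card_eq_fintype_card]
    congr 1
    rw [← Fintype.card_subtype]
    rfl
  rw [h1, h2, Nat.card_eq_fintype_card, Module.card_eq_pow_finrank (K := ZMod 2), ZMod.card]
  push_cast
  rfl

theorem hpow (W : List Lt) : ∃ c : ℕ, sc W = 2 ^ c := ⟨_, sc_eq W⟩

lemma pow_inj' {c c' : ℕ} (h : (2 : ℤ) ^ c = 2 ^ c') : c = c' := by
  have : (2 : ℕ) ^ c = 2 ^ c' := by exact_mod_cast h
  exact Nat.pow_right_injective (le_refl 2) this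

theorem hineq (W W' : List Lt) (hK : ncup W = ncup W') (φ : (ℕ → ZMod 2) →+ ZMod 2)
    (h : ∀ x, acc W 0 (fun _ => 0) x → φ x = 0 → acc W' 0 (fun _ => 0) x)
    (c c' : ℕ) (hc : sc W = 2 ^ c) (hc' : sc W' = 2 ^ c') : c ≤ c' + 1 := by
  have e1 : c = Module.finrank (ZMod 2) (Sol (ncup W) W) := pow_inj' (by rw [← hc, sc_eq])
  have e2 : c' = Module.finrank (ZMod 2) (Sol (ncup W) W') := pow_inj' (by rw [← hc', sc_eq, hK])
  -- the functional on solutions
  let ψ0 : (Sol (ncup W) W) →+ ZMod 2 :=
    { toFun := fun x => φ (ext0 x.1)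
      map_zero' := by
        change φ (ext0 0) = 0
        rw [ext0_zero, map_zero]
      map_add' := by
        intro x y
        change φ (ext0 (x.1 + y.1)) = _
        rw [ext0_add, map_add] }
  let ψ : (Sol (ncup W) W) →ₗ[ZMod 2] ZMod 2 := ψ0.toZModLinearMap 2
  have hψ : ∀ x, ψ x = φ (ext0 x.1) := fun x => rfl
  have hr := LinearMap.finrank_range_add_finrank_ker ψ
  have hr1 : Module.finrank (ZMod 2) (LinearMap.range ψ) ≤ 1 := by
    have := Submodule.finrank_le (LinearMap.range ψ)
    simpa using this
  have hk : Module.finrank (ZMod 2) (LinearMap.ker ψ) ≤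
      Module.finrank (ZMod 2) (Sol (ncup W) W') := by
    let ι : (LinearMap.ker ψ) →ₗ[ZMod 2] (Sol (ncup W) W') :=
      { toFun := fun x => ⟨x.1.1, h _ x.1.2 (by rw [← hψ]; exact x.2)⟩
        map_add' := fun x y => rfl
        map_smul' := fun c x => rfl }
    apply LinearMap.finrank_le_finrank_of_injective (f := ι)
    intro x y hxy
    have : (ι x).1 = (ι y).1 := by rw [hxy]
    exact Subtype.ext (Subtype.ext this)
  omega

/-- effect of a word in crossings on labels -/
def sws : List ℕ → (ℕ → ZMod 2) → (ℕ → ZMod 2)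
  | [], L => L
  | i :: w, L => sws w (sw i L)

lemma run_map_y (w : List ℕ) (t : ℕ) (L x : ℕ → ZMod 2) : run (w.map Lt.y) t L x = sws w L := by
  induction w generalizing L with
  | nil => rfl
  | cons i w ih => simp only [List.map_cons, run, sws, ih]

lemma acc_map_y (w : List ℕ) (t : ℕ) (L x : ℕ → ZMod 2) : acc (w.map Lt.y) t L x := by
  induction w generalizing L with
  | nil => trivial
  | cons i w ih => simp only [List.map_cons, acc, ih]

lemma ncup_map_y (w : List ℕ) : ncup (w.map Lt.y) = 0 := by
  induction w with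
  | nil => rfl
  | cons i w ih => simp only [List.map_cons, ncup, ih]

/-- changing a word in crossings inside a word -/
lemma ineq_swap (u v : List Lt) (w1 w2 : List ℕ) (i j : ℕ)
    (h : ∀ L : ℕ → ZMod 2, L i = L j → sws w1 L = sws w2 L) (c c' : ℕ)
    (hc : sc (u ++ w1.map Lt.y ++ v) = 2 ^ c) (hc' : sc (u ++ w2.map Lt.y ++ v) = 2 ^ c') :
    c ≤ c' + 1 := by
  let φ : (ℕ → ZMod 2) →+ ZMod 2 :=
    { toFun := fun x => run u 0 0 x i - run u 0 0 x j
      map_zero' := by
        have h0 : run u 0 0 0 = run u 0 0 0 + run u 0 0 0 := by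
          conv_lhs => rw [← add_zero (0 : ℕ → ZMod 2)]
          exact run_add _ _ _ _ _ _
        have : run u 0 (0 : ℕ → ZMod 2) 0 = 0 := by
          have := congrArg (fun z => z - run u 0 0 0) h0
          simpa using this.symm
        rw [this]; simp
      map_add' := by
        intro x y
        have : run u 0 0 (x + y) = run u 0 0 x + run u 0 0 y := by
          conv_lhs => rw [← add_zero (0 : ℕ → ZMod 2)]
          exact run_add _ _ _ _ _ _
        rw [this, Pi.add_apply, Pi.add_apply]; abel }
  refine hineq _ _ (by simp only [ncup_append, ncup_map_y]) φ ?_ c c' hc hc'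
  intro x hx hφ
  have hφ' : run u 0 0 x i = run u 0 0 x j := sub_eq_zero.1 hφ
  rw [acc_append, acc_append] at hx ⊢
  refine ⟨⟨hx.1.1, acc_map_y _ _ _ _⟩, ?_⟩
  have h2 := hx.2
  rw [run_append, run_map_y] at h2 ⊢
  simp only [ncup_append, ncup_map_y] at h2 ⊢
  rw [← h (run u 0 (fun _ => 0) x) hφ']
  exact h2

end Pool.Agent.Helper607.Tutte
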